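import Mathlib

/-!
Definitions for MP_2be980_co (sphere dimension of graphs).
-/

namespace SphereDim

open Metric

/-- `G` is the intersection graph of a family of spheres of `ℝ^d` indexed by the vertices. -/
def InSphere {V : Type} (d : ℕ) (G : SimpleGraph V) : Prop :=
  ∃ (c : V → EuclideanSpace ℝ (Fin d)) (ρ : V → ℝ), (∀ v, 0 < ρ v) ∧
    ∀ u v, u ≠ v → (G.Adj u v ↔ (sphere (c u) (ρ u) ∩ sphere (c v) (ρ v)).Nonempty)

/-- `G` is the intersection graph of a family of spheres of `ℝ^d`, pairwise distinct. -/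
def InSphereInj {V : Type} (d : ℕ) (G : SimpleGraph V) : Prop :=
  ∃ (c : V → EuclideanSpace ℝ (Fin d)) (ρ : V → ℝ), (∀ v, 0 < ρ v) ∧
    (∀ u v, u ≠ v → (c u, ρ u) ≠ (c v, ρ v)) ∧
    ∀ u v, u ≠ v → (G.Adj u v ↔ (sphere (c u) (ρ u) ∩ sphere (c v) (ρ v)).Nonempty)

/-- Circle graphs: intersection graphs of families of chords of the unit circle. -/
def InCircle {V : Type} (G : SimpleGraph V) : Prop :=
  ∃ P Q : V → EuclideanSpace ℝ (Fin 2), (∀ v, ‖P v‖ = 1 ∧ ‖Q v‖ = 1 ∧ P v ≠ Q v) ∧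
    ∀ u v, u ≠ v → (G.Adj u v ↔ (segment ℝ (P u) (Q u) ∩ segment ℝ (P v) (Q v)).Nonempty)

/-- The class `𝒮_d` of the problem, for `d ≥ 1`. -/
def InS {V : Type} (d : ℕ) (G : SimpleGraph V) : Prop :=
  if d = 1 then InCircle G else InSphere d G

/-- Sphere dimension. -/
noncomputable def sd {V : Type} (G : SimpleGraph V) : ℕ := sInf {d | 1 ≤ d ∧ InS d G}

/-- The largest sphere dimension of a graph on `n` vertices. -/
noncomputable def f (n : ℕ) : ℕ := sSup (Set.range fun G : SimpleGraph (Fin n) => sd G)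

end SphereDim
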