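import Mathlib

/-! Module L1: intersection criterion for two spheres. -/

set_option autoImplicit false

open Metric
open scoped RealInnerProductSpace

namespace SphereDim

/-- Two spheres of a space of dimension at least two meet iff `|r - s| ≤ |c - c'| ≤ r + s`. -/
theorem sphere_inter_nonempty_iff {E : Type} [NormedAddCommGroup E] [InnerProductSpace ℝ E]
    [FiniteDimensional ℝ E] (h2 : 2 ≤ Module.finrank ℝ E) (c c' : E) {r s : ℝ} (hr : 0 < r)
    (hs : 0 < s) :
    (sphere c r ∩ sphere c' s).Nonempty ↔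
      (r ^ 2 + s ^ 2 - ‖c - c'‖ ^ 2) ^ 2 ≤ 4 * r ^ 2 * s ^ 2 := by
  constructor
  · rintro ⟨x, hx, hx'⟩
    rw [mem_sphere, dist_eq_norm] at hx hx'
    have h1 : ‖c - c'‖ ^ 2 = s ^ 2 - 2 * ⟪x - c', x - c⟫ + r ^ 2 := by
      have h : c - c' = (x - c') - (x - c) := by abel
      rw [h, norm_sub_sq_real, hx, hx']
    have h2 : |⟪x - c', x - c⟫| ≤ s * r := by
      have := abs_real_inner_le_norm (x - c') (x - c)
      rwa [hx, hx'] at this
    have h3 : ⟪x - c', x - c⟫ ^ 2 ≤ (s * r) ^ 2 := by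
      rw [← sq_abs]
      exact pow_le_pow_left₀ (abs_nonneg _) h2 2
    rw [h1]
    nlinarith
  · intro h
    -- a unit vector orthogonal to a given vector
    have hex : ∀ v : E, ∃ e : E, ‖e‖ = 1 ∧ ⟪v, e⟫ = 0 := by
      intro v
      have h3 := Submodule.finrank_add_finrank_orthogonal (ℝ ∙ v)
      have h4 : Module.finrank ℝ (ℝ ∙ v) ≤ 1 := by
        have := finrank_span_le_card (R := ℝ) ({v} : Set E)
        simpa using this
      have h5 : 0 < Module.finrank ℝ (ℝ ∙ v)ᗮ := by omega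
      obtain ⟨w, hw⟩ := Module.finrank_pos_iff_exists_ne_zero.1 h5
      have hw0 : (w : E) ≠ 0 := fun h => hw (Subtype.ext h)
      refine ⟨(‖(w : E)‖)⁻¹ • (w : E), ?_, ?_⟩
      · rw [norm_smul, norm_inv, norm_norm]
        exact inv_mul_cancel₀ (norm_ne_zero_iff.2 hw0)
      · rw [inner_smul_right, Submodule.mem_orthogonal_singleton_iff_inner_right.1 w.2, mul_zero]
    set v := c' - c with hv
    have hD : ‖c - c'‖ = ‖v‖ := by rw [hv, norm_sub_rev]
    rw [hD] at h
    -- it suffices to find `u`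
    suffices hu : ∃ u : E, ‖u‖ ^ 2 = r ^ 2 ∧ ‖u - v‖ ^ 2 = s ^ 2 by
      obtain ⟨u, hu1, hu2⟩ := hu
      refine ⟨c + u, ?_, ?_⟩
      · rw [mem_sphere, dist_eq_norm, add_sub_cancel_left]
        exact (pow_left_inj₀ (norm_nonneg _) hr.le two_ne_zero).1 hu1
      · rw [mem_sphere, dist_eq_norm]
        have h3 : c + u - c' = u - v := by rw [hv]; abel
        rw [h3]
        exact (pow_left_inj₀ (norm_nonneg _) hs.le two_ne_zero).1 hu2
    obtain ⟨e, he1, he2⟩ := hex v
    rcases eq_or_ne v 0 with h0 | h0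
    · rw [h0, norm_zero] at h
      have h3 : r ^ 2 = s ^ 2 := by nlinarith [sq_nonneg (r ^ 2 - s ^ 2)]
      refine ⟨r • e, ?_, ?_⟩
      · rw [norm_smul, he1, mul_one, Real.norm_eq_abs, sq_abs]
      · rw [h0, sub_zero, norm_smul, he1, mul_one, Real.norm_eq_abs, sq_abs, h3]
    · have hD0 : 0 < ‖v‖ := norm_pos_iff.2 h0
      set D := ‖v‖ with hDd
      set a := (r ^ 2 + D ^ 2 - s ^ 2) / (2 * D ^ 2) with ha
      have haD : 2 * D ^ 2 * a = r ^ 2 + D ^ 2 - s ^ 2 := by
        rw [ha]; field_simp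
      have hb : 0 ≤ r ^ 2 - a ^ 2 * D ^ 2 := by
        have h3 : 4 * D ^ 2 * (r ^ 2 - a ^ 2 * D ^ 2) =
            4 * r ^ 2 * s ^ 2 - (r ^ 2 + s ^ 2 - D ^ 2) ^ 2 := by
          have : 4 * D ^ 2 * (r ^ 2 - a ^ 2 * D ^ 2) = 4 * D ^ 2 * r ^ 2 - (2 * D ^ 2 * a) ^ 2 := by
            ring
          rw [this, haD]; ring
        have h4 : 0 ≤ 4 * D ^ 2 * (r ^ 2 - a ^ 2 * D ^ 2) := by rw [h3]; linarith
        by_contra hneg
        have h5 : 4 * D ^ 2 * (r ^ 2 - a ^ 2 * D ^ 2) < 0 :=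
          mul_neg_of_pos_of_neg (by positivity) (not_le.1 hneg)
        linarith
      set b := Real.sqrt (r ^ 2 - a ^ 2 * D ^ 2) with hbd
      have hb2 : b ^ 2 = r ^ 2 - a ^ 2 * D ^ 2 := Real.sq_sqrt hb
      have hvv : ⟪v, v⟫ = D ^ 2 := real_inner_self_eq_norm_sq v
      have hee : ⟪e, e⟫ = (1 : ℝ) := by rw [real_inner_self_eq_norm_sq, he1]; norm_num
      have hev : ⟪e, v⟫ = (0 : ℝ) := by rw [real_inner_comm]; exact he2
      have hn : ‖a • v + b • e‖ ^ 2 = r ^ 2 := by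
        rw [← real_inner_self_eq_norm_sq]
        simp only [inner_add_left, inner_add_right, inner_smul_left, inner_smul_right,
          RCLike.conj_to_real, hvv, hee, hev, he2]
        have h6 : a ^ 2 * D ^ 2 + b ^ 2 = r ^ 2 := by rw [hb2]; ring
        rw [← h6]
        ring
      refine ⟨a • v + b • e, hn, ?_⟩
      rw [norm_sub_sq_real, hn]
      simp only [inner_add_left, inner_smul_left, RCLike.conj_to_real, hvv, hev, mul_zero, add_zero]
      rw [← hDd]
      linarith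

end SphereDim
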