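import Mathlib
import Pool.Agent.Lib.MP_2be980_co.Defs
import Pool.Agent.Lib.MP_2be980_co.SphereInter

/-!
U2: equal caps of the unit sphere and spheres of a space of one dimension less.
-/

open MvPolynomial Metric Finset
open scoped BigOperators RealInnerProductSpace

namespace SphereDim

/-- the computation of the stereographic projection -/
theorem caps_identity {A A' I h a a' uN uN' : ℝ} (ha : a ≠ 0) (ha' : a' ≠ 0) (h1 : a = h - uN)
    (h2 : a' = h - uN') (hA : A = 1 - uN ^ 2) (hA' : A' = 1 - uN' ^ 2) :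
    (1 - h ^ 2) / a ^ 2 + (1 - h ^ 2) / a' ^ 2 -
      (A / a ^ 2 + A' / a' ^ 2 - 2 * (I - uN * uN') / (a * a')) =
      2 * (I - h ^ 2) / (a * a') := by
  subst hA hA'
  have e : uN = h - a := by linarith
  have e' : uN' = h - a' := by linarith
  subst e e'
  field_simp
  ring

theorem InSphereInj_of_caps {V ι : Type} [Fintype ι] [DecidableEq ι] (G : SimpleGraph V)
    (hι : 3 ≤ Fintype.card ι) (N : ι) (u : V → EuclideanSpace ℝ ι) (hu : ∀ v, ‖u v‖ = 1)
    (h : ℝ) (h0 : 0 < h) (h1 : h < 1) (hN : ∀ v, u v N ≠ h)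
    (hinj : ∀ v w, v ≠ w → u v ≠ u w)
    (hadj : ∀ v w, v ≠ w → G.Adj v w → 2 * h ^ 2 - 1 < ⟪u v, u w⟫)
    (hnadj : ∀ v w, v ≠ w → ¬ G.Adj v w → ⟪u v, u w⟫ < 2 * h ^ 2 - 1) :
    InSphereInj (Fintype.card ι - 1) G := by
  classical
  have hcard : Fintype.card {i // i ≠ N} = Fintype.card ι - 1 := by
    rw [Fintype.card_subtype_compl (fun i => i = N), Fintype.card_subtype_eq]
  obtain ⟨e⟩ : Nonempty (Fin (Fintype.card ι - 1) ≃ {i // i ≠ N}) := by
    rw [← hcard]
    exact ⟨(Fintype.equivFin _).symm⟩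
  -- sums over the coordinates different from N
  have hsum : ∀ F : ι → ℝ, ∑ k, F (e k) = ∑ i, F i - F N := by
    intro F
    rw [e.sum_comp (fun i : {i // i ≠ N} => F i)]
    have h2 := Finset.sum_erase_eq_sub (s := Finset.univ) (f := F) (Finset.mem_univ N)
    rw [← h2]
    exact (Finset.sum_subtype (Finset.univ.erase N) (fun x => by simp) F).symm
  have hinner : ∀ v w, ⟪u v, u w⟫ = ∑ i, u v i * u w i := by
    intro v w
    rw [PiLp.inner_apply]
    refine Finset.sum_congr rfl fun i _ => ?_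
    simp [mul_comm]
  have hself : ∀ v, ∑ i, u v i * u v i = 1 := by
    intro v
    rw [← hinner, real_inner_self_eq_norm_sq, hu]
    norm_num
  have hane : ∀ v, h - u v N ≠ 0 := fun v => sub_ne_zero.2 (hN v).symm
  have hh : 0 < 1 - h ^ 2 := by nlinarith
  let c : V → EuclideanSpace ℝ (Fin (Fintype.card ι - 1)) := fun v =>
    WithLp.toLp 2 fun k => u v (e k) / (h - u v N)
  let ρ : V → ℝ := fun v => Real.sqrt (1 - h ^ 2) / |h - u v N|
  have hρ : ∀ v, 0 < ρ v := fun v => div_pos (Real.sqrt_pos.2 hh) (abs_pos.2 (hane v))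
  have hρ2 : ∀ v, ρ v ^ 2 = (1 - h ^ 2) / (h - u v N) ^ 2 := by
    intro v
    simp only [ρ]
    rw [div_pow, Real.sq_sqrt hh.le, sq_abs]
  have hdist : ∀ v w, ‖c v - c w‖ ^ 2 = (1 - u v N ^ 2) / (h - u v N) ^ 2 +
      (1 - u w N ^ 2) / (h - u w N) ^ 2 -
        2 * (⟪u v, u w⟫ - u v N * u w N) / ((h - u v N) * (h - u w N)) := by
    intro v w
    rw [EuclideanSpace.norm_sq_eq]
    let F : ι → ℝ := fun i => u v i * u v i / (h - u v N) ^ 2 +
        u w i * u w i / (h - u w N) ^ 2 -
        2 * (u v i * u w i) / ((h - u v N) * (h - u w N))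
    have h3 : ∀ k, ‖(c v - c w) k‖ ^ 2 = F (e k) := by
      intro k
      have hv := hane v
      have hw := hane w
      rw [Real.norm_eq_abs, sq_abs]
      show (u v (e k) / (h - u v N) - u w (e k) / (h - u w N)) ^ 2 = _
      simp only [F]
      field_simp
      ring
    rw [Finset.sum_congr rfl fun k _ => h3 k, hsum F]
    simp only [F]
    rw [Finset.sum_sub_distrib, Finset.sum_add_distrib, ← Finset.sum_div, ← Finset.sum_div,
      ← Finset.sum_div, ← Finset.mul_sum, hself, hself, ← hinner]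
    ring
  have hkey : ∀ v w, ρ v ^ 2 + ρ w ^ 2 - ‖c v - c w‖ ^ 2 =
      2 * (⟪u v, u w⟫ - h ^ 2) / ((h - u v N) * (h - u w N)) := by
    intro v w
    rw [hρ2, hρ2, hdist]
    exact caps_identity (hane v) (hane w) rfl rfl rfl rfl
  have hle1 : ∀ v w, ⟪u v, u w⟫ ≤ 1 := by
    intro v w
    have := real_inner_le_norm (u v) (u w)
    rwa [hu, hu, one_mul] at this
  refine ⟨c, ρ, hρ, ?_, ?_⟩
  · intro v w hvw heq
    rw [Prod.mk.injEq] at heq
    have h4 := hkey v w
    rw [heq.1, sub_self, norm_zero, ← heq.2] at h4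
    have h5 : (h - u v N) ^ 2 = (h - u w N) ^ 2 := by
      have h6 := hρ2 v
      rw [heq.2, hρ2 w] at h6
      have hv := hane v
      have hw := hane w
      field_simp at h6
      nlinarith
    rw [hρ2] at h4
    rcases sq_eq_sq_iff_eq_or_eq_neg.1 h5 with h6 | h6
    · rw [← h6] at h4
      have hv := hane v
      have h7 : ⟪u v, u w⟫ = 1 := by
        field_simp at h4
        nlinarith
      exact hinj v w hvw ((inner_eq_one_iff_of_norm_eq_one (hu v) (hu w)).1 h7)
    · have h8 : h - u w N = -(h - u v N) := by linarith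
      rw [h8] at h4
      have hv := hane v
      have h7 : ⟪u v, u w⟫ = 2 * h ^ 2 - 1 := by
        field_simp at h4
        nlinarith
      by_cases hG : G.Adj v w
      · exact absurd h7 (hadj v w hvw hG).ne'
      · exact absurd h7 (hnadj v w hvw hG).ne
  · intro v w hvw
    have hfin : 2 ≤ Module.finrank ℝ (EuclideanSpace ℝ (Fin (Fintype.card ι - 1))) := by
      rw [finrank_euclideanSpace_fin]
      omega
    rw [sphere_inter_nonempty_iff hfin (c v) (c w) (hρ v) (hρ w), hkey, hρ2, hρ2]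
    have hv := hane v
    have hw := hane w
    have hpos : 0 < (h - u v N) ^ 2 * (h - u w N) ^ 2 := by positivity
    have e1 : (2 * (⟪u v, u w⟫ - h ^ 2) / ((h - u v N) * (h - u w N))) ^ 2 =
        4 * (⟪u v, u w⟫ - h ^ 2) ^ 2 / ((h - u v N) ^ 2 * (h - u w N) ^ 2) := by
      field_simp
      ring
    have e2 : 4 * ((1 - h ^ 2) / (h - u v N) ^ 2) * ((1 - h ^ 2) / (h - u w N) ^ 2) =
        4 * (1 - h ^ 2) ^ 2 / ((h - u v N) ^ 2 * (h - u w N) ^ 2) := by
      field_simp
    rw [e1, e2, div_le_div_iff_of_pos_right hpos]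
    constructor
    · intro hG
      have h9 := hadj v w hvw hG
      have h10 := hle1 v w
      nlinarith
    · intro hle
      by_contra hG
      have h9 := hnadj v w hvw hG
      nlinarith

end SphereDim
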