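import Mathlib
import Pool.Agent.Lib.MP_2be980_co.Defs

/-!
Chords of the unit circle (module L2).
-/

open Metric Finset
open scoped BigOperators RealInnerProductSpace

namespace SphereDim

/-- Twice the oriented area of the triangle `P Q R`. -/
def orient (P Q R : EuclideanSpace ℝ (Fin 2)) : ℝ :=
  (Q 0 - P 0) * (R 1 - P 1) - (Q 1 - P 1) * (R 0 - P 0)

theorem norm_sq_two (P : EuclideanSpace ℝ (Fin 2)) : ‖P‖ ^ 2 = P 0 ^ 2 + P 1 ^ 2 := by
  rw [EuclideanSpace.norm_sq_eq]
  simp [Fin.sum_univ_two, sq_abs]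

/-- A point of the closed unit disc on the line through two points of the circle lies on the
chord. -/
theorem mem_chord (P Q X : EuclideanSpace ℝ (Fin 2)) (hP : ‖P‖ = 1) (hQ : ‖Q‖ = 1)
    (hPQ : P ≠ Q) (hX : ‖X‖ ≤ 1) (h : orient P Q X = 0) : X ∈ segment ℝ P Q := by
  have hP2 : P 0 ^ 2 + P 1 ^ 2 = 1 := by rw [← norm_sq_two, hP]; norm_num
  have hQ2 : Q 0 ^ 2 + Q 1 ^ 2 = 1 := by rw [← norm_sq_two, hQ]; norm_num
  have hX2 : X 0 ^ 2 + X 1 ^ 2 ≤ 1 := by
    rw [← norm_sq_two]
    nlinarith [norm_nonneg X]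
  unfold orient at h
  have hN : 0 < (Q 0 - P 0) ^ 2 + (Q 1 - P 1) ^ 2 := by
    by_contra hc
    apply hPQ
    have h0 : Q 0 - P 0 = 0 := by nlinarith [sq_nonneg (Q 0 - P 0), sq_nonneg (Q 1 - P 1)]
    have h1 : Q 1 - P 1 = 0 := by nlinarith [sq_nonneg (Q 0 - P 0), sq_nonneg (Q 1 - P 1)]
    ext i
    fin_cases i
    · simp; linarith
    · simp; linarith
  set N := (Q 0 - P 0) ^ 2 + (Q 1 - P 1) ^ 2 with hNdef
  set s := ((X 0 - P 0) * (Q 0 - P 0) + (X 1 - P 1) * (Q 1 - P 1)) / N with hs
  have hsN : s * N = (X 0 - P 0) * (Q 0 - P 0) + (X 1 - P 1) * (Q 1 - P 1) := by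
    rw [hs]; field_simp
  have e0 : X 0 - P 0 = s * (Q 0 - P 0) := by
    have : (X 0 - P 0) * N = s * (Q 0 - P 0) * N := by
      have : s * (Q 0 - P 0) * N = (s * N) * (Q 0 - P 0) := by ring
      rw [this, hsN, hNdef]
      linear_combination (-(Q 1 - P 1)) * h
    exact mul_right_cancel₀ hN.ne' this
  have e1 : X 1 - P 1 = s * (Q 1 - P 1) := by
    have : (X 1 - P 1) * N = s * (Q 1 - P 1) * N := by
      have : s * (Q 1 - P 1) * N = (s * N) * (Q 1 - P 1) := by ring
      rw [this, hsN, hNdef]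
      linear_combination (Q 0 - P 0) * h
    exact mul_right_cancel₀ hN.ne' this
  have hin : 0 ≤ s * (1 - s) * N := by
    have hx0 : X 0 = P 0 + s * (Q 0 - P 0) := by linarith
    have hx1 : X 1 = P 1 + s * (Q 1 - P 1) := by linarith
    rw [hx0, hx1] at hX2
    have : (P 0 + s * (Q 0 - P 0)) ^ 2 + (P 1 + s * (Q 1 - P 1)) ^ 2 = 1 - s * (1 - s) * N := by
      rw [hNdef]
      linear_combination (1 - s) * hP2 + s * hQ2
    linarith
  have hin' : 0 ≤ s * (1 - s) := by
    by_contra hc
    push Not at hc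
    have := mul_neg_of_neg_of_pos hc hN
    linarith
  have hs0 : 0 ≤ s := by
    by_contra hc
    push Not at hc
    nlinarith
  have hs1 : s ≤ 1 := by
    by_contra hc
    push Not at hc
    nlinarith
  rw [segment_eq_image]
  refine ⟨s, ⟨hs0, hs1⟩, ?_⟩
  ext i
  fin_cases i
  · simp; linear_combination -e0
  · simp; linear_combination -e1

/-- Two chords of the unit circle meet iff the ends of the second one are not strictly on the
same side of the line through the first one. -/
theorem chord_inter_iff (P Q P' Q' : EuclideanSpace ℝ (Fin 2)) (hP : ‖P‖ = 1) (hQ : ‖Q‖ = 1)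
    (hPQ : P ≠ Q) (hP' : ‖P'‖ = 1) (hQ' : ‖Q'‖ = 1) (hPQ' : P' ≠ Q') :
    (segment ℝ P Q ∩ segment ℝ P' Q').Nonempty ↔ orient P Q P' * orient P Q Q' ≤ 0 := by
  constructor
  · rintro ⟨X, h1, h2⟩
    rw [segment_eq_image] at h1 h2
    obtain ⟨s, ⟨hs0, hs1⟩, rfl⟩ := h1
    obtain ⟨t, ⟨ht0, ht1⟩, h⟩ := h2
    have e0 : (1 - t) * P' 0 + t * Q' 0 = (1 - s) * P 0 + s * Q 0 := by
      have := congrArg (fun v : EuclideanSpace ℝ (Fin 2) => v 0) h
      simpa using this
    have e1 : (1 - t) * P' 1 + t * Q' 1 = (1 - s) * P 1 + s * Q 1 := by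
      have := congrArg (fun v : EuclideanSpace ℝ (Fin 2) => v 1) h
      simpa using this
    have key : (1 - t) * orient P Q P' + t * orient P Q Q' = 0 := by
      unfold orient
      linear_combination (Q 0 - P 0) * e1 - (Q 1 - P 1) * e0
    by_contra hc
    push Not at hc
    rcases pos_and_pos_or_neg_and_neg_of_mul_pos hc with ⟨ha, hb⟩ | ⟨ha, hb⟩
    · rcases eq_or_lt_of_le ht0 with h0 | h0
      · rw [← h0] at key; linarith
      · nlinarith [mul_pos h0 hb, mul_nonneg (sub_nonneg.2 ht1) ha.le]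
    · rcases eq_or_lt_of_le ht0 with h0 | h0
      · rw [← h0] at key; linarith
      · nlinarith [mul_neg_of_pos_of_neg h0 hb, mul_nonneg (sub_nonneg.2 ht1) (neg_pos.2 ha).le]
  · intro h
    by_cases h0 : orient P Q P' = 0
    · exact ⟨P', mem_chord P Q P' hP hQ hPQ hP'.le h0, left_mem_segment ℝ P' Q'⟩
    · set a := orient P Q P' with ha
      set b := orient P Q Q' with hb
      have hab : a - b ≠ 0 := by
        intro hc
        have : a = b := by linarith
        rw [← this] at h
        exact h0 (by nlinarith [sq_nonneg a])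
      set t := a / (a - b) with ht
      have htab : t * (a - b) = a := by rw [ht]; field_simp
      have hsq : 0 < (a - b) ^ 2 := by positivity
      have ht0 : 0 ≤ t := by
        have : t * (a - b) ^ 2 = a * (a - b) := by rw [pow_two, ← mul_assoc, htab]
        by_contra hc
        push Not at hc
        have := mul_neg_of_neg_of_pos hc hsq
        nlinarith [sq_nonneg a]
      have ht1 : t ≤ 1 := by
        have h2 : (1 - t) * (a - b) ^ 2 = -b * (a - b) := by
          have : (1 - t) * (a - b) ^ 2 = (a - b) * ((a - b) - t * (a - b)) := by ring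
          rw [this, htab]; ring
        by_contra hc
        push Not at hc
        have := mul_neg_of_neg_of_pos (sub_neg.2 hc) hsq
        nlinarith [sq_nonneg b]
      refine ⟨(1 - t) • P' + t • Q', ?_, ?_⟩
      · apply mem_chord P Q _ hP hQ hPQ
        · calc ‖(1 - t) • P' + t • Q'‖ ≤ ‖(1 - t) • P'‖ + ‖t • Q'‖ := norm_add_le _ _
            _ = (1 - t) + t := by
              rw [norm_smul, norm_smul, hP', hQ', Real.norm_of_nonneg ht0,
                Real.norm_of_nonneg (sub_nonneg.2 ht1)]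
              ring
            _ ≤ 1 := by linarith
        · have : orient P Q ((1 - t) • P' + t • Q') = (1 - t) * a + t * b := by
            rw [ha, hb]
            unfold orient
            simp
            ring
          rw [this]
          linarith
      · rw [segment_eq_image]
        exact ⟨t, ⟨ht0, ht1⟩, rfl⟩

end SphereDim
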