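import Mathlib

/-!
MP_2be980_co, module W1 (CritCount): a system `z_i ^ E = r_i (z)` with `deg r_i < E` has at most
`E ^ N` real solutions.
-/

open MvPolynomial

namespace SphereDim

/-- Functions on `Z` given by polynomials are combinations of the reduced monomials. -/
theorem cc_eval_mem {ι : Type} [Fintype ι] [DecidableEq ι] (E : ℕ)
    (r : ι → MvPolynomial ι ℝ) (hr : ∀ i, (r i).totalDegree < E) (Z : Finset (ι → ℝ))
    (hZ : ∀ z ∈ Z, ∀ i, z i ^ E = eval z (r i)) (n : ℕ) : ∀ p : MvPolynomial ι ℝ,
    p.totalDegree ≤ n → (fun z : Z => eval (z : ι → ℝ) p) ∈ Submodule.span ℝ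
      (Set.range fun (a : ι → Fin E) (z : Z) => ∏ i, (z : ι → ℝ) i ^ (a i : ℕ)) := by
  classical
  induction n using Nat.strong_induction_on with
  | _ n ih =>
    intro p hp
    have h1 : (fun z : Z => eval (z : ι → ℝ) p) =
        ∑ a ∈ p.support, p.coeff a • (fun z : Z => ∏ i, (z : ι → ℝ) i ^ a i) := by
      funext z
      rw [Finset.sum_apply, eval_eq']
      rfl
    rw [h1]
    refine Submodule.sum_mem _ fun a ha => Submodule.smul_mem _ _ ?_
    by_cases hall : ∀ i, a i < E
    · exact Submodule.subset_span ⟨fun i => ⟨a i, hall i⟩, rfl⟩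
    · push Not at hall
      obtain ⟨i, hi⟩ := hall
      obtain ⟨b, hab⟩ : ∃ b : ι →₀ ℕ, a = b + Finsupp.single i E := by
        refine ⟨a - Finsupp.single i E, ?_⟩
        rw [tsub_add_cancel_of_le]
        rwa [Finsupp.single_le_iff]
      have hfun : (fun z : Z => ∏ j, (z : ι → ℝ) j ^ a j) =
          fun z : Z => eval (z : ι → ℝ) (monomial b 1 * r i) := by
        funext z
        rw [map_mul, eval_monomial, ← hZ z z.2 i, hab, one_mul]
        rw [Finsupp.prod_fintype _ _ (fun _ => pow_zero _)]
        have h2 : ∀ j, (z : ι → ℝ) j ^ ((b + Finsupp.single i E) j) =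
            (z : ι → ℝ) j ^ b j * (if j = i then (z : ι → ℝ) i ^ E else 1) := by
          intro j
          rw [Finsupp.add_apply, pow_add]
          by_cases hj : j = i
          · subst hj
            simp
          · rw [Finsupp.single_eq_of_ne hj, if_neg hj, pow_zero]
        rw [Finset.prod_congr rfl fun j _ => h2 j, Finset.prod_mul_distrib]
        simp
      rw [hfun]
      have h3 : (a.sum fun _ e => e) ≤ n := (le_totalDegree ha).trans hp
      have h4 : (a.sum fun _ e => e) = (b.sum fun _ e => e) + E := by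
        rw [hab, Finsupp.sum_add_index' (fun _ => rfl) (fun _ _ _ => rfl),
          Finsupp.sum_single_index rfl]
      have h5 : (monomial b (1 : ℝ)).totalDegree ≤ b.sum fun _ e => e := totalDegree_monomial_le _ _
      have h6 := totalDegree_mul (monomial b (1 : ℝ)) (r i)
      have h7 := hr i
      exact ih _ (by omega) _ le_rfl

/-- The system `z_i ^ E = r_i (z)` with `deg r_i < E` has at most `E ^ N` real solutions.
Proof: monomials with all exponents `< E` span all functions on `Z` (reduce `x_i^E` to `r_i`,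
the total degree drops), and there are `E ^ N` of them. -/
theorem card_le_of_pow_eq {ι : Type} [Fintype ι] [DecidableEq ι] (E : ℕ)
    (r : ι → MvPolynomial ι ℝ) (hr : ∀ i, (r i).totalDegree < E) (Z : Finset (ι → ℝ))
    (hZ : ∀ z ∈ Z, ∀ i, z i ^ E = eval z (r i)) : Z.card ≤ E ^ Fintype.card ι := by
  classical
  have htop : Submodule.span ℝ
      (Set.range fun (a : ι → Fin E) (z : Z) => ∏ i, (z : ι → ℝ) i ^ (a i : ℕ)) = ⊤ := by
    rw [eq_top_iff]
    rintro g -
    have hsingle : ∀ z : Z, (Pi.single z (1 : ℝ) : Z → ℝ) ∈ Submodule.span ℝ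
        (Set.range fun (a : ι → Fin E) (z : Z) => ∏ i, (z : ι → ℝ) i ^ (a i : ℕ)) := by
      intro z
      have hex : ∀ w : Z, ∃ q : MvPolynomial ι ℝ, w ≠ z →
          (eval (z : ι → ℝ) q = 1 ∧ eval (w : ι → ℝ) q = 0) := by
        intro w
        by_cases hw : w = z
        · exact ⟨0, fun h => absurd hw h⟩
        · obtain ⟨i, hi⟩ : ∃ i, (w : ι → ℝ) i ≠ (z : ι → ℝ) i := by
            by_contra hcon
            push Not at hcon
            exact hw (Subtype.ext (funext hcon))
          have h3 : (z : ι → ℝ) i - (w : ι → ℝ) i ≠ 0 := sub_ne_zero.2 (Ne.symm hi)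
          refine ⟨C (((z : ι → ℝ) i - (w : ι → ℝ) i)⁻¹) * (X i - C ((w : ι → ℝ) i)), fun _ => ⟨?_, ?_⟩⟩
          · simp [h3]
          · simp
      choose q hq using hex
      have h1 := cc_eval_mem E r hr Z hZ _ (∏ w ∈ Finset.univ.erase z, q w) le_rfl
      have h2 : (Pi.single z (1 : ℝ) : Z → ℝ) = fun u : Z => eval (u : ι → ℝ)
          (∏ w ∈ Finset.univ.erase z, q w) := by
        funext u
        rw [map_prod]
        by_cases hu : u = z
        · subst hu
          rw [Pi.single_eq_same]
          symm
          apply Finset.prod_eq_one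
          intro w hw
          exact (hq w (Finset.ne_of_mem_erase hw)).1
        · rw [Pi.single_eq_of_ne hu]
          symm
          exact Finset.prod_eq_zero (Finset.mem_erase.2 ⟨hu, Finset.mem_univ u⟩) (hq u hu).2
      rw [h2]
      exact h1
    have h4 : g = ∑ z : Z, g z • (Pi.single z (1 : ℝ) : Z → ℝ) := by
      funext u
      rw [Finset.sum_apply]
      simp [Pi.single_apply]
    rw [h4]
    exact Submodule.sum_mem _ fun z _ => Submodule.smul_mem _ _ (hsingle z)
  have h5 := finrank_range_le_card (R := ℝ)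
    (b := fun (a : ι → Fin E) (z : Z) => ∏ i, (z : ι → ℝ) i ^ (a i : ℕ))
  rw [Set.finrank, htop, finrank_top] at h5
  rw [Module.finrank_fintype_fun_eq_card, Fintype.card_coe] at h5
  simpa using h5

end SphereDim
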