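import Mathlib
import Pool.Agent.Lib.MP_2be980_co.Defs

/-!
W2: small generic shifts of finitely many polynomials.
-/

open MvPolynomial

namespace SphereDim

theorem contDiff_eval_mvPolynomial {ι : Type} [Fintype ι] (p : MvPolynomial ι ℝ) :
    ContDiff ℝ 1 (fun x : ι → ℝ => eval x p) := by
  induction p using MvPolynomial.induction_on with
  | C a => simpa using contDiff_const
  | add p q hp hq => simpa using hp.add hq
  | mul_X p i hp => simpa using hp.mul (contDiff_apply ℝ ℝ i)

/-- Small generic shifts: no more than `card ι` of the hypersurfaces `f_k = ε_k` meet. -/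
theorem exists_generic_shift {ι κ : Type} [Fintype ι] [DecidableEq ι] [Fintype κ] [DecidableEq κ]
    (f : κ → MvPolynomial ι ℝ) (η : ℝ) (hη : 0 < η) :
    ∃ ε : κ → ℝ, (∀ k, |ε k| < η) ∧
      ∀ S : Finset κ, Fintype.card ι < S.card → ¬ ∃ x : ι → ℝ, ∀ k ∈ S, eval x (f k) = ε k := by
  classical
  rcases isEmpty_or_nonempty κ with hκ | hκ
  · refine ⟨fun _ => 0, fun k => (hκ.false k).elim, fun S hS => ?_⟩
    rw [Finset.eq_empty_of_isEmpty S] at hS
    simp at hS
  · let bad : Finset κ → Set (κ → ℝ) := fun S =>
      if Fintype.card ι < S.card then {ε | ∃ x : ι → ℝ, ∀ k ∈ S, eval x (f k) = ε k} else ∅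
    have hdim : ∀ S, dimH (bad S) ≤ ((Fintype.card κ - 1 : ℕ) : ENNReal) := by
      intro S
      by_cases hS : Fintype.card ι < S.card
      · let Φ : (ι → ℝ) × ({k // k ∉ S} → ℝ) → (κ → ℝ) := fun z k =>
          if h : k ∈ S then eval z.1 (f k) else z.2 ⟨k, h⟩
        have hΦ : ContDiff ℝ 1 Φ := by
          rw [contDiff_pi]
          intro k
          by_cases h : k ∈ S
          · simp only [Φ, h, dif_pos]
            exact (contDiff_eval_mvPolynomial (f k)).comp contDiff_fst
          · simp only [Φ, h, dif_neg, not_false_eq_true]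
            exact (contDiff_apply ℝ ℝ (⟨k, h⟩ : {k // k ∉ S})).comp contDiff_snd
        have hsub : bad S ⊆ Set.range Φ := by
          intro ε hε
          simp only [bad, hS, if_true] at hε
          obtain ⟨x, hx⟩ := hε
          refine ⟨(x, fun k => ε k), ?_⟩
          funext k
          by_cases h : k ∈ S
          · simp only [Φ, h, dif_pos]
            exact hx k h
          · simp only [Φ, h, dif_neg, not_false_eq_true]
        refine (dimH_mono hsub).trans (hΦ.dimH_range_le.trans ?_)
        rw [Module.finrank_prod, Module.finrank_fintype_fun_eq_card,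
          Module.finrank_fintype_fun_eq_card]
        have hc : Fintype.card {k // k ∉ S} = Fintype.card κ - S.card := by
          rw [Fintype.card_subtype_compl (fun k => k ∈ S), Fintype.card_coe]
        have hSκ : S.card ≤ Fintype.card κ := Finset.card_le_univ S
        rw [hc]
        exact_mod_cast (by omega : Fintype.card ι + (Fintype.card κ - S.card) ≤
          Fintype.card κ - 1)
      · have : bad S = ∅ := by simp only [bad, hS, if_false]
        rw [this, dimH_empty]
        exact zero_le
    have hU : dimH (⋃ S, bad S) < (Module.finrank ℝ (κ → ℝ) : ENNReal) := by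
      rw [dimH_iUnion, Module.finrank_fintype_fun_eq_card]
      refine lt_of_le_of_lt (iSup_le hdim) ?_
      have : 0 < Fintype.card κ := Fintype.card_pos
      exact_mod_cast (by omega : Fintype.card κ - 1 < Fintype.card κ)
    have hdense := dense_compl_of_dimH_lt_finrank hU
    have hopen : IsOpen (Set.pi Set.univ fun _ : κ => Set.Ioo (-η) η) :=
      isOpen_set_pi Set.finite_univ fun _ _ => isOpen_Ioo
    obtain ⟨ε, hε1, hε2⟩ := hdense.inter_open_nonempty _ hopen
      ⟨fun _ => 0, fun _ _ => ⟨by linarith, hη⟩⟩
    refine ⟨ε, fun k => abs_lt.2 (hε1 k (Set.mem_univ k)), fun S hS hx => hε2 ?_⟩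
    rw [Set.mem_iUnion]
    refine ⟨S, ?_⟩
    simp only [bad, hS, if_true]
    exact hx

end SphereDim
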