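import Mathlib
import Pool.Agent.Lib.MP_2be980_co.Defs

/-!
# MP_2be980_co, module W3: generic linear terms make minimisers unique
-/

open MvPolynomial Metric Finset
open scoped BigOperators RealInnerProductSpace

namespace SphereDim

/-- A generic small linear term makes the minimisers over finitely many compact sets unique.
Proof: `h_i c = inf over K_i of (g x - c·x)` is Lipschitz, hence differentiable almost everywhere
(Rademacher, `LipschitzWith.ae_differentiableAt`), and at a point of differentiability every
minimiser is minus the derivative. -/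
theorem exists_unique_min {ι α : Type} [Fintype ι] [DecidableEq ι] [Finite α]
    (K : α → Set (ι → ℝ)) (hK : ∀ a, IsCompact (K a)) (hne : ∀ a, (K a).Nonempty)
    (g : (ι → ℝ) → ℝ) (hg : Continuous g) :
    ∃ c : ι → ℝ, (∀ j, |c j| ≤ 1) ∧ ∀ a, ∃ z ∈ K a, ∀ x ∈ K a, x ≠ z →
      g z - ∑ j, c j * z j < g x - ∑ j, c j * x j := by
  classical
  have hex : ∀ a (c : ι → ℝ), ∃ z ∈ K a, ∀ x ∈ K a,
      g z - ∑ j, c j * z j ≤ g x - ∑ j, c j * x j := by
    intro a c
    have hcont : ContinuousOn (fun x : ι → ℝ => g x - ∑ j, c j * x j) (K a) := by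
      apply Continuous.continuousOn
      fun_prop
    obtain ⟨z, hz, hz'⟩ := (hK a).exists_isMinOn (hne a) hcont
    exact ⟨z, hz, fun x hx => hz' hx⟩
  choose z hzK hzmin using hex
  set H : α → (ι → ℝ) → ℝ := fun a c => g (z a c) - ∑ j, c j * z a c j with hH
  have hbd : ∀ a, ∃ R : ℝ, 0 ≤ R ∧ ∀ x ∈ K a, ∀ j, |x j| ≤ R := by
    intro a
    obtain ⟨R, hR⟩ := (hK a).isBounded.exists_norm_le
    refine ⟨max R 0, le_max_right _ _, fun x hx j => ?_⟩
    exact ((norm_le_pi_norm x j).trans (hR x hx)).trans (le_max_left _ _)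
  choose R hR0 hR using hbd
  have hlip1 : ∀ a c c', H a c - H a c' ≤ (Fintype.card ι * R a) * ‖c - c'‖ := by
    intro a c c'
    have h1 : H a c ≤ g (z a c') - ∑ j, c j * z a c' j := hzmin a c _ (hzK a c')
    have h2 : H a c - H a c' ≤ ∑ j, (c' j - c j) * z a c' j := by
      have : (∑ j, (c' j - c j) * z a c' j) = ∑ j, c' j * z a c' j - ∑ j, c j * z a c' j := by
        rw [← Finset.sum_sub_distrib]
        exact Finset.sum_congr rfl fun j _ => by ring
      rw [this]
      simp only [hH] at h1 ⊢
      linarith
    refine h2.trans ?_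
    calc ∑ j, (c' j - c j) * z a c' j ≤ ∑ _j : ι, ‖c - c'‖ * R a := by
          apply Finset.sum_le_sum
          intro j _
          calc (c' j - c j) * z a c' j ≤ |(c' j - c j) * z a c' j| := le_abs_self _
            _ = |c' j - c j| * |z a c' j| := abs_mul _ _
            _ ≤ ‖c - c'‖ * R a := by
                apply mul_le_mul _ (hR a _ (hzK a c') j) (abs_nonneg _) (norm_nonneg _)
                have := norm_le_pi_norm (c - c') j
                rw [Pi.sub_apply, Real.norm_eq_abs, abs_sub_comm] at this
                exact this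
      _ = (Fintype.card ι * R a) * ‖c - c'‖ := by
          rw [Finset.sum_const, Finset.card_univ, nsmul_eq_mul]; ring
  have hlip : ∀ a, LipschitzWith (Real.toNNReal (Fintype.card ι * R a)) (H a) := by
    intro a
    apply LipschitzWith.of_dist_le_mul
    intro c c'
    rw [Real.dist_eq, dist_eq_norm, Real.coe_toNNReal _ (mul_nonneg (Nat.cast_nonneg _) (hR0 a))]
    rw [abs_le]
    constructor
    · have := hlip1 a c' c
      rw [norm_sub_rev] at this
      linarith
    · exact hlip1 a c c'
  have hae : ∀ᵐ c : ι → ℝ, ∀ a, DifferentiableAt ℝ (H a) c := by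
    rw [MeasureTheory.ae_all_iff]
    intro a
    exact (hlip a).ae_differentiableAt
  have hdense := MeasureTheory.Measure.dense_of_ae hae
  obtain ⟨c, hc1, hc2⟩ := hdense.exists_mem_open (isOpen_ball (x := (0 : ι → ℝ)) (ε := 1))
    ⟨0, mem_ball_self one_pos⟩
  refine ⟨c, ?_, ?_⟩
  · intro j
    have h1 := norm_le_pi_norm c j
    have h2 : ‖c‖ < 1 := by simpa using hc2
    rw [Real.norm_eq_abs] at h1
    linarith
  · intro a
    refine ⟨z a c, hzK a c, fun x hx hxz => ?_⟩
    refine lt_of_le_of_ne (hzmin a c x hx) ?_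
    intro heq
    apply hxz
    -- both `x` and `z a c` are minimisers
    have key : ∀ w ∈ K a, g w - ∑ j, c j * w j = H a c →
        ∀ j, w j = -(fderiv ℝ (H a) c (Pi.single j 1)) := by
      intro w hw hwe j
      set L : (ι → ℝ) →L[ℝ] ℝ := ∑ i, (w i) • (ContinuousLinearMap.proj (R := ℝ) (φ := fun _ : ι => ℝ) i) with hL
      have hLapp : ∀ v : ι → ℝ, L v = ∑ i, v i * w i := by
        intro v
        simp [hL, mul_comm]
      have hmin : IsLocalMin (fun c' : ι → ℝ => (g w - L c') - H a c') c := by
        apply Filter.Eventually.of_forall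
        intro c'
        have h1 : H a c' ≤ g w - ∑ j, c' j * w j := hzmin a c' w hw
        have h2 : g w - L c = H a c := by rw [hLapp]; exact hwe
        have h3 : g w - L c' = g w - ∑ j, c' j * w j := by rw [hLapp]
        show (g w - L c) - H a c ≤ (g w - L c') - H a c'
        rw [h2, h3]
        linarith
      have hder : HasFDerivAt (fun c' : ι → ℝ => (g w - L c') - H a c')
          (-L - fderiv ℝ (H a) c) c := by
        have h1 : HasFDerivAt (fun c' : ι → ℝ => g w - L c') (-L) c := by
          have h2 := (L.hasFDerivAt (x := c)).const_sub (g w)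
          exact h2
        exact h1.sub (hc1 a).hasFDerivAt
      have h0 := hmin.hasFDerivAt_eq_zero hder
      have h1 := congrArg (fun φ : (ι → ℝ) →L[ℝ] ℝ => φ (Pi.single j 1)) h0
      simp only [sub_apply, neg_apply, zero_apply] at h1
      have h2 : L (Pi.single j 1) = w j := by
        rw [hLapp]
        simp [Pi.single_apply]
      rw [h2] at h1
      linarith
    funext j
    rw [key x hx heq.symm j, key (z a c) (hzK a c) rfl j]

end SphereDim
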