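import Mathlib
import Pool.Agent.Lib.MP_2be980_co.Defs
import Pool.Agent.Lib.MP_2be980_co.CritCount
import Pool.Agent.Lib.MP_2be980_co.GenericEps
import Pool.Agent.Lib.MP_2be980_co.UniqueMin

open MvPolynomial Metric Finset
open scoped BigOperators

namespace SphereDim

/-- Partial derivatives of polynomial functions. -/
theorem hasDerivAt_eval_update {ι : Type} [Fintype ι] [DecidableEq ι] (p : MvPolynomial ι ℝ)
    (w : ι → ℝ) (i : ι) :
    HasDerivAt (fun t => eval (Function.update w i t) p) (eval w (pderiv i p)) (w i) := by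
  induction p using MvPolynomial.induction_on with
  | C a => simpa using hasDerivAt_const (w i) a
  | add p q hp hq =>
    have := hp.add hq
    simp only [map_add]
    exact this
  | mul_X p n hp =>
    have hX : HasDerivAt (fun t => eval (Function.update w i t) (X n : MvPolynomial ι ℝ))
        (eval w (pderiv i (X n))) (w i) := by
      by_cases h : n = i
      · subst h
        simp only [eval_X, Function.update_self, pderiv_X_self, map_one]
        exact hasDerivAt_id (w n)
      · have h2 : (pderiv i (X n : MvPolynomial ι ℝ)) = 0 := pderiv_X_of_ne h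
        rw [h2]
        simpa [Function.update_of_ne h] using hasDerivAt_const (w i) (w n)
    have := hp.mul hX
    simp only [Function.update_eq_self] at this
    simp only [map_mul, Derivation.leibniz, smul_eq_mul, map_add]
    have h3 : eval w p * eval w (pderiv i (X n)) + eval w (X n) * eval w (pderiv i p) =
        eval w (pderiv i p) * eval w (X n) + eval w p * eval w (pderiv i (X n)) := by ring
    rw [h3]
    exact this

theorem totalDegree_pderiv_le' {ι : Type} [Fintype ι] [DecidableEq ι] (p : MvPolynomial ι ℝ)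
    (i : ι) : (pderiv i p).totalDegree ≤ p.totalDegree := by
  have h1 : pderiv i p = ∑ s ∈ p.support, pderiv i (monomial s (coeff s p)) := by
    conv_lhs => rw [p.as_sum]
    rw [map_sum]
  rw [h1]
  refine totalDegree_finsetSum_le fun s hs => ?_
  rw [pderiv_monomial]
  refine (totalDegree_monomial_le _ _).trans ?_
  refine le_trans ?_ (le_totalDegree hs)
  have h2 : s - Finsupp.single i 1 ≤ s := tsub_le_self
  exact Finsupp.degree_mono h2

/-- Penalty: on a compact set on which `φ > 0` wherever `P = 0`, `φ + K P > 0` for large `K`. -/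
theorem exists_penalty {E : Type} [TopologicalSpace E] (C : Set E) (hC : IsCompact C)
    (φ P : E → ℝ) (hφ : Continuous φ) (hP : Continuous P) (hP0 : ∀ x, 0 ≤ P x)
    (h : ∀ x ∈ C, P x = 0 → 0 < φ x) :
    ∃ K0 : ℝ, ∀ K, K0 ≤ K → 0 ≤ K → ∀ x ∈ C, 0 < φ x + K * P x := by
  have hC2 : IsCompact (C ∩ {x | φ x ≤ 0}) := hC.inter_right (isClosed_le hφ continuous_const)
  rcases Set.eq_empty_or_nonempty (C ∩ {x | φ x ≤ 0}) with he | hne
  · refine ⟨0, fun K _ hK x hx => ?_⟩
    have : 0 < φ x := by
      by_contra hcon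
      have : x ∈ C ∩ {x | φ x ≤ 0} := ⟨hx, not_lt.1 hcon⟩
      rw [he] at this
      exact this
    have := mul_nonneg hK (hP0 x)
    linarith
  · obtain ⟨x0, hx0, hmin⟩ := hC2.exists_isMinOn hne hP.continuousOn
    obtain ⟨x1, hx1, hmin1⟩ := hC2.exists_isMinOn hne hφ.continuousOn
    have hpos : 0 < P x0 := by
      rcases (hP0 x0).lt_or_eq with h1 | h1
      · exact h1
      · have := h x0 hx0.1 h1.symm
        exact absurd hx0.2 (not_le.2 this)
    refine ⟨(1 - φ x1) / P x0, fun K hK hK0 x hx => ?_⟩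
    by_cases hcase : φ x ≤ 0
    · have hxC : x ∈ C ∩ {x | φ x ≤ 0} := ⟨hx, hcase⟩
      have h1 : P x0 ≤ P x := hmin hxC
      have h2 : φ x1 ≤ φ x := hmin1 hxC
      have h3 : 1 - φ x1 ≤ K * P x0 := by
        rwa [div_le_iff₀ hpos] at hK
      have h4 : K * P x0 ≤ K * P x := mul_le_mul_of_nonneg_left h1 hK0
      linarith
    · have := mul_nonneg hK0 (hP0 x)
      have hcase := not_le.1 hcase
      linarith

/-- Coercivity of the even power sum against a small linear term. -/
theorem coercive_bound {ι : Type} [Fintype ι] [DecidableEq ι] (D : ℕ) (x c : ι → ℝ)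
    (hc : ∀ j, |c j| ≤ 1) (hx : 1 ≤ ‖x‖) :
    ‖x‖ ^ 2 - Fintype.card ι * ‖x‖ ≤ ∑ i, x i ^ (2 * D + 2) - ∑ j, c j * x j := by
  have h1 : ∑ j, c j * x j ≤ Fintype.card ι * ‖x‖ := by
    calc ∑ j, c j * x j ≤ ∑ _j : ι, ‖x‖ := by
          refine Finset.sum_le_sum fun j _ => ?_
          have h2 : |c j * x j| ≤ 1 * ‖x‖ := by
            rw [abs_mul]
            exact mul_le_mul (hc j) (norm_le_pi_norm x j) (abs_nonneg _) zero_le_one
          have := le_abs_self (c j * x j)
          linarith
      _ = Fintype.card ι * ‖x‖ := by simp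
  have h2 : ‖x‖ ^ 2 ≤ ∑ i, x i ^ (2 * D + 2) := by
    have hne : Nonempty ι := by
      by_contra hcon
      rw [not_nonempty_iff] at hcon
      have : x = 0 := Subsingleton.elim _ _
      rw [this] at hx
      norm_num at hx
    obtain ⟨i, hi⟩ : ∃ i, ‖x‖ = |x i| := by
      obtain ⟨i, _, hi⟩ := Finset.exists_max_image (Finset.univ : Finset ι) (fun i => |x i|)
        Finset.univ_nonempty
      refine ⟨i, le_antisymm ?_ (norm_le_pi_norm x i)⟩
      rw [pi_norm_le_iff_of_nonneg (abs_nonneg _)]
      intro j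
      exact hi j (Finset.mem_univ _)
    have h3 : x i ^ (2 * D + 2) = ‖x‖ ^ (2 * D + 2) := by
      rw [hi, Even.pow_abs (⟨D + 1, by ring⟩ : Even (2 * D + 2))]
    have h4 : ‖x‖ ^ 2 ≤ ‖x‖ ^ (2 * D + 2) := pow_le_pow_right₀ hx (by omega)
    have h5 : x i ^ (2 * D + 2) ≤ ∑ i, x i ^ (2 * D + 2) :=
      Finset.single_le_sum (f := fun i => x i ^ (2 * D + 2))
        (fun j _ => Even.pow_nonneg ⟨D + 1, by ring⟩ _) (Finset.mem_univ i)
    linarith [h3 ▸ h5]
  linarith

/-- Stationarity at an interior minimum of the penalised function. -/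
theorem stationary {ι κ : Type} [Fintype ι] [DecidableEq ι] (D : ℕ)
    (f : κ → MvPolynomial ι ℝ) (ε : κ → ℝ) (c : ι → ℝ) (K : ℝ) (S : Finset κ) (w : ι → ℝ)
    (hmin : IsLocalMin (fun x : ι → ℝ => ∑ i, x i ^ (2 * D + 2) - ∑ j, c j * x j +
      K * ∑ k ∈ S, (eval x (f k) - ε k) ^ 2) w) (i : ι) :
    w i ^ (2 * D + 1) = eval w (C (1 / (2 * (D : ℝ) + 2)) * (C (c i) - C (2 * K) *
      ∑ k ∈ S, (f k - C (ε k)) * pderiv i (f k))) := by
  have h1 : ∀ j, HasDerivAt (fun t : ℝ => Function.update w i t j) (if j = i then 1 else 0)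
      (w i) := by
    intro j
    by_cases h : j = i
    · subst h
      simp only [Function.update_self, if_true]
      exact hasDerivAt_id (w j)
    · simp only [Function.update_of_ne h, if_neg h]
      exact hasDerivAt_const (w i) (w j)
  have h2 : HasDerivAt (fun t : ℝ => ∑ j, (Function.update w i t j) ^ (2 * D + 2))
      ((2 * (D : ℝ) + 2) * w i ^ (2 * D + 1)) (w i) := by
    have h3 := HasDerivAt.fun_sum (u := Finset.univ)
      (fun j (_ : j ∈ Finset.univ) => (h1 j).fun_pow (2 * D + 2))
    refine h3.congr_deriv ?_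
    rw [Finset.sum_eq_single i]
    · simp
    · intro b _ hb
      simp [hb]
    · simp
  have h3 : HasDerivAt (fun t : ℝ => ∑ j, c j * Function.update w i t j) (c i) (w i) := by
    have h3 := HasDerivAt.fun_sum (u := Finset.univ)
      (fun j (_ : j ∈ Finset.univ) => (h1 j).const_mul (c j))
    refine h3.congr_deriv ?_
    simp
  have h4 : HasDerivAt (fun t : ℝ => K * ∑ k ∈ S, (eval (Function.update w i t) (f k) - ε k) ^ 2)
      (K * ∑ k ∈ S, 2 * (eval w (f k) - ε k) * eval w (pderiv i (f k))) (w i) := by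
    refine HasDerivAt.const_mul K ?_
    refine HasDerivAt.fun_sum fun k _ => ?_
    have h5 := ((hasDerivAt_eval_update (f k) w i).sub_const (ε k)).fun_pow 2
    refine h5.congr_deriv ?_
    simp
  have h5 := (h2.fun_sub h3).fun_add h4
  have h6 : IsLocalMin (fun t : ℝ => ∑ j, (Function.update w i t j) ^ (2 * D + 2) -
      ∑ j, c j * Function.update w i t j +
      K * ∑ k ∈ S, (eval (Function.update w i t) (f k) - ε k) ^ 2) (w i) := by
    have hcont : Continuous (fun t : ℝ => Function.update w i t) := continuous_const.update i continuous_id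
    have h7 := hcont.tendsto (w i)
    rw [Function.update_eq_self] at h7
    have h8 := h7.eventually hmin
    filter_upwards [h8] with t ht
    simpa using ht
  have h7 := h6.hasDerivAt_eq_zero h5
  have hD : (2 * (D : ℝ) + 2) ≠ 0 := by positivity
  simp only [map_mul, map_sub, map_sum, eval_C]
  have h8 : ∑ k ∈ S, 2 * (eval w (f k) - ε k) * eval w (pderiv i (f k)) =
      2 * ∑ k ∈ S, (eval w (f k) - ε k) * eval w (pderiv i (f k)) := by
    rw [Finset.mul_sum]
    refine Finset.sum_congr rfl fun k _ => by ring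
  rw [h8] at h7
  field_simp
  linarith

/-- The degree of the right-hand side of the stationarity equation. -/
theorem stationary_degree {ι κ : Type} [Fintype ι] [DecidableEq ι] (D : ℕ)
    (f : κ → MvPolynomial ι ℝ) (hf : ∀ k, (f k).totalDegree ≤ D) (ε : κ → ℝ) (a c K : ℝ)
    (S : Finset κ) (i : ι) :
    (C a * (C c - C (2 * K) * ∑ k ∈ S, (f k - C (ε k)) * pderiv i (f k)) :
      MvPolynomial ι ℝ).totalDegree < 2 * D + 1 := by
  have h1 : (∑ k ∈ S, (f k - C (ε k)) * pderiv i (f k)).totalDegree ≤ 2 * D := by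
    refine totalDegree_finsetSum_le fun k _ => ?_
    refine (totalDegree_mul _ _).trans ?_
    have h2 : (f k - C (ε k)).totalDegree ≤ D := by
      refine (totalDegree_sub _ _).trans ?_
      rw [totalDegree_C]
      exact max_le (hf k) (Nat.zero_le _)
    have h3 := (totalDegree_pderiv_le' (f k) i).trans (hf k)
    omega
  have h2 : (C (2 * K) * ∑ k ∈ S, (f k - C (ε k)) * pderiv i (f k)).totalDegree ≤ 2 * D := by
    refine (totalDegree_mul _ _).trans ?_
    rw [totalDegree_C]
    omega
  have h3 : (C c - C (2 * K) * ∑ k ∈ S, (f k - C (ε k)) * pderiv i (f k) :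
      MvPolynomial ι ℝ).totalDegree ≤ 2 * D := by
    refine (totalDegree_sub _ _).trans ?_
    rw [totalDegree_C]
    exact max_le (Nat.zero_le _) h2
  have h4 := totalDegree_mul (C a : MvPolynomial ι ℝ)
    (C c - C (2 * K) * ∑ k ∈ S, (f k - C (ε k)) * pderiv i (f k))
  rw [totalDegree_C] at h4
  omega

/-- Number of strict sign patterns of polynomials. -/
theorem warren {ι κ : Type} [Fintype ι] [DecidableEq ι] [Fintype κ] [DecidableEq κ]
    (D : ℕ) (f : κ → MvPolynomial ι ℝ) (hf : ∀ k, (f k).totalDegree ≤ D)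
    (X : Finset (Finset κ))
    (hX : ∀ σ ∈ X, ∃ x : ι → ℝ, ∀ k, (k ∈ σ → 0 < eval x (f k)) ∧ (k ∉ σ → eval x (f k) < 0)) :
    X.card ≤ (2 * D + 1) ^ Fintype.card ι *
      ∑ s ∈ Finset.range (Fintype.card ι + 1), (Fintype.card κ).choose s * 2 ^ s := by
  classical
  have hcont : ∀ k, Continuous (fun x : ι → ℝ => eval x (f k)) := fun k =>
    MvPolynomial.continuous_eval (f k)
  choose! x hx using hX
  -- signs
  set s : Finset κ → κ → ℝ := fun σ k => if k ∈ σ then 1 else -1 with hs
  have hs1 : ∀ σ k, |s σ k| = 1 := by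
    intro σ k
    simp only [hs]
    split_ifs <;> simp
  have hx1 : ∀ σ ∈ X, ∀ k, 0 < s σ k * eval (x σ) (f k) := by
    intro σ hσ k
    simp only [hs]
    split_ifs with h
    · simpa using (hx σ hσ k).1 h
    · have := (hx σ hσ k).2 h
      linarith
  -- a uniform margin
  obtain ⟨η, hη, hηx⟩ : ∃ η : ℝ, 0 < η ∧ ∀ σ ∈ X, ∀ k, η ≤ s σ k * eval (x σ) (f k) := by
    rcases (X ×ˢ (Finset.univ : Finset κ)).eq_empty_or_nonempty with h | h
    · refine ⟨1, one_pos, fun σ hσ k => ?_⟩
      have : (σ, k) ∈ X ×ˢ (Finset.univ : Finset κ) := by simp [hσ]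
      rw [h] at this
      simp at this
    · obtain ⟨p, hp, hmin⟩ := Finset.exists_min_image _
        (fun p : Finset κ × κ => s p.1 p.2 * eval (x p.1) (f p.2)) h
      refine ⟨s p.1 p.2 * eval (x p.1) (f p.2), hx1 p.1 (by simpa using (Finset.mem_product.1 hp).1)
        p.2, fun σ hσ k => hmin (σ, k) (by simp [hσ])⟩
  obtain ⟨ε, hε, hgen⟩ := exists_generic_shift f η hη
  have hx2 : ∀ σ ∈ X, ∀ k, 0 < s σ k * (eval (x σ) (f k) - ε k) := by
    intro σ hσ k
    have h1 := hηx σ hσ k
    have h2 : |s σ k * ε k| < η := by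
      rw [abs_mul, hs1, one_mul]
      exact hε k
    have h3 := le_abs_self (s σ k * ε k)
    rw [mul_sub]
    linarith
  -- the objective
  set G : (ι → ℝ) → ℝ := fun y => ∑ i, y i ^ (2 * D + 2) with hG
  have hGc : Continuous G := by
    simp only [hG]
    fun_prop
  -- the radius
  set B : Finset κ → ℝ := fun σ => |G (x σ)| + Fintype.card ι * ‖x σ‖ with hB
  set R : ℝ := Fintype.card ι + 1 + ∑ σ ∈ X, (B σ + ‖x σ‖) with hR
  have hB0 : ∀ σ, 0 ≤ B σ := fun σ => by simp only [hB]; positivity
  have hRσ : ∀ σ ∈ X, Fintype.card ι + 1 + (B σ + ‖x σ‖) ≤ R := by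
    intro σ hσ
    have := Finset.single_le_sum (f := fun σ => B σ + ‖x σ‖)
      (fun τ _ => add_nonneg (hB0 τ) (norm_nonneg _)) hσ
    simp only [hR]
    linarith
  set K : X → Set (ι → ℝ) := fun σ =>
    (⋂ k, {y | 0 ≤ s σ k * (eval y (f k) - ε k)}) ∩ closedBall 0 R with hK
  have hKc : ∀ σ, IsCompact (K σ) := by
    intro σ
    refine (isCompact_closedBall 0 R).inter_left ?_
    refine isClosed_iInter fun k => ?_
    exact isClosed_le continuous_const (continuous_const.mul ((hcont k).sub continuous_const))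
  have hxK : ∀ σ : X, x σ ∈ K σ := by
    intro σ
    refine ⟨Set.mem_iInter.2 fun k => (hx2 σ σ.2 k).le, ?_⟩
    rw [mem_closedBall_zero_iff]
    have := hRσ σ σ.2
    have h2 := hB0 (σ : Finset κ)
    have h3 : (0 : ℝ) ≤ Fintype.card ι := Nat.cast_nonneg _
    linarith
  obtain ⟨c, hc1, hc⟩ := exists_unique_min K hKc (fun σ => ⟨x σ, hxK σ⟩) G hGc
  choose z hzK hz using hc
  -- the minimiser is in the open ball
  have hzR : ∀ σ : X, ‖z σ‖ < R := by
    intro σ
    by_contra hcon
    have hcon := not_lt.1 hcon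
    have hR1 := hRσ σ σ.2
    have h2 := hB0 (σ : Finset κ)
    have h3 : (0 : ℝ) ≤ Fintype.card ι := Nat.cast_nonneg _
    have hz1 : 1 ≤ ‖z σ‖ := by
      have := norm_nonneg (x σ)
      linarith
    have h4 := coercive_bound D (z σ) c hc1 hz1
    have h5 : G (z σ) - ∑ j, c j * z σ j ≤ G (x σ) - ∑ j, c j * x σ j := by
      by_cases h : x σ = z σ
      · rw [h]
      · exact (hz σ (x σ) (hxK σ) h).le
    have h6 : -(∑ j, c j * x σ j) ≤ Fintype.card ι * ‖x σ‖ := by
      calc -(∑ j, c j * x σ j) = ∑ j, -(c j * x σ j) := by rw [Finset.sum_neg_distrib]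
        _ ≤ ∑ _j : ι, ‖x σ‖ := by
          refine Finset.sum_le_sum fun j _ => ?_
          have h7 : |c j * x σ j| ≤ 1 * ‖x σ‖ := by
            rw [abs_mul]
            exact mul_le_mul (hc1 j) (norm_le_pi_norm (x σ) j) (abs_nonneg _) zero_le_one
          have := neg_le_abs (c j * x σ j)
          linarith
        _ = Fintype.card ι * ‖x σ‖ := by simp
    have h7 := le_abs_self (G (x σ))
    have h8 : G (z σ) - ∑ j, c j * z σ j ≤ B σ := by
      simp only [hB]
      linarith
    have h9 : ‖z σ‖ ^ 2 - Fintype.card ι * ‖z σ‖ ≤ B σ := by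
      refine h4.trans ?_
      exact h8
    have h10 : B (σ : Finset κ) + 1 ≤ ‖z σ‖ - Fintype.card ι := by
      have := norm_nonneg (x σ)
      linarith
    have h11 : (B (σ : Finset κ) + 1) * 1 ≤ (‖z σ‖ - Fintype.card ι) * ‖z σ‖ :=
      mul_le_mul h10 hz1 zero_le_one (by linarith)
    nlinarith
  -- active sets
  set S : X → Finset κ := fun σ => Finset.univ.filter fun k => eval (z σ) (f k) = ε k with hS
  have hScard : ∀ σ, (S σ).card ≤ Fintype.card ι := by
    intro σ
    by_contra hcon
    exact hgen (S σ) (not_le.1 hcon) ⟨z σ, fun k hk => (Finset.mem_filter.1 hk).2⟩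
  have hzs : ∀ σ : X, ∀ k, k ∉ S σ → 0 < s σ k * (eval (z σ) (f k) - ε k) := by
    intro σ k hk
    have h1 := Set.mem_iInter.1 (hzK σ).1 k
    rcases lt_or_eq_of_le (show 0 ≤ s σ k * (eval (z σ) (f k) - ε k) from h1) with h2 | h2
    · exact h2
    · exfalso
      have h3 : s σ k ≠ 0 := by
        intro h
        have := hs1 σ k
        rw [h] at this
        simp at this
      rcases mul_eq_zero.1 h2.symm with h4 | h4
      · exact h3 h4
      · exact hk (Finset.mem_filter.2 ⟨Finset.mem_univ _, sub_eq_zero.1 h4⟩)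
  -- small balls
  have hball : ∀ σ : X, ∃ ρ > 0, ∀ y ∈ closedBall (z σ) ρ, ‖y‖ < R ∧
      ∀ k, k ∉ S σ → 0 < s σ k * (eval y (f k) - ε k) := by
    intro σ
    have hopen : IsOpen ({y : ι → ℝ | ‖y‖ < R} ∩
        ⋂ k ∈ (Finset.univ.filter fun k => k ∉ S σ),
          {y | 0 < s σ k * (eval y (f k) - ε k)}) := by
      refine (isOpen_lt continuous_norm continuous_const).inter ?_
      refine isOpen_biInter_finset fun k _ => ?_
      exact isOpen_lt continuous_const (continuous_const.mul ((hcont k).sub continuous_const))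
    have hmem : z σ ∈ ({y : ι → ℝ | ‖y‖ < R} ∩
        ⋂ k ∈ (Finset.univ.filter fun k => k ∉ S σ),
          {y | 0 < s σ k * (eval y (f k) - ε k)}) := by
      refine ⟨hzR σ, Set.mem_iInter₂.2 fun k hk => hzs σ k (Finset.mem_filter.1 hk).2⟩
    obtain ⟨ρ, hρ, hsub⟩ := (nhds_basis_closedBall.mem_iff).1 (hopen.mem_nhds hmem)
    refine ⟨ρ, hρ, fun y hy => ⟨(hsub hy).1, fun k hk => ?_⟩⟩
    exact Set.mem_iInter₂.1 (hsub hy).2 k (Finset.mem_filter.2 ⟨Finset.mem_univ _, hk⟩)
  choose ρ hρ hρball using hball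
  -- the penalty
  have hP : ∀ σ : X, ∃ K0 : ℝ, ∀ M, K0 ≤ M → 0 ≤ M → ∀ y ∈ sphere (z σ) (ρ σ),
      0 < ((G y - ∑ j, c j * y j) - (G (z σ) - ∑ j, c j * z σ j)) +
        M * ∑ k ∈ S σ, (eval y (f k) - ε k) ^ 2 := by
    intro σ
    refine exists_penalty (sphere (z σ) (ρ σ)) (isCompact_sphere _ _) _ _ ?_ ?_ ?_ ?_
    · refine (hGc.sub ?_).sub continuous_const
      exact continuous_finsetSum _ fun j _ => continuous_const.mul (continuous_apply j)
    · exact continuous_finsetSum _ fun k _ => ((hcont k).sub continuous_const).pow 2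
    · intro y
      exact Finset.sum_nonneg fun k _ => sq_nonneg _
    · intro y hy h0
      have hyb : y ∈ closedBall (z σ) (ρ σ) := sphere_subset_closedBall hy
      have h1 : ∀ k ∈ S σ, eval y (f k) - ε k = 0 := by
        intro k hk
        have := (Finset.sum_eq_zero_iff_of_nonneg (fun k _ => sq_nonneg _)).1 h0 k hk
        simpa using this
      have hyK : y ∈ K σ := by
        refine ⟨Set.mem_iInter.2 fun k => ?_, ?_⟩
        · by_cases hk : k ∈ S σ
          · simp [h1 k hk]
          · exact ((hρball σ y hyb).2 k hk).le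
        · rw [mem_closedBall_zero_iff]
          exact (hρball σ y hyb).1.le
      have hyz : y ≠ z σ := by
        intro h
        rw [h] at hy
        have := mem_sphere.1 hy
        rw [dist_self] at this
        exact (hρ σ).ne this
      have := hz σ y hyK hyz
      linarith
  choose K0 hK0 using hP
  set M : ℝ := ∑ σ : X, |K0 σ| with hM
  have hM0 : 0 ≤ M := Finset.sum_nonneg fun _ _ => abs_nonneg _
  have hKM : ∀ σ : X, K0 σ ≤ M := by
    intro σ
    refine (le_abs_self _).trans ?_
    exact Finset.single_le_sum (f := fun σ : X => |K0 σ|) (fun _ _ => abs_nonneg _)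
      (Finset.mem_univ σ)
  -- interior minima of the penalised function
  have hw : ∀ σ : X, ∃ w ∈ ball (z σ) (ρ σ), ∀ i, w i ^ (2 * D + 1) =
      eval w (C (1 / (2 * (D : ℝ) + 2)) * (C (c i) - C (2 * M) *
      ∑ k ∈ S σ, (f k - C (ε k)) * pderiv i (f k))) := by
    intro σ
    set Ψ : (ι → ℝ) → ℝ := fun y => ∑ i, y i ^ (2 * D + 2) - ∑ j, c j * y j +
      M * ∑ k ∈ S σ, (eval y (f k) - ε k) ^ 2 with hΨ
    have hΨc : Continuous Ψ := by
      refine (hGc.sub ?_).add ?_
      · exact continuous_finsetSum _ fun j _ => continuous_const.mul (continuous_apply j)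
      · exact continuous_const.mul
          (continuous_finsetSum _ fun k _ => ((hcont k).sub continuous_const).pow 2)
    obtain ⟨w, hwb, hmin⟩ := (isCompact_closedBall (z σ) (ρ σ)).exists_isMinOn
      ⟨z σ, mem_closedBall_self (hρ σ).le⟩ hΨc.continuousOn
    have hΨz : Ψ (z σ) = G (z σ) - ∑ j, c j * z σ j := by
      simp only [hΨ, hG]
      have : ∑ k ∈ S σ, (eval (z σ) (f k) - ε k) ^ 2 = 0 := by
        refine Finset.sum_eq_zero fun k hk => ?_
        rw [(Finset.mem_filter.1 hk).2]
        simp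
      rw [this]
      ring
    have hwball : w ∈ ball (z σ) (ρ σ) := by
      rw [mem_ball]
      rcases lt_or_eq_of_le (mem_closedBall.1 hwb) with h | h
      · exact h
      · exfalso
        have h1 := hK0 σ M (hKM σ) hM0 w (mem_sphere.2 h)
        have h2 : Ψ w ≤ Ψ (z σ) := hmin (mem_closedBall_self (hρ σ).le)
        rw [hΨz] at h2
        simp only [hΨ] at h2
        simp only [hG] at h1 h2
        linarith
    refine ⟨w, hwball, fun i => ?_⟩
    refine stationary D f ε c M (S σ) w ?_ i
    have h3 : closedBall (z σ) (ρ σ) ∈ nhds w :=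
      Filter.mem_of_superset (isOpen_ball.mem_nhds hwball) ball_subset_closedBall
    exact hmin.isLocalMin h3
  choose w hwball hweq using hw
  -- counting
  set F : X → (Σ _ : ℕ, Σ _ : Finset κ, Finset κ) := fun σ =>
    ⟨(S σ).card, ⟨S σ, (σ : Finset κ) ∩ S σ⟩⟩ with hF
  set T : Finset (Σ _ : ℕ, Σ _ : Finset κ, Finset κ) :=
    (Finset.range (Fintype.card ι + 1)).sigma fun s =>
      (Finset.powersetCard s (Finset.univ : Finset κ)).sigma fun A => A.powerset with hT
  have hTcard : T.card = ∑ s ∈ Finset.range (Fintype.card ι + 1),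
      (Fintype.card κ).choose s * 2 ^ s := by
    rw [hT, Finset.card_sigma]
    refine Finset.sum_congr rfl fun s _ => ?_
    rw [Finset.card_sigma]
    rw [Finset.sum_congr rfl (g := fun _ => 2 ^ s)]
    · rw [Finset.sum_const, Finset.card_powersetCard, smul_eq_mul, Finset.card_univ]
    · intro A hA
      rw [Finset.card_powerset, (Finset.mem_powersetCard.1 hA).2]
  have himg : (Finset.univ : Finset X).image F ⊆ T := by
    intro p hp
    obtain ⟨σ, _, rfl⟩ := Finset.mem_image.1 hp
    simp only [hT, hF, Finset.mem_sigma, Finset.mem_range, Finset.mem_powersetCard,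
      Finset.subset_univ, true_and, Finset.mem_powerset]
    exact ⟨Nat.lt_succ_of_le (hScard σ), Finset.inter_subset_right⟩
  have hfib : ∀ p ∈ (Finset.univ : Finset X).image F,
      ((Finset.univ : Finset X).filter fun σ => F σ = p).card ≤
        (2 * D + 1) ^ Fintype.card ι := by
    intro p hp
    obtain ⟨σ0, _, rfl⟩ := Finset.mem_image.1 hp
    have hinj : Set.InjOn w (((Finset.univ : Finset X).filter fun σ => F σ = F σ0) : Set X) := by
      intro σ hσ τ hτ hwe
      have h1 : F σ = F σ0 := (Finset.mem_filter.1 (Finset.mem_coe.1 hσ)).2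
      have h2 : F τ = F σ0 := (Finset.mem_filter.1 (Finset.mem_coe.1 hτ)).2
      have h3 : F σ = F τ := h1.trans h2.symm
      simp only [hF, Sigma.mk.injEq, heq_eq_eq] at h3
      obtain ⟨_, hSS, hII⟩ := h3
      apply Subtype.ext
      ext k
      by_cases hk : k ∈ S σ
      · have hk' : k ∈ S τ := hSS ▸ hk
        have h4 := Finset.ext_iff.1 hII k
        simpa [Finset.mem_inter, hk, hk'] using h4
      · have hk' : k ∉ S τ := hSS ▸ hk
        have h4 := (hρball σ (w σ) (ball_subset_closedBall (hwball σ))).2 k hk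
        have h5 := (hρball τ (w τ) (ball_subset_closedBall (hwball τ))).2 k hk'
        rw [← hwe] at h5
        simp only [hs] at h4 h5
        by_cases h6 : k ∈ (σ : Finset κ) <;> by_cases h7 : k ∈ (τ : Finset κ)
        · simp [h6, h7]
        · exfalso
          rw [if_pos h6] at h4
          rw [if_neg h7] at h5
          linarith
        · exfalso
          rw [if_neg h6] at h4
          rw [if_pos h7] at h5
          linarith
        · simp [h6, h7]
    rw [← Finset.card_image_of_injOn hinj]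
    refine card_le_of_pow_eq (2 * D + 1) (fun i => C (1 / (2 * (D : ℝ) + 2)) * (C (c i) -
      C (2 * M) * ∑ k ∈ S σ0, (f k - C (ε k)) * pderiv i (f k)))
      (fun i => stationary_degree D f hf ε _ _ M (S σ0) i) _ ?_
    intro y hy i
    obtain ⟨σ, hσ, rfl⟩ := Finset.mem_image.1 hy
    have h1 : F σ = F σ0 := (Finset.mem_filter.1 hσ).2
    simp only [hF, Sigma.mk.injEq, heq_eq_eq] at h1
    rw [← h1.2.1]
    exact hweq σ i
  have h1 := Finset.card_le_mul_card_image (Finset.univ : Finset X) _ hfib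
  rw [Finset.card_univ, Fintype.card_coe] at h1
  refine h1.trans ?_
  rw [← hTcard]
  exact Nat.mul_le_mul_left _ (Finset.card_le_card himg)

end SphereDim
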