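import Mathlib
import Pool.Agent.Lib.MP_2be980_co.Defs
import Pool.Agent.Lib.MP_2be980_co.Warren
import Pool.Agent.Lib.MP_2be980_co.SphereInter
import Pool.Agent.Lib.MP_2be980_co.Chord

/-!
MP_2be980_co, module L3 (Lower): for `n ≥ 180` some graph on `n` vertices is in no class `𝒮_d` with
`1 ≤ d ≤ n / 20`.
-/

open MvPolynomial Metric Finset
open scoped BigOperators RealInnerProductSpace

namespace SphereDim

namespace Lower

/-- pairs `u < v` of `Fin n` -/
abbrev KK (n : ℕ) : Type := (j : Fin n) × Fin (j : ℕ)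

/-- smaller element -/
def lo {n : ℕ} (k : KK n) : Fin n := ⟨k.2, k.2.2.trans k.1.2⟩

/-- larger element -/
def hi {n : ℕ} (k : KK n) : Fin n := k.1

theorem lo_ne_hi {n : ℕ} (k : KK n) : lo k ≠ hi k := by
  intro h
  have h1 : (k.2 : ℕ) = (k.1 : ℕ) := congrArg Fin.val h
  exact absurd k.2.2 (by omega)

theorem card_KK (n : ℕ) : Fintype.card (KK n) = n * (n - 1) / 2 := by
  rw [Fintype.card_sigma]
  simp only [Fintype.card_fin]
  rw [Fin.sum_univ_eq_sum_range (fun i => i) n, Finset.sum_range_id]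

open Classical in
/-- pattern of a graph -/
noncomputable def pat {n : ℕ} (G : SimpleGraph (Fin n)) : Finset (KK n) :=
  Finset.univ.filter fun k => G.Adj (lo k) (hi k)

theorem mem_pat {n : ℕ} (G : SimpleGraph (Fin n)) (k : KK n) : k ∈ pat G ↔ G.Adj (lo k) (hi k) := by
  classical
  simp [pat]

theorem exists_pat {n : ℕ} (σ : Finset (KK n)) : ∃ G : SimpleGraph (Fin n), pat G = σ := by
  classical
  refine ⟨{ Adj := fun a b => (∃ h : (a : ℕ) < b, (⟨b, ⟨a, h⟩⟩ : KK n) ∈ σ) ∨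
              (∃ h : (b : ℕ) < a, (⟨a, ⟨b, h⟩⟩ : KK n) ∈ σ)
            symm := ⟨fun a b h => h.elim Or.inr Or.inl⟩
            loopless := ⟨fun a h => h.elim (fun ⟨h, _⟩ => absurd h (lt_irrefl _))
              (fun ⟨h, _⟩ => absurd h (lt_irrefl _))⟩ }, ?_⟩
  ext k
  rw [mem_pat]
  obtain ⟨j, i⟩ := k
  constructor
  · rintro (⟨h, hk⟩ | ⟨h, hk⟩)
    · exact hk
    · exact absurd i.2 (by
        have : (j : ℕ) < i := h
        omega)
  · intro hk
    exact Or.inl ⟨i.2, hk⟩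

/-- a uniform gap -/
theorem exists_gap {α : Type} [Finite α] (g : α → ℝ) (hg : ∀ a, 0 < g a) :
    ∃ δ : ℝ, 0 < δ ∧ ∀ a, δ < g a := by
  rcases isEmpty_or_nonempty α with h | h
  · exact ⟨1, one_pos, fun a => h.elim a⟩
  · obtain ⟨a₀, ha₀⟩ := Finite.exists_min g
    exact ⟨g a₀ / 2, half_pos (hg a₀), fun a => (half_lt_self (hg a₀)).trans_le (ha₀ a)⟩

/-- counting a class of graphs defined by polynomials of degree four -/
theorem count_class {n N : ℕ} {ι : Type} [Fintype ι] [DecidableEq ι] (hN : Fintype.card ι ≤ N)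
    (F : KK n → MvPolynomial ι ℝ) (hF : ∀ k, (F k).totalDegree ≤ 4)
    (P : SimpleGraph (Fin n) → Prop)
    (hP : ∀ G, P G → ∃ x : ι → ℝ, ∀ k, (G.Adj (lo k) (hi k) → 0 ≤ eval x (F k)) ∧
      (¬ G.Adj (lo k) (hi k) → eval x (F k) < 0))
    (X : Finset (Finset (KK n))) (hX : ∀ σ ∈ X, ∃ G, P G ∧ pat G = σ) :
    X.card ≤ 9 ^ N * ∑ s ∈ Finset.range (N + 1), (Fintype.card (KK n)).choose s * 2 ^ s := by
  classical
  have h1 : ∀ σ : X, ∃ x : ι → ℝ, ∀ k, (k ∈ (σ : Finset (KK n)) → 0 ≤ eval x (F k)) ∧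
      (k ∉ (σ : Finset (KK n)) → eval x (F k) < 0) := by
    rintro ⟨σ, hσ⟩
    obtain ⟨G, hG, rfl⟩ := hX σ hσ
    obtain ⟨x, hx⟩ := hP G hG
    refine ⟨x, fun k => ?_⟩
    rw [mem_pat]
    exact hx k
  choose x hx using h1
  obtain ⟨δ, hδ, hδ'⟩ := exists_gap (α := X × KK n)
    (fun a => if a.2 ∈ (a.1 : Finset (KK n)) then 1 else - eval (x a.1) (F a.2)) (by
      rintro ⟨σ, k⟩
      dsimp only
      split_ifs with h
      · exact one_pos
      · exact neg_pos.2 ((hx σ k).2 h))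
  have h2 := warren 4 (fun k => C δ + F k) (fun k => by
    refine (totalDegree_add _ _).trans (max_le ?_ (hF k))
    rw [totalDegree_C]
    exact Nat.zero_le _) X (by
    intro σ hσ
    refine ⟨x ⟨σ, hσ⟩, fun k => ⟨fun hk => ?_, fun hk => ?_⟩⟩
    · rw [map_add, eval_C]
      exact add_pos_of_pos_of_nonneg hδ ((hx ⟨σ, hσ⟩ k).1 hk)
    · rw [map_add, eval_C]
      have h3 := hδ' (⟨σ, hσ⟩, k)
      dsimp only at h3
      rw [if_neg hk] at h3
      linarith)
  refine h2.trans ?_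
  refine Nat.mul_le_mul ?_ ?_
  · exact Nat.pow_le_pow_right (by norm_num) hN
  · exact Finset.sum_le_sum_of_subset (Finset.range_subset_range.2 (by omega))

/-! ### the numbers -/

theorem sum_choose_le (m N : ℕ) :
    10 ^ m * ∑ s ∈ Finset.range (N + 1), m.choose s * 2 ^ s ≤ 20 ^ N * 11 ^ m := by
  have h1 : (11 : ℕ) ^ m = ∑ s ∈ Finset.range (m + 1), m.choose s * 10 ^ (m - s) := by
    have h := add_pow (1 : ℕ) 10 m
    rw [show (1 : ℕ) + 10 = 11 by norm_num] at h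
    rw [h]
    exact Finset.sum_congr rfl fun s _ => by simp [mul_comm]
  have h2 : 10 ^ m * ∑ s ∈ Finset.range (N + 1), m.choose s * 2 ^ s =
      10 ^ m * ∑ s ∈ Finset.range (N + 1) ∩ Finset.range (m + 1), m.choose s * 2 ^ s := by
    congr 1
    symm
    apply Finset.sum_subset Finset.inter_subset_left
    intro s hs hs'
    rw [Finset.mem_inter, not_and] at hs'
    have h3 : m < s := by
      have := hs' hs
      rw [Finset.mem_range] at this
      omega
    rw [Nat.choose_eq_zero_of_lt h3, zero_mul]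
  rw [h2, Finset.mul_sum]
  calc ∑ s ∈ Finset.range (N + 1) ∩ Finset.range (m + 1), 10 ^ m * (m.choose s * 2 ^ s)
      ≤ ∑ s ∈ Finset.range (N + 1) ∩ Finset.range (m + 1), 20 ^ N * (m.choose s * 10 ^ (m - s)) := by
        refine Finset.sum_le_sum fun s hs => ?_
        rw [Finset.mem_inter, Finset.mem_range, Finset.mem_range] at hs
        have h3 : 10 ^ m = 10 ^ s * 10 ^ (m - s) := by
          rw [← pow_add]
          congr 1
          omega
        have h4 : (20 : ℕ) ^ s ≤ 20 ^ N := Nat.pow_le_pow_right (by norm_num) (by omega)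
        have h5 : (20 : ℕ) ^ s = 10 ^ s * 2 ^ s := by
          rw [← mul_pow]
          norm_num
        rw [h3]
        calc 10 ^ s * 10 ^ (m - s) * (m.choose s * 2 ^ s)
            = (10 ^ s * 2 ^ s) * (m.choose s * 10 ^ (m - s)) := by ring
          _ ≤ 20 ^ N * (m.choose s * 10 ^ (m - s)) := by
            rw [← h5]
            exact Nat.mul_le_mul_right _ h4
    _ ≤ ∑ s ∈ Finset.range (m + 1), 20 ^ N * (m.choose s * 10 ^ (m - s)) :=
        Finset.sum_le_sum_of_subset Finset.inter_subset_right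
    _ = 20 ^ N * 11 ^ m := by rw [← Finset.mul_sum, ← h1]

theorem numbers (n m N : ℕ) (h1 : 20 * N ≤ 2 * m + 21 * n) (h2 : 168 * n + 20 < 2 * m) :
    2 * (9 ^ N * ∑ s ∈ Finset.range (N + 1), m.choose s * 2 ^ s) < 2 ^ m := by
  have h3 : 2 * 180 ^ N * 11 ^ m < 20 ^ m := by
    apply lt_of_pow_lt_pow_left₀ 20 (Nat.zero_le _)
    have e1 : (2 * 180 ^ N * 11 ^ m) ^ 20 = 2 ^ 20 * 180 ^ (20 * N) * (11 ^ 20) ^ m := by
      rw [mul_pow, mul_pow, ← pow_mul, ← pow_mul, ← pow_mul, mul_comm N 20, mul_comm m 20]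
    have e2 : ((20 : ℕ) ^ m) ^ 20 = (20 ^ 20) ^ m := by
      rw [← pow_mul, ← pow_mul, mul_comm]
    have e3 : (180 : ℕ) ^ (20 * N) ≤ (180 ^ 2) ^ m * (180 ^ 21) ^ n := by
      rw [← pow_mul, ← pow_mul, ← pow_add]
      exact Nat.pow_le_pow_right (by norm_num) h1
    have e4 : ((180 : ℕ) ^ 21) ^ n ≤ (2 ^ 168) ^ n := Nat.pow_le_pow_left (by norm_num) n
    have e5 : (2 : ℕ) ^ 20 * (2 ^ 168) ^ n < 4 ^ m := by
      rw [show (4 : ℕ) = 2 ^ 2 by norm_num, ← pow_mul, ← pow_mul, ← pow_add]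
      exact Nat.pow_lt_pow_right (by norm_num) (by omega)
    have e6 : ((4 * (180 ^ 2 * 11 ^ 20) : ℕ)) ^ m ≤ (20 ^ 20) ^ m :=
      Nat.pow_le_pow_left (by norm_num) m
    rw [e1, e2]
    calc 2 ^ 20 * 180 ^ (20 * N) * (11 ^ 20) ^ m
        ≤ 2 ^ 20 * ((180 ^ 2) ^ m * (2 ^ 168) ^ n) * (11 ^ 20) ^ m := by
          apply Nat.mul_le_mul_right
          apply Nat.mul_le_mul_left
          exact e3.trans (Nat.mul_le_mul_left _ e4)
      _ = (2 ^ 20 * (2 ^ 168) ^ n) * ((180 ^ 2) ^ m * (11 ^ 20) ^ m) := by ring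
      _ < 4 ^ m * ((180 ^ 2) ^ m * (11 ^ 20) ^ m) := by
          apply Nat.mul_lt_mul_of_pos_right e5
          positivity
      _ = (4 * (180 ^ 2 * 11 ^ 20)) ^ m := by rw [mul_pow, mul_pow]
      _ ≤ (20 ^ 20) ^ m := e6
  have h4 := sum_choose_le m N
  have h5 : 0 < (10 : ℕ) ^ m := by positivity
  apply lt_of_mul_lt_mul_left (a := 10 ^ m) _ (Nat.zero_le _)
  calc 10 ^ m * (2 * (9 ^ N * ∑ s ∈ Finset.range (N + 1), m.choose s * 2 ^ s))
      = 2 * 9 ^ N * (10 ^ m * ∑ s ∈ Finset.range (N + 1), m.choose s * 2 ^ s) := by ring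
    _ ≤ 2 * 9 ^ N * (20 ^ N * 11 ^ m) := Nat.mul_le_mul_left _ h4
    _ = 2 * 180 ^ N * 11 ^ m := by
        rw [show (180 : ℕ) = 9 * 20 by norm_num, mul_pow]
        ring
    _ < 20 ^ m := h3
    _ = 10 ^ m * 2 ^ m := by
        rw [← mul_pow]
        norm_num

/-! ### degrees -/

theorem deg_sq {ι : Type} {p : MvPolynomial ι ℝ} {a b : ℕ} (h : p.totalDegree ≤ a) (hab : 2 * a ≤ b) :
    (p ^ 2).totalDegree ≤ b :=
  (totalDegree_pow _ _).trans ((Nat.mul_le_mul_left 2 h).trans hab)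

theorem deg_sub {ι : Type} {p q : MvPolynomial ι ℝ} {a : ℕ} (h : p.totalDegree ≤ a)
    (h' : q.totalDegree ≤ a) : (p - q).totalDegree ≤ a :=
  (totalDegree_sub _ _).trans (max_le h h')

theorem deg_add {ι : Type} {p q : MvPolynomial ι ℝ} {a : ℕ} (h : p.totalDegree ≤ a)
    (h' : q.totalDegree ≤ a) : (p + q).totalDegree ≤ a :=
  (totalDegree_add _ _).trans (max_le h h')

theorem deg_mul {ι : Type} {p q : MvPolynomial ι ℝ} {a b c : ℕ} (h : p.totalDegree ≤ a)
    (h' : q.totalDegree ≤ b) (hc : a + b ≤ c) : (p * q).totalDegree ≤ c :=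
  (totalDegree_mul _ _).trans ((Nat.add_le_add h h').trans hc)

theorem deg_X {ι : Type} (i : ι) : (X i : MvPolynomial ι ℝ).totalDegree ≤ 1 :=
  (totalDegree_X i).le

/-! ### spheres -/

/-- polynomial of a pair, spheres -/
noncomputable def FS (n D : ℕ) (k : KK n) : MvPolynomial (Fin n × Option (Fin D)) ℝ :=
  C 4 * (X (lo k, none) ^ 2 * X (hi k, none) ^ 2) -
    (X (lo k, none) ^ 2 + X (hi k, none) ^ 2 -
      ∑ t : Fin D, (X (lo k, some t) - X (hi k, some t)) ^ 2) ^ 2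

theorem deg_FS (n D : ℕ) (k : KK n) : (FS n D k).totalDegree ≤ 4 := by
  refine deg_sub ?_ ?_
  · refine deg_mul (totalDegree_C _).le (deg_mul (deg_sq (deg_X _) le_rfl) (deg_sq (deg_X _) le_rfl)
      le_rfl) (by norm_num)
  · refine deg_sq (a := 2) (deg_sub (deg_add (deg_sq (deg_X _) (by norm_num))
      (deg_sq (deg_X _) (by norm_num))) ?_) (by norm_num)
    refine (totalDegree_finsetSum _ _).trans (Finset.sup_le fun t _ => ?_)
    exact deg_sq (deg_sub (deg_X _) (deg_X _)) (by norm_num)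

theorem sphere_point {n D : ℕ} (hD : 2 ≤ D) (G : SimpleGraph (Fin n)) (hG : InSphere D G) :
    ∃ x : Fin n × Option (Fin D) → ℝ, ∀ k, (G.Adj (lo k) (hi k) → 0 ≤ eval x (FS n D k)) ∧
      (¬ G.Adj (lo k) (hi k) → eval x (FS n D k) < 0) := by
  obtain ⟨c, ρ, hρ, hadj⟩ := hG
  refine ⟨fun p => p.2.elim (ρ p.1) (fun t => c p.1 t), fun k => ?_⟩
  have h1 := hadj _ _ (lo_ne_hi k)
  have h2 := sphere_inter_nonempty_iff (E := EuclideanSpace ℝ (Fin D))
    (by rw [finrank_euclideanSpace_fin]; exact hD) (c (lo k)) (c (hi k)) (hρ (lo k)) (hρ (hi k))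
  have h3 : ‖c (lo k) - c (hi k)‖ ^ 2 = ∑ t : Fin D, (c (lo k) t - c (hi k) t) ^ 2 := by
    rw [EuclideanSpace.norm_sq_eq]
    exact Finset.sum_congr rfl fun t _ => by rw [Real.norm_eq_abs, sq_abs]; rfl
  have h4 : eval (fun p : Fin n × Option (Fin D) => p.2.elim (ρ p.1) (fun t => c p.1 t)) (FS n D k) =
      4 * ρ (lo k) ^ 2 * ρ (hi k) ^ 2 - (ρ (lo k) ^ 2 + ρ (hi k) ^ 2 - ‖c (lo k) - c (hi k)‖ ^ 2) ^ 2 := by
    rw [h3, FS]
    simp only [map_sub, map_mul, map_add, map_pow, map_sum, eval_C, eval_X, Option.elim_none,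
      Option.elim_some]
    ring
  rw [h4, h1, h2]
  constructor
  · intro h
    linarith
  · intro h
    push Not at h
    linarith

theorem InSphere_pad {n d D : ℕ} (hd : 2 ≤ d) (hdD : d ≤ D) (G : SimpleGraph (Fin n))
    (hG : InSphere d G) : InSphere D G := by
  obtain ⟨e, rfl⟩ := Nat.exists_eq_add_of_le hdD
  obtain ⟨c, ρ, hρ, hadj⟩ := hG
  refine ⟨fun v => WithLp.toLp 2 (Fin.append (fun j => c v j) (fun _ : Fin e => (0 : ℝ))), ρ, hρ, ?_⟩
  intro u v huv
  rw [hadj u v huv, sphere_inter_nonempty_iff (E := EuclideanSpace ℝ (Fin d))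
    (by rw [finrank_euclideanSpace_fin]; exact hd) _ _ (hρ u) (hρ v),
    sphere_inter_nonempty_iff (E := EuclideanSpace ℝ (Fin (d + e)))
    (by rw [finrank_euclideanSpace_fin]; omega) _ _ (hρ u) (hρ v)]
  have h1 : ‖c u - c v‖ ^ 2 = ‖(WithLp.toLp 2 (Fin.append (fun j => c u j) (fun _ : Fin e => (0 : ℝ))) :
      EuclideanSpace ℝ (Fin (d + e))) - WithLp.toLp 2 (Fin.append (fun j => c v j)
        (fun _ : Fin e => (0 : ℝ)))‖ ^ 2 := by
    rw [EuclideanSpace.norm_sq_eq, EuclideanSpace.norm_sq_eq, Fin.sum_univ_add]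
    simp
  rw [h1]

/-! ### chords -/

/-- area polynomial -/
noncomputable def OP {n : ℕ} (p q r : Fin n × Bool) : MvPolynomial ((Fin n × Bool) × Fin 2) ℝ :=
  (X (q, 0) - X (p, 0)) * (X (r, 1) - X (p, 1)) - (X (q, 1) - X (p, 1)) * (X (r, 0) - X (p, 0))

theorem deg_OP {n : ℕ} (p q r : Fin n × Bool) : (OP p q r).totalDegree ≤ 2 := by
  refine deg_sub ?_ ?_
  · exact deg_mul (deg_sub (deg_X _) (deg_X _)) (deg_sub (deg_X _) (deg_X _)) (by norm_num)
  · exact deg_mul (deg_sub (deg_X _) (deg_X _)) (deg_sub (deg_X _) (deg_X _)) (by norm_num)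

/-- polynomial of a pair, chords -/
noncomputable def FC (n : ℕ) (k : KK n) : MvPolynomial ((Fin n × Bool) × Fin 2) ℝ :=
  C (-1) * (OP (lo k, false) (lo k, true) (hi k, false) * OP (lo k, false) (lo k, true) (hi k, true))

theorem deg_FC (n : ℕ) (k : KK n) : (FC n k).totalDegree ≤ 4 :=
  deg_mul (totalDegree_C _).le (deg_mul (deg_OP _ _ _) (deg_OP _ _ _) le_rfl) (by norm_num)

theorem circle_point {n : ℕ} (G : SimpleGraph (Fin n)) (hG : InCircle G) :
    ∃ x : (Fin n × Bool) × Fin 2 → ℝ, ∀ k, (G.Adj (lo k) (hi k) → 0 ≤ eval x (FC n k)) ∧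
      (¬ G.Adj (lo k) (hi k) → eval x (FC n k) < 0) := by
  obtain ⟨P, Q, hPQ, hadj⟩ := hG
  refine ⟨fun p => (if p.1.2 then Q p.1.1 else P p.1.1) p.2, fun k => ?_⟩
  have h1 := hadj _ _ (lo_ne_hi k)
  have h2 := chord_inter_iff (P (lo k)) (Q (lo k)) (P (hi k)) (Q (hi k)) (hPQ _).1 (hPQ _).2.1
    (hPQ _).2.2 (hPQ _).1 (hPQ _).2.1 (hPQ _).2.2
  have h4 : eval (fun p : (Fin n × Bool) × Fin 2 => (if p.1.2 then Q p.1.1 else P p.1.1) p.2) (FC n k) =
      - (orient (P (lo k)) (Q (lo k)) (P (hi k)) * orient (P (lo k)) (Q (lo k)) (Q (hi k))) := by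
    simp only [FC, OP, orient, map_sub, map_mul, eval_C, eval_X, if_true, if_false, Bool.false_eq_true]
    ring
  rw [h4, h1, h2]
  constructor
  · intro h
    linarith
  · intro h
    push Not at h
    linarith

end Lower

open Lower in
/-- For `n ≥ 180` some graph on `n` vertices is in no class `𝒮_d` with `1 ≤ d ≤ n / 20`. -/
theorem exists_not_InS (n : ℕ) (hn : 180 ≤ n) :
    ∃ G : SimpleGraph (Fin n), ∀ d, 1 ≤ d → 20 * d ≤ n → ¬ InS d G := by
  classical
  by_contra hcon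
  push Not at hcon
  set D := n / 20 with hD
  have hD9 : 9 ≤ D := by omega
  set N := n * (D + 1) with hN
  set m := Fintype.card (KK n) with hm
  set XS : Finset (Finset (KK n)) := Finset.univ.filter fun σ => ∃ G, InSphere D G ∧ pat G = σ with hXS
  set XC : Finset (Finset (KK n)) := Finset.univ.filter fun σ => ∃ G, InCircle G ∧ pat G = σ with hXC
  have hcover : (Finset.univ : Finset (Finset (KK n))) ⊆ XS ∪ XC := by
    intro σ _
    obtain ⟨G, hG⟩ := exists_pat σ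
    obtain ⟨d, hd1, hd2, hd⟩ := hcon G
    rw [Finset.mem_union]
    by_cases h1 : d = 1
    · right
      rw [InS, if_pos h1] at hd
      exact Finset.mem_filter.2 ⟨Finset.mem_univ _, G, hd, hG⟩
    · left
      rw [InS, if_neg h1] at hd
      exact Finset.mem_filter.2 ⟨Finset.mem_univ _, G, InSphere_pad (by omega) (by omega) G hd, hG⟩
  have h1 : 2 ^ m ≤ XS.card + XC.card := by
    have h2 := Finset.card_le_card hcover
    rw [Finset.card_univ, Fintype.card_finset] at h2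
    exact h2.trans (Finset.card_union_le _ _)
  have h2 : XS.card ≤ 9 ^ N * ∑ s ∈ Finset.range (N + 1), m.choose s * 2 ^ s := by
    refine count_class (ι := Fin n × Option (Fin D)) ?_ (FS n D) (deg_FS n D) (InSphere D)
      (fun G hG => sphere_point (by omega) G hG) XS ?_
    · simp [hN]
    · intro σ hσ
      exact (Finset.mem_filter.1 hσ).2
  have h3 : XC.card ≤ 9 ^ N * ∑ s ∈ Finset.range (N + 1), m.choose s * 2 ^ s := by
    refine count_class (ι := (Fin n × Bool) × Fin 2) ?_ (FC n) (deg_FC n) InCircle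
      (fun G hG => circle_point G hG) XC ?_
    · simp only [Fintype.card_prod, Fintype.card_fin, Fintype.card_bool, hN, mul_assoc]
      exact Nat.mul_le_mul_left _ (by omega)
    · intro σ hσ
      exact (Finset.mem_filter.1 hσ).2
  have h4 : 2 * m = n * (n - 1) := by
    rw [hm, card_KK]
    exact Nat.mul_div_cancel' (Nat.even_mul_pred_self n).two_dvd
  have h5 : n * (n - 1) + n = n * n := by
    obtain ⟨k, rfl⟩ : ∃ k, n = k + 1 := ⟨n - 1, by omega⟩
    simp only [Nat.add_sub_cancel]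
    ring
  have h6 : 20 * N ≤ 2 * m + 21 * n := by
    have h7 : 20 * D ≤ n := by omega
    have h8 : 20 * N = n * (20 * D) + 20 * n := by rw [hN]; ring
    have h9 : n * (20 * D) ≤ n * n := Nat.mul_le_mul_left _ h7
    omega
  have h7 : 168 * n + 20 < 2 * m := by
    rw [h4]
    have h8 : n * 179 ≤ n * (n - 1) := Nat.mul_le_mul_left _ (by omega)
    omega
  have h8 := numbers n m N h6 h7
  omega

end SphereDim
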