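import Mathlib
import Pool.Agent.Lib.MP_2be980_co.Defs

/-!
Vectors with prescribed signs of inner products along the edges of a graph (module U1).
-/

open MvPolynomial Metric Finset
open scoped BigOperators RealInnerProductSpace

namespace SphereDim

/-- Linearly independent vectors: prescribed inner products. -/
theorem exists_inner_eq {Q : Type} [Fintype Q] [DecidableEq Q] {r : ℕ} (y : Q → Fin r → ℝ)
    (T : Finset Q) (hT : LinearIndepOn ℝ y (T : Set Q)) (c : Q → ℝ) :
    ∃ x : Fin r → ℝ, ∀ b ∈ T, ∑ j, x j * y b j = c b := by
  classical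
  have h1 : LinearIndependent ℝ (fun b : (T : Set Q) => y b) := hT
  have hker : LinearMap.ker (Fintype.linearCombination ℝ (fun b : (T : Set Q) => y b)) = ⊥ := by
    rw [LinearMap.ker_eq_bot]
    exact linearIndependent_iff_injective_fintypeLinearCombination.1 h1
  obtain ⟨g, hg⟩ := (Fintype.linearCombination ℝ
    (fun b : (T : Set Q) => y b)).exists_leftInverse_of_injective hker
  set F : (Fin r → ℝ) →ₗ[ℝ] ℝ :=
    ∑ b : (T : Set Q), (c b) • ((LinearMap.proj b).comp g) with hF
  refine ⟨fun j => F (Pi.single j 1), fun b hb => ?_⟩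
  have h2 : ∑ j, F (Pi.single j 1) * y b j = F (y b) := by
    conv_rhs => rw [LinearMap.pi_apply_eq_sum_univ F (y b)]
    refine Finset.sum_congr rfl fun j _ => ?_
    rw [smul_eq_mul, mul_comm]
    congr 2
    ext k
    simp [Pi.single_apply, eq_comm]
  rw [h2]
  have h3 : g (y b) = Pi.single (⟨b, hb⟩ : (T : Set Q)) (1 : ℝ) := by
    have := LinearMap.congr_fun hg (Pi.single (⟨b, hb⟩ : (T : Set Q)) (1 : ℝ))
    simpa [Fintype.linearCombination_apply_single] using this
  rw [hF]
  simp only [LinearMap.sum_apply, LinearMap.smul_apply, LinearMap.comp_apply, LinearMap.proj_apply,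
    h3, smul_eq_mul]
  rw [Finset.sum_eq_single (⟨b, hb⟩ : (T : Set Q))]
  · simp
  · intro b' _ hb'
    simp [Pi.single_apply, hb']
  · intro h
    exact absurd (Finset.mem_univ _) h

theorem exists_vectors_aux {Q : Type} [Fintype Q] [DecidableEq Q] (B : SimpleGraph Q)
    [DecidableRel B.Adj] (t : Q → Q → ℝ) (hts : ∀ a b, t a b = t b a)
    (ht : ∀ a b, B.Adj a b → t a b ≠ 0) (r : ℕ) (hdeg : ∀ a, B.degree a ≤ r) (S : Finset Q) :
    ∃ y : Q → Fin r → ℝ, (∀ T : Finset Q, T ⊆ S → T.card ≤ r → LinearIndepOn ℝ y (T : Set Q)) ∧
      ∀ a ∈ S, ∀ b ∈ S, B.Adj a b → 0 < t a b * ∑ j, y a j * y b j := by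
  classical
  induction S using Finset.induction_on with
  | empty =>
    refine ⟨fun _ _ => 0, fun T hT _ => ?_, fun a ha => by simp at ha⟩
    rw [Finset.subset_empty.1 hT]
    simp
  | insert a S ha ih =>
    obtain ⟨y, hy1, hy2⟩ := ih
    -- the constraints
    set N : Finset Q := S.filter fun b => B.Adj a b with hN
    have hNcard : N.card ≤ r := by
      refine le_trans (Finset.card_le_card ?_) (hdeg a)
      intro b hb
      rw [hN, Finset.mem_filter] at hb
      rw [SimpleGraph.mem_neighborFinset]
      exact hb.2
    obtain ⟨x0, hx0⟩ := exists_inner_eq y N (hy1 N (Finset.filter_subset _ _) hNcard) (fun b => t a b)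
    set U : Set (Fin r → ℝ) := {x | ∀ b ∈ N, 0 < t a b * ∑ j, x j * y b j} with hU
    have hUo : IsOpen U := by
      have : U = ⋂ b ∈ N, {x : Fin r → ℝ | 0 < t a b * ∑ j, x j * y b j} := by
        ext x; simp [hU]
      rw [this]
      refine isOpen_biInter_finset fun b _ => isOpen_lt continuous_const ?_
      fun_prop
    have hUne : U.Nonempty := by
      refine ⟨x0, fun b hb => ?_⟩
      rw [hx0 b hb]
      have : t a b ≠ 0 := ht a b (Finset.mem_filter.1 hb).2
      exact mul_self_pos.2 this
    -- the bad set
    set F : Finset (Finset Q) := S.powerset.filter fun T => T.card < r with hF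
    set Bd : Set (Fin r → ℝ) := ⋃ T ∈ F, ((Submodule.span ℝ (y '' (T : Set Q)) :
      Submodule ℝ (Fin r → ℝ)) : Set (Fin r → ℝ)) with hBd
    have hnull : MeasureTheory.volume Bd = 0 := by
      rw [hBd]
      refine (MeasureTheory.measure_biUnion_null_iff (Finset.countable_toSet F)).2 fun T hT => ?_
      refine MeasureTheory.Measure.addHaar_submodule _ _ ?_
      intro htop
      have h1 : Module.finrank ℝ (Submodule.span ℝ (y '' (T : Set Q))) ≤ T.card := by
        have : (y '' (T : Set Q)) = ((T.image y : Finset (Fin r → ℝ)) : Set (Fin r → ℝ)) := by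
          simp
        rw [this]
        exact le_trans (finrank_span_finset_le_card _) Finset.card_image_le
      rw [htop, finrank_top, Module.finrank_fin_fun] at h1
      have h2 := (Finset.mem_filter.1 hT).2
      omega
    obtain ⟨x, hxU, hxB⟩ : ∃ x ∈ U, x ∉ Bd := by
      by_contra hc
      push Not at hc
      have h1 : MeasureTheory.volume U ≤ MeasureTheory.volume Bd :=
        MeasureTheory.measure_mono fun x hx => hc x hx
      rw [hnull] at h1
      exact absurd (le_antisymm h1 zero_le) (hUo.measure_pos _ hUne).ne'
    refine ⟨Function.update y a x, fun T hT hTr => ?_, fun b hb c hc hbc => ?_⟩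
    · by_cases haT : a ∈ T
      · set T' := T.erase a with hT'
        have hT'S : T' ⊆ S := by
          intro b hb
          rw [hT', Finset.mem_erase] at hb
          rcases Finset.mem_insert.1 (hT hb.2) with h | h
          · exact absurd h hb.1
          · exact h
        have haT' : a ∉ T' := Finset.notMem_erase a T
        have hcard : T'.card < r := by
          rw [hT', Finset.card_erase_of_mem haT]
          have := Finset.card_pos.2 ⟨a, haT⟩
          omega
        have hcongr : ∀ b ∈ T', Function.update y a x b = y b := by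
          intro b hb
          have : b ≠ a := fun e => haT' (e ▸ hb)
          simp [Function.update_of_ne this]
        have h1 : LinearIndepOn ℝ (Function.update y a x) (T' : Set Q) := by
          refine (linearIndepOn_congr (v := y) ?_).1 (hy1 T' hT'S hcard.le)
          intro b hb
          exact (hcongr b hb).symm
        have h2 : (T : Set Q) = insert a (T' : Set Q) := by
          rw [← Finset.coe_insert, hT', Finset.insert_erase haT]
        rw [h2]
        refine h1.insert ?_
        rw [Function.update_self]
        have h3 : Function.update y a x '' (T' : Set Q) = y '' (T' : Set Q) :=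
          Set.image_congr hcongr
        rw [h3]
        intro hmem
        apply hxB
        rw [hBd]
        simp only [Set.mem_iUnion]
        exact ⟨T', Finset.mem_filter.2 ⟨Finset.mem_powerset.2 hT'S, hcard⟩, hmem⟩
      · have hTS : T ⊆ S := by
          intro b hb
          rcases Finset.mem_insert.1 (hT hb) with h | h
          · exact absurd (h ▸ hb) haT
          · exact h
        refine (linearIndepOn_congr (v := y) ?_).1 (hy1 T hTS hTr)
        intro b hb
        have : b ≠ a := fun e => haT (e ▸ hb)
        simp [Function.update_of_ne this]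
    · rcases Finset.mem_insert.1 hb with rfl | hb'
      · rcases Finset.mem_insert.1 hc with rfl | hc'
        · exact absurd hbc (B.irrefl)
        · have hcb : c ≠ b := fun e => ha (e ▸ hc')
          rw [Function.update_self, Function.update_of_ne hcb]
          exact hxU c (Finset.mem_filter.2 ⟨hc', hbc⟩)
      · rcases Finset.mem_insert.1 hc with rfl | hc'
        · have hbc' : b ≠ c := fun e => ha (e ▸ hb')
          rw [Function.update_self, Function.update_of_ne hbc', hts]
          have := hxU b (Finset.mem_filter.2 ⟨hb', hbc.symm⟩)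
          simpa [mul_comm] using this
        · have h1 : b ≠ a := fun e => ha (e ▸ hb')
          have h2 : c ≠ a := fun e => ha (e ▸ hc')
          rw [Function.update_of_ne h1, Function.update_of_ne h2]
          exact hy2 b hb' c hc' hbc

/-- Auxiliary vectors: on a graph of maximum degree at most `r` there are vectors in `ℝ^r` whose
inner products along the edges have prescribed signs. -/
theorem exists_vectors {Q : Type} [Fintype Q] [DecidableEq Q] (B : SimpleGraph Q)
    [DecidableRel B.Adj] (t : Q → Q → ℝ) (hts : ∀ a b, t a b = t b a)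
    (ht : ∀ a b, B.Adj a b → t a b ≠ 0) (r : ℕ) (hr : 1 ≤ r) (hdeg : ∀ a, B.degree a ≤ r) :
    ∃ y : Q → Fin r → ℝ, (∀ a, y a ≠ 0) ∧
      ∀ a b, B.Adj a b → 0 < t a b * ∑ j, y a j * y b j := by
  obtain ⟨y, h1, h2⟩ := exists_vectors_aux B t hts ht r hdeg Finset.univ
  refine ⟨y, fun a => ?_, fun a b => h2 a (Finset.mem_univ _) b (Finset.mem_univ _)⟩
  have h3 := h1 {a} (Finset.subset_univ _) (by simpa using hr)
  have h4 : LinearIndepOn ℝ y ({a} : Set Q) := by simpa using h3
  exact h4.ne_zero (Set.mem_singleton a)

end SphereDim
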