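import Mathlib
import Pool.Agent.Lib.MP_2be980_co.Defs
import Pool.Agent.Lib.MP_2be980_co.CapSphere

/-!
MP_2be980_co, module U3 (Limit): second order perturbation of unit vectors.
-/

open Metric Finset Filter Topology
open scoped BigOperators RealInnerProductSpace

namespace SphereDim

namespace Limit

variable {V κ τ : Type} [Fintype κ] [DecidableEq κ] [Fintype τ] [DecidableEq τ]
  (cls : V → κ) (σ : V → ℝ) (y : V → τ → ℝ) (h : V → κ → ℝ)

/-- squared length of the perturbed vector -/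
noncomputable def q (v : V) (ε : ℝ) : ℝ := 1 + ε ^ 2 * ∑ t, y v t ^ 2 + ε ^ 4 * ∑ k, h v k ^ 2

/-- the perturbed vector -/
noncomputable def w (ε : ℝ) (v : V) : κ ⊕ τ → ℝ :=
  Sum.elim (fun k => σ v * ((if k = cls v then 1 else 0) + ε ^ 2 * h v k)) (fun t => σ v * (ε * y v t))

/-- the normalised vector -/
noncomputable def vec (ε : ℝ) (v : V) : EuclideanSpace ℝ (κ ⊕ τ) :=
  WithLp.toLp 2 fun i => w cls σ y h ε v i / √(q y h v ε)

omit [DecidableEq κ] [DecidableEq τ] in
theorem one_le_q (v : V) (ε : ℝ) : 1 ≤ q y h v ε := by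
  unfold q
  have h1 : 0 ≤ ε ^ 2 * ∑ t, y v t ^ 2 := by positivity
  have h2 : 0 ≤ ε ^ 4 * ∑ k, h v k ^ 2 := by
    have : ε ^ 4 = (ε ^ 2) ^ 2 := by ring
    rw [this]
    positivity
  linarith

omit [DecidableEq κ] [DecidableEq τ] in
theorem one_le_n (v : V) (ε : ℝ) : 1 ≤ √(q y h v ε) := Real.one_le_sqrt.2 (one_le_q y h v ε)

omit [DecidableEq κ] [DecidableEq τ] in
theorem cont_n (v : V) : Continuous fun ε : ℝ => √(q y h v ε) := by
  unfold q
  fun_prop

omit [DecidableEq κ] [DecidableEq τ] in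
theorem n_zero (v : V) : √(q y h v 0) = 1 := by
  simp [q]

omit [DecidableEq τ] in
theorem dot (ε : ℝ) (u v : V) : ∑ i, w cls σ y h ε u i * w cls σ y h ε v i =
    σ u * σ v * ((if cls u = cls v then 1 else 0) +
      ε ^ 2 * (h u (cls v) + h v (cls u) + ∑ t, y u t * y v t) + ε ^ 4 * ∑ k, h u k * h v k) := by
  rw [Fintype.sum_sum_type]
  simp only [w, Sum.elim_inl, Sum.elim_inr]
  have h1 : ∑ k, σ u * ((if k = cls u then 1 else 0) + ε ^ 2 * h u k) *
      (σ v * ((if k = cls v then 1 else 0) + ε ^ 2 * h v k)) =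
      σ u * σ v * (∑ k, ((if k = cls u then (if k = cls v then (1 : ℝ) else 0) else 0) +
        ε ^ 2 * (if k = cls v then h u k else 0) + ε ^ 2 * (if k = cls u then h v k else 0) +
        ε ^ 4 * (h u k * h v k))) := by
    rw [Finset.mul_sum]
    refine Finset.sum_congr rfl fun k _ => ?_
    split_ifs <;> ring
  rw [h1, Finset.sum_add_distrib, Finset.sum_add_distrib, Finset.sum_add_distrib]
  simp only [← Finset.mul_sum, Finset.sum_ite_eq', Finset.mem_univ, if_true]
  have h2 : ∑ t, σ u * (ε * y u t) * (σ v * (ε * y v t)) = σ u * σ v * (ε ^ 2 * ∑ t, y u t * y v t) := by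
    rw [Finset.mul_sum, Finset.mul_sum]
    exact Finset.sum_congr rfl fun t _ => by ring
  rw [h2]
  ring

omit [DecidableEq τ] in
theorem inner_vec (ε : ℝ) (u v : V) : ⟪vec cls σ y h ε u, vec cls σ y h ε v⟫ =
    σ u * σ v * ((if cls u = cls v then 1 else 0) +
      ε ^ 2 * (h u (cls v) + h v (cls u) + ∑ t, y u t * y v t) + ε ^ 4 * ∑ k, h u k * h v k) /
      (√(q y h u ε) * √(q y h v ε)) := by
  rw [← dot cls σ y h ε u v, PiLp.inner_apply, Finset.sum_div]
  refine Finset.sum_congr rfl fun i _ => ?_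
  simp only [vec, RCLike.inner_apply, conj_trivial]
  rw [div_mul_div_comm, mul_comm (w cls σ y h ε v i), mul_comm (√(q y h v ε))]

omit [DecidableEq τ] in
theorem cont_inner (u v : V) : Continuous fun ε : ℝ => ⟪vec cls σ y h ε u, vec cls σ y h ε v⟫ := by
  have h1 : (fun ε : ℝ => ⟪vec cls σ y h ε u, vec cls σ y h ε v⟫) = fun ε : ℝ =>
    σ u * σ v * ((if cls u = cls v then 1 else 0) +
      ε ^ 2 * (h u (cls v) + h v (cls u) + ∑ t, y u t * y v t) + ε ^ 4 * ∑ k, h u k * h v k) /
      (√(q y h u ε) * √(q y h v ε)) := funext fun ε => inner_vec cls σ y h ε u v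
  rw [h1]
  refine Continuous.div (by fun_prop) ((cont_n y h u).mul (cont_n y h v)) fun ε => ?_
  have h2 := one_le_n y h u ε
  have h3 := one_le_n y h v ε
  positivity

omit [DecidableEq τ] in
theorem inner_zero (u v : V) : ⟪vec cls σ y h 0 u, vec cls σ y h 0 v⟫ =
    σ u * σ v * (if cls u = cls v then 1 else 0) := by
  rw [inner_vec, n_zero, n_zero]
  norm_num

end Limit

open Limit in
/-- Second order perturbation: the vectors are
`σ_v (e_(cls v) + ε y_v + ε^2 h_v)`, `ε → 0+`, with threshold `ε^2 γ`. -/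
theorem InSphereInj_of_limit {V κ τ : Type} [Fintype V] [DecidableEq V] [Fintype κ]
    [DecidableEq κ] [Fintype τ] [DecidableEq τ] (G : SimpleGraph V) (k₀ : κ)
    (hcard : 3 ≤ Fintype.card κ + Fintype.card τ)
    (cls : V → κ) (σ : V → ℝ) (hσ : ∀ v, σ v = 1 ∨ σ v = -1)
    (y : V → τ → ℝ) (h : V → κ → ℝ) (h0 : ∀ v, h v (cls v) = 0) (γ : ℝ) (hγ : 0 ≤ γ)
    (hsame : ∀ u v, u ≠ v → cls u = cls v → (G.Adj u v ↔ σ u = σ v))
    (hdist : ∀ u v, u ≠ v → cls u = cls v → σ u = σ v → y u ≠ y v)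
    (hadj : ∀ u v, cls u ≠ cls v → G.Adj u v →
      γ < σ u * σ v * (h u (cls v) + h v (cls u) + ∑ t, y u t * y v t))
    (hnadj : ∀ u v, cls u ≠ cls v → ¬ G.Adj u v →
      σ u * σ v * (h u (cls v) + h v (cls u) + ∑ t, y u t * y v t) < γ) :
    InSphereInj (Fintype.card κ + Fintype.card τ - 1) G := by
  classical
  have hle : (𝓝[>] (0 : ℝ)) ≤ 𝓝 0 := nhdsWithin_le_nhds
  have hpos : ∀ᶠ ε : ℝ in 𝓝[>] (0 : ℝ), 0 < ε := eventually_mem_nhdsWithin
  -- the quotient function
  have hg : ∀ u v, Continuous fun ε : ℝ => σ u * σ v * ((h u (cls v) + h v (cls u) +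
      ∑ t, y u t * y v t) + ε ^ 2 * ∑ k, h u k * h v k) / (√(q y h u ε) * √(q y h v ε)) := by
    intro u v
    refine Continuous.div (by fun_prop) ((cont_n y h u).mul (cont_n y h v)) fun ε => ?_
    have h2 := one_le_n y h u ε
    have h3 := one_le_n y h v ε
    positivity
  have hg0 : ∀ u v, σ u * σ v * ((h u (cls v) + h v (cls u) +
      ∑ t, y u t * y v t) + (0 : ℝ) ^ 2 * ∑ k, h u k * h v k) / (√(q y h u 0) * √(q y h v 0)) =
      σ u * σ v * (h u (cls v) + h v (cls u) + ∑ t, y u t * y v t) := by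
    intro u v
    rw [n_zero, n_zero]
    norm_num
  have hI : ∀ u v (ε : ℝ), cls u ≠ cls v → ⟪vec cls σ y h ε u, vec cls σ y h ε v⟫ =
      ε ^ 2 * (σ u * σ v * ((h u (cls v) + h v (cls u) +
      ∑ t, y u t * y v t) + ε ^ 2 * ∑ k, h u k * h v k) / (√(q y h u ε) * √(q y h v ε))) := by
    intro u v ε huv
    rw [inner_vec, if_neg huv]
    ring
  have hσσ : ∀ u v, σ u = σ v → σ u * σ v = 1 := by
    intro u v huv
    rcases hσ v with h1 | h1 <;> rw [huv, h1] <;> norm_num
  have hσσ' : ∀ u v, σ u ≠ σ v → σ u * σ v = -1 := by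
    intro u v huv
    rcases hσ u with h1 | h1 <;> rcases hσ v with h2 | h2 <;> rw [h1, h2] at huv ⊢ <;>
      first | exact absurd rfl huv | norm_num
  -- threshold
  have hthr : Continuous fun ε : ℝ => ε ^ 2 * γ := by fun_prop
  have hHc : Continuous fun ε : ℝ => √((1 + ε ^ 2 * γ) / 2) := by fun_prop
  have hH0 : √((1 + (0 : ℝ) ^ 2 * γ) / 2) ^ 2 = 1 / 2 := by
    rw [Real.sq_sqrt (by norm_num)]
    norm_num
  -- adjacent pairs
  have e1 : ∀ u v : V, ∀ᶠ ε : ℝ in 𝓝[>] (0 : ℝ), u ≠ v → G.Adj u v →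
      ε ^ 2 * γ < ⟪vec cls σ y h ε u, vec cls σ y h ε v⟫ := by
    intro u v
    by_cases hcl : cls u = cls v
    · by_cases huv : u ≠ v ∧ G.Adj u v
      · have h1 : σ u = σ v := (hsame u v huv.1 hcl).1 huv.2
        have h2 : ∀ᶠ ε : ℝ in 𝓝 (0 : ℝ), ε ^ 2 * γ < ⟪vec cls σ y h ε u, vec cls σ y h ε v⟫ := by
          refine hthr.continuousAt.eventually_lt (cont_inner cls σ y h u v).continuousAt ?_
          rw [inner_zero, if_pos hcl, hσσ u v h1]
          norm_num
        exact (h2.filter_mono hle).mono fun ε hε _ _ => hε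
      · exact Eventually.of_forall fun ε h1 h2 => absurd ⟨h1, h2⟩ huv
    · by_cases huv : G.Adj u v
      · have h2 : ∀ᶠ ε : ℝ in 𝓝 (0 : ℝ), γ < σ u * σ v * ((h u (cls v) + h v (cls u) +
            ∑ t, y u t * y v t) + ε ^ 2 * ∑ k, h u k * h v k) / (√(q y h u ε) * √(q y h v ε)) := by
          refine continuousAt_const.eventually_lt (hg u v).continuousAt ?_
          rw [hg0]
          exact hadj u v hcl huv
        filter_upwards [h2.filter_mono hle, hpos] with ε hε hε0 _ _
        rw [hI u v ε hcl]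
        exact mul_lt_mul_of_pos_left hε (by positivity)
      · exact Eventually.of_forall fun ε _ h2 => absurd h2 huv
  have e2 : ∀ u v : V, ∀ᶠ ε : ℝ in 𝓝[>] (0 : ℝ), u ≠ v → ¬ G.Adj u v →
      ⟪vec cls σ y h ε u, vec cls σ y h ε v⟫ < ε ^ 2 * γ := by
    intro u v
    by_cases hcl : cls u = cls v
    · by_cases huv : u ≠ v ∧ ¬ G.Adj u v
      · have h1 : σ u ≠ σ v := fun h1 => huv.2 ((hsame u v huv.1 hcl).2 h1)
        have h2 : ∀ᶠ ε : ℝ in 𝓝 (0 : ℝ), ⟪vec cls σ y h ε u, vec cls σ y h ε v⟫ < ε ^ 2 * γ := by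
          refine (cont_inner cls σ y h u v).continuousAt.eventually_lt hthr.continuousAt ?_
          rw [inner_zero, if_pos hcl, hσσ' u v h1]
          norm_num
        exact (h2.filter_mono hle).mono fun ε hε _ _ => hε
      · exact Eventually.of_forall fun ε h1 h2 => absurd ⟨h1, h2⟩ huv
    · by_cases huv : ¬ G.Adj u v
      · have h2 : ∀ᶠ ε : ℝ in 𝓝 (0 : ℝ), σ u * σ v * ((h u (cls v) + h v (cls u) +
            ∑ t, y u t * y v t) + ε ^ 2 * ∑ k, h u k * h v k) / (√(q y h u ε) * √(q y h v ε)) < γ := by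
          refine (hg u v).continuousAt.eventually_lt continuousAt_const ?_
          rw [hg0]
          exact hnadj u v hcl huv
        filter_upwards [h2.filter_mono hle, hpos] with ε hε hε0 _ _
        rw [hI u v ε hcl]
        exact mul_lt_mul_of_pos_left hε (by positivity)
      · exact Eventually.of_forall fun ε _ h2 => absurd h2 huv
  -- different vertices of different classes have different vectors
  have e3 : ∀ u v : V, ∀ᶠ ε : ℝ in 𝓝[>] (0 : ℝ), cls u ≠ cls v →
      ⟪vec cls σ y h ε u, vec cls σ y h ε v⟫ < 1 := by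
    intro u v
    by_cases hcl : cls u = cls v
    · exact Eventually.of_forall fun ε h1 => absurd hcl h1
    · have h2 : ∀ᶠ ε : ℝ in 𝓝 (0 : ℝ), ⟪vec cls σ y h ε u, vec cls σ y h ε v⟫ < 1 := by
        refine (cont_inner cls σ y h u v).continuousAt.eventually_lt continuousAt_const ?_
        rw [inner_zero, if_neg hcl]
        norm_num
      exact (h2.filter_mono hle).mono fun ε hε _ => hε
  have e4 : ∀ᶠ ε : ℝ in 𝓝[>] (0 : ℝ), ε ^ 2 * γ < 1 := by
    refine Eventually.filter_mono hle (hthr.continuousAt.eventually_lt continuousAt_const ?_)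
    norm_num
  -- the coordinate of the projection point
  have e5 : ∀ v : V, ∀ᶠ ε : ℝ in 𝓝[>] (0 : ℝ),
      vec cls σ y h ε v (Sum.inl k₀) ≠ √((1 + ε ^ 2 * γ) / 2) := by
    intro v
    have hc : Continuous fun ε : ℝ => vec cls σ y h ε v (Sum.inl k₀) := by
      have h1 : (fun ε : ℝ => vec cls σ y h ε v (Sum.inl k₀)) = fun ε : ℝ =>
          σ v * ((if k₀ = cls v then 1 else 0) + ε ^ 2 * h v k₀) / √(q y h v ε) := rfl
      rw [h1]
      refine Continuous.div (by fun_prop) (cont_n y h v) fun ε => ?_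
      have h2 := one_le_n y h v ε
      positivity
    have h1 : vec cls σ y h 0 v (Sum.inl k₀) ≠ √((1 + (0 : ℝ) ^ 2 * γ) / 2) := by
      intro hcon
      have h2 : vec cls σ y h 0 v (Sum.inl k₀) = σ v * (if k₀ = cls v then 1 else 0) := by
        change σ v * ((if k₀ = cls v then 1 else 0) + (0 : ℝ) ^ 2 * h v k₀) / √(q y h v 0) = _
        rw [n_zero]
        norm_num
      have h3 := congrArg (fun x : ℝ => x ^ 2) hcon
      simp only [hH0, h2] at h3
      have h4 : σ v ^ 2 = 1 := by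
        rcases hσ v with h5 | h5 <;> rw [h5] <;> norm_num
      rw [mul_pow, h4] at h3
      split_ifs at h3 <;> norm_num at h3
    have hd : Continuous fun ε : ℝ => vec cls σ y h ε v (Sum.inl k₀) - √((1 + ε ^ 2 * γ) / 2) :=
      hc.sub hHc
    have h6 : ∀ᶠ ε : ℝ in 𝓝 (0 : ℝ), vec cls σ y h ε v (Sum.inl k₀) - √((1 + ε ^ 2 * γ) / 2) ≠ 0 :=
      hd.continuousAt.eventually_ne (sub_ne_zero.2 h1)
    exact (h6.filter_mono hle).mono fun ε hε => sub_ne_zero.1 hε
  have eall := ((((eventually_all.2 fun u => eventually_all.2 (e1 u)).and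
    (eventually_all.2 fun u => eventually_all.2 (e2 u))).and
    (eventually_all.2 fun u => eventually_all.2 (e3 u))).and (e4.and (eventually_all.2 e5))).and hpos
  obtain ⟨ε, ⟨⟨⟨⟨h1, h2⟩, h3⟩, h4, h5⟩, hε⟩⟩ := eall.exists
  have hT : 2 * √((1 + ε ^ 2 * γ) / 2) ^ 2 - 1 = ε ^ 2 * γ := by
    rw [Real.sq_sqrt (by positivity)]
    ring
  have hnorm : ∀ v, ‖vec cls σ y h ε v‖ = 1 := by
    intro v
    have h6 : ⟪vec cls σ y h ε v, vec cls σ y h ε v⟫ = 1 := by
      rw [inner_vec, if_pos rfl, h0 v, Real.mul_self_sqrt (zero_le_one.trans (one_le_q y h v ε)),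
        hσσ v v rfl]
      rw [div_eq_one_iff_eq (zero_lt_one.trans_le (one_le_q y h v ε)).ne']
      unfold q
      simp only [sq]
      ring
    rw [real_inner_self_eq_norm_sq] at h6
    nlinarith [norm_nonneg (vec cls σ y h ε v)]
  have key := InSphereInj_of_caps (ι := κ ⊕ τ) G (by rw [Fintype.card_sum]; exact hcard)
    (Sum.inl k₀) (vec cls σ y h ε) hnorm (√((1 + ε ^ 2 * γ) / 2)) (Real.sqrt_pos.2 (by positivity))
    (by
      rw [Real.sqrt_lt' one_pos]
      linarith)
    h5
    (by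
      intro u v huv heq
      by_cases hcl : cls u = cls v
      · have h6 : ∀ i, w cls σ y h ε u i / √(q y h u ε) = w cls σ y h ε v i / √(q y h v ε) := by
          intro i
          exact congrArg (fun x : EuclideanSpace ℝ (κ ⊕ τ) => x i) heq
        have h7 := h6 (Sum.inl (cls u))
        simp only [w, Sum.elim_inl, if_true] at h7
        rw [h0 u, hcl, h0 v] at h7
        simp only [if_true, mul_zero, add_zero, mul_one] at h7
        have n1 := one_le_n y h u ε
        have n2 := one_le_n y h v ε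
        by_cases hs : σ u = σ v
        · have hσ0 : σ v ≠ 0 := by
            rcases hσ v with h8 | h8 <;> rw [h8] <;> norm_num
          have h8 : √(q y h u ε) = √(q y h v ε) := by
            rw [hs, div_eq_div_iff (by positivity) (by positivity)] at h7
            exact (mul_left_cancel₀ hσ0 h7).symm
          apply hdist u v huv hcl hs
          funext t
          have h9 := h6 (Sum.inr t)
          simp only [w, Sum.elim_inr] at h9
          rw [h8, hs, div_left_inj' (by positivity)] at h9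
          exact mul_left_cancel₀ hε.ne' (mul_left_cancel₀ hσ0 h9)
        · have h8 := hσσ' u v hs
          have h9 : σ u / √(q y h u ε) * (σ v / √(q y h v ε)) < 0 := by
            rw [div_mul_div_comm, h8]
            apply div_neg_of_neg_of_pos (by norm_num)
            positivity
          rw [h7] at h9
          exact absurd h9 (not_lt.2 (mul_self_nonneg _))
      · have h6 := h3 u v hcl
        rw [heq, real_inner_self_eq_norm_sq, hnorm v] at h6
        norm_num at h6)
    (by
      intro u v huv ha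
      rw [hT]
      exact h1 u v huv ha)
    (by
      intro u v huv ha
      rw [hT]
      exact h2 u v huv ha)
  rw [Fintype.card_sum] at key
  exact key

end SphereDim
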