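import Mathlib
import Pool.Agent.Lib.MP_2be980_co.Defs
import Pool.Agent.Lib.MP_2be980_co.GenPos
import Pool.Agent.Lib.MP_2be980_co.Limit

open Finset
open scoped BigOperators

namespace SphereDim

/-- Sign of a pair: `1` for edges, `-1` otherwise. -/
noncomputable def sg {V : Type} (G : SimpleGraph V) (u v : V) : ℝ :=
  by classical exact if G.Adj u v then 1 else -1

/-- `(i, j), (k, l)` is a bad pair of pairs: all four triples have negative product. -/
def Bad {V : Type} (G : SimpleGraph V) (i j k l : V) : Prop :=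
  sg G i j * sg G j k * sg G i k = -1 ∧ sg G i j * sg G j l * sg G i l = -1 ∧
  sg G i k * sg G k l * sg G i l = -1 ∧ sg G j k * sg G k l * sg G j l = -1

theorem sg_comm {V : Type} (G : SimpleGraph V) (u v : V) : sg G u v = sg G v u := by
  classical
  unfold sg
  by_cases h : G.Adj u v
  · rw [if_pos h, if_pos h.symm]
  · rw [if_neg h, if_neg fun h2 => h h2.symm]

theorem sg_cases {V : Type} (G : SimpleGraph V) (u v : V) : sg G u v = 1 ∨ sg G u v = -1 := by
  classical
  unfold sg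
  split_ifs <;> simp

theorem sg_eq_one {V : Type} (G : SimpleGraph V) (u v : V) : sg G u v = 1 ↔ G.Adj u v := by
  classical
  unfold sg
  split_ifs with h <;> simp [h] <;> norm_num

theorem sg_of_adj {V : Type} (G : SimpleGraph V) {u v : V} (h : G.Adj u v) : sg G u v = 1 :=
  (sg_eq_one G u v).2 h

theorem sg_of_not_adj {V : Type} (G : SimpleGraph V) {u v : V} (h : ¬ G.Adj u v) :
    sg G u v = -1 := by
  rcases sg_cases G u v with h1 | h1
  · exact absurd ((sg_eq_one G u v).1 h1) h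
  · exact h1

theorem Bad_symm {V : Type} (G : SimpleGraph V) {i j k l : V} (h : Bad G i j k l) :
    Bad G k l i j := by
  obtain ⟨h1, h2, h3, h4⟩ := h
  refine ⟨?_, ?_, ?_, ?_⟩
  · rw [sg_comm G l i, sg_comm G k i]
    linarith
  · rw [sg_comm G l j, sg_comm G k j]
    linarith
  · rw [sg_comm G k i, sg_comm G k j]
    linarith
  · rw [sg_comm G l i, sg_comm G l j]
    linarith

/-- The numerical heart of the pairing construction. -/
theorem sign_lemma (A B C D L Y : ℝ) (hA : A = 1 ∨ A = -1) (hB : B = 1 ∨ B = -1)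
    (hC : C = 1 ∨ C = -1) (hD : D = 1 ∨ D = -1) (hL : 2 * |Y| < L)
    (hbad : B = -A → C = -A → D = A → 0 < A * Y) :
    0 < A * (L / 4 * (3 * A + B + C - D) + Y) := by
  have h1 := le_abs_self Y
  have h2 := neg_abs_le Y
  have h3 := abs_nonneg Y
  rcases hA with rfl | rfl <;> rcases hB with rfl | rfl <;> rcases hC with rfl | rfl <;>
    rcases hD with rfl | rfl <;> norm_num at hbad ⊢ <;> linarith


/-- Algebra behind bad pairs. -/
theorem bad_algebra (ij kl ik il jk jl : ℝ) (hij : ij ^ 2 = 1) (hkl : kl ^ 2 = 1)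
    (hik : ik ^ 2 = 1) (h1 : kl * il = -ik) (h2 : ij * jk = -ik) (h3 : ij * kl * jl = ik) :
    ij * jk * ik = -1 ∧ ij * jl * il = -1 ∧ ik * kl * il = -1 ∧ jk * kl * jl = -1 := by
  refine ⟨?_, ?_, ?_, ?_⟩
  · linear_combination ik * h2 - hik
  · linear_combination (kl * il) * h3 + ik * h1 - hik - ij * jl * il * hkl
  · linear_combination ik * h1 - hik
  · linear_combination (ij * kl * jl) * h2 - ik * h3 - hik - jk * kl * jl * hij

theorem sg_sq {V : Type} (G : SimpleGraph V) (u v : V) : sg G u v ^ 2 = 1 := by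
  rcases sg_cases G u v with h | h <;> rw [h] <;> norm_num

section Model

variable {Q S : Type}

/-- Partner involution of the model `(Q ⊕ Q) ⊕ S`. -/
def par : (Q ⊕ Q) ⊕ S → (Q ⊕ Q) ⊕ S
  | .inl (.inl a) => .inl (.inr a)
  | .inl (.inr a) => .inl (.inl a)
  | .inr s => .inr s

/-- Class of a vertex of the model. -/
def mcls : (Q ⊕ Q) ⊕ S → Q ⊕ S
  | .inl (.inl a) => .inl a
  | .inl (.inr a) => .inl a
  | .inr s => .inr s

/-- Representative of a class. -/
def mrep : Q ⊕ S → (Q ⊕ Q) ⊕ S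
  | .inl a => .inl (.inl a)
  | .inr s => .inr s

/-- Sign of a vertex of the model. -/
noncomputable def msig (G : SimpleGraph ((Q ⊕ Q) ⊕ S)) : (Q ⊕ Q) ⊕ S → ℝ
  | .inl (.inl _) => 1
  | .inl (.inr a) => sg G (.inl (.inl a)) (.inl (.inr a))
  | .inr _ => 1

/-- Second sign of a vertex of the model. -/
noncomputable def mtau : (Q ⊕ Q) ⊕ S → ℝ
  | .inl (.inl _) => 1
  | .inl (.inr _) => -1
  | .inr _ => 0

/-- Auxiliary vector of a vertex of the model. -/
noncomputable def mvec {r : ℕ} (y : Q → Fin r → ℝ) : (Q ⊕ Q) ⊕ S → Fin r → ℝ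
  | .inl (.inl a) => y a
  | .inl (.inr a) => fun j => - y a j
  | .inr _ => fun _ => 0

theorem par_par (v : (Q ⊕ Q) ⊕ S) : par (par v) = v := by
  rcases v with (a | a) | s <;> rfl

theorem mrep_mcls (v : (Q ⊕ Q) ⊕ S) : mrep (mcls v) = v ∨ mrep (mcls v) = par v := by
  rcases v with (a | a) | s
  · exact Or.inl rfl
  · exact Or.inr rfl
  · exact Or.inl rfl

theorem msig_cases (G : SimpleGraph ((Q ⊕ Q) ⊕ S)) (v : (Q ⊕ Q) ⊕ S) :
    msig G v = 1 ∨ msig G v = -1 := by
  rcases v with (a | a) | s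
  · exact Or.inl rfl
  · exact sg_cases _ _ _
  · exact Or.inl rfl

/-- Normalised sign. -/
noncomputable def sp (G : SimpleGraph ((Q ⊕ Q) ⊕ S)) (u v : (Q ⊕ Q) ⊕ S) : ℝ :=
  msig G u * msig G v * sg G u v

theorem sp_cases (G : SimpleGraph ((Q ⊕ Q) ⊕ S)) (u v : (Q ⊕ Q) ⊕ S) :
    sp G u v = 1 ∨ sp G u v = -1 := by
  unfold sp
  rcases msig_cases G u with h1 | h1 <;> rcases msig_cases G v with h2 | h2 <;>
    rcases sg_cases G u v with h3 | h3 <;> rw [h1, h2, h3] <;> norm_num

theorem sp_comm (G : SimpleGraph ((Q ⊕ Q) ⊕ S)) (u v : (Q ⊕ Q) ⊕ S) :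
    sp G u v = sp G v u := by
  unfold sp
  rw [sg_comm G u v]
  ring

/-- The second order coefficients. -/
noncomputable def mH (G : SimpleGraph ((Q ⊕ Q) ⊕ S)) (L : ℝ) (u v : (Q ⊕ Q) ⊕ S) : ℝ :=
  L * ((sp G u v + sp G u (par v)) / 2 -
    (sp G u v + sp G u (par v) + sp G (par u) v + sp G (par u) (par v)) / 8)

theorem mH_par (G : SimpleGraph ((Q ⊕ Q) ⊕ S)) (L : ℝ) (u v : (Q ⊕ Q) ⊕ S) :
    mH G L u (par v) = mH G L u v := by
  unfold mH
  rw [par_par]
  ring

theorem mH_rep (G : SimpleGraph ((Q ⊕ Q) ⊕ S)) (L : ℝ) (u v : (Q ⊕ Q) ⊕ S) :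
    mH G L u (mrep (mcls v)) = mH G L u v := by
  rcases mrep_mcls v with h | h
  · rw [h]
  · rw [h, mH_par]

theorem mH_add (G : SimpleGraph ((Q ⊕ Q) ⊕ S)) (L : ℝ) (u v : (Q ⊕ Q) ⊕ S) :
    mH G L u v + mH G L v u =
      L / 4 * (3 * sp G u v + sp G u (par v) + sp G (par u) v - sp G (par u) (par v)) := by
  unfold mH
  rw [sp_comm G v u, sp_comm G v (par u), sp_comm G (par v) u, sp_comm G (par v) (par u)]
  ring

theorem mvec_mul {r : ℕ} (y : Q → Fin r → ℝ) (a b : Q) (u v : (Q ⊕ Q) ⊕ S)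
    (hu : u = .inl (.inl a) ∨ u = .inl (.inr a)) (hv : v = .inl (.inl b) ∨ v = .inl (.inr b)) :
    ∑ t, mvec y u t * mvec y v t = mtau u * mtau v * ∑ t, y a t * y b t := by
  rw [Finset.mul_sum]
  refine Finset.sum_congr rfl fun t _ => ?_
  rcases hu with rfl | rfl <;> rcases hv with rfl | rfl <;> simp [mvec, mtau]

/-- The model case of the pairing construction. -/
theorem model_pairs [Fintype Q] [DecidableEq Q] [Fintype S] [DecidableEq S]
    (G : SimpleGraph ((Q ⊕ Q) ⊕ S)) (r : ℕ) (hr : 1 ≤ r)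
    (hbad : ∀ a : Q, Nat.card {b : Q // b ≠ a ∧ Bad G (.inl (.inl a)) (.inl (.inr a))
      (.inl (.inl b)) (.inl (.inr b))} ≤ r)
    (hcard : 3 ≤ Fintype.card (Q ⊕ S) + r) :
    InSphereInj (Fintype.card (Q ⊕ S) + r - 1) G := by
  classical
  rcases isEmpty_or_nonempty (Q ⊕ S) with hE | ⟨⟨k₀⟩⟩
  · have hE2 : IsEmpty ((Q ⊕ Q) ⊕ S) := by
      refine ⟨fun v => hE.false (mcls v)⟩
    exact ⟨fun v => hE2.elim v, fun v => hE2.elim v, fun v => hE2.elim v,
      fun v => hE2.elim v, fun v => hE2.elim v⟩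
  -- the bad graph
  let B : SimpleGraph Q :=
    { Adj := fun a b => a ≠ b ∧ Bad G (.inl (.inl a)) (.inl (.inr a))
        (.inl (.inl b)) (.inl (.inr b))
      symm := ⟨fun a b h => ⟨h.1.symm, Bad_symm G h.2⟩⟩
      loopless := ⟨fun a h => h.1 rfl⟩ }
  have hdeg : ∀ a, B.degree a ≤ r := by
    intro a
    refine le_trans (le_of_eq ?_) (hbad a)
    rw [← SimpleGraph.card_neighborSet_eq_degree, ← Nat.card_eq_fintype_card]
    refine Nat.card_congr (Equiv.subtypeEquivRight fun b => ?_)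
    show B.Adj a b ↔ _
    exact ⟨fun h => ⟨h.1.symm, h.2⟩, fun h => ⟨h.1.symm, h.2⟩⟩
  obtain ⟨y, hy0, hy⟩ := exists_vectors B
    (fun a b => sg G (.inl (.inl a)) (.inl (.inl b))) (fun a b => sg_comm G _ _)
    (fun a b _ => by
      rcases sg_cases G (.inl (.inl a)) (.inl (.inl b)) with h | h <;> rw [h] <;> norm_num)
    r hr hdeg
  set L : ℝ := 1 + ∑ u : (Q ⊕ Q) ⊕ S, ∑ v : (Q ⊕ Q) ⊕ S, 2 * |∑ t, mvec y u t * mvec y v t|
    with hL
  have hLY : ∀ u v : (Q ⊕ Q) ⊕ S, 2 * |∑ t, mvec y u t * mvec y v t| < L := by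
    intro u v
    have h1 : 2 * |∑ t, mvec y u t * mvec y v t| ≤
        ∑ v : (Q ⊕ Q) ⊕ S, 2 * |∑ t, mvec y u t * mvec y v t| :=
      Finset.single_le_sum (f := fun v => 2 * |∑ t, mvec y u t * mvec y v t|)
        (fun _ _ => by positivity) (Finset.mem_univ v)
    have h2 : ∑ v : (Q ⊕ Q) ⊕ S, 2 * |∑ t, mvec y u t * mvec y v t| ≤
        ∑ u : (Q ⊕ Q) ⊕ S, ∑ v : (Q ⊕ Q) ⊕ S, 2 * |∑ t, mvec y u t * mvec y v t| :=
      Finset.single_le_sum
        (f := fun u => ∑ v : (Q ⊕ Q) ⊕ S, 2 * |∑ t, mvec y u t * mvec y v t|)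
        (fun _ _ => by positivity) (Finset.mem_univ u)
    linarith
  -- the key sign
  have key : ∀ u v : (Q ⊕ Q) ⊕ S, mcls u ≠ mcls v → 0 < sp G u v *
      (mH G L u v + mH G L v u + ∑ t, mvec y u t * mvec y v t) := by
    intro u v huv
    rw [mH_add]
    refine sign_lemma _ _ _ _ _ _ (sp_cases G _ _) (sp_cases G _ _) (sp_cases G _ _)
      (sp_cases G _ _) (hLY u v) ?_
    intro hB hC hD
    rcases u with u0 | s
    swap
    · exfalso
      have h1 : sp G (par (.inr s)) v = sp G (.inr s) v := rfl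
      rw [h1] at hC
      rcases sp_cases G (.inr s) v with h | h <;> rw [h] at hC <;> norm_num at hC
    rcases v with v0 | s
    swap
    · exfalso
      have h1 : sp G (.inl u0) (par (.inr s)) = sp G (.inl u0) (.inr s) := rfl
      rw [h1] at hB
      rcases sp_cases G (.inl u0) (.inr s) with h | h <;> rw [h] at hB <;> norm_num at hB
    obtain ⟨a, ha⟩ : ∃ a, u0 = .inl a ∨ u0 = .inr a := by
      rcases u0 with a | a
      · exact ⟨a, Or.inl rfl⟩
      · exact ⟨a, Or.inr rfl⟩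
    obtain ⟨b, hb⟩ : ∃ b, v0 = .inl b ∨ v0 = .inr b := by
      rcases v0 with b | b
      · exact ⟨b, Or.inl rfl⟩
      · exact ⟨b, Or.inr rfl⟩
    have hab : a ≠ b := by
      rintro rfl
      rcases ha with rfl | rfl <;> rcases hb with rfl | rfl <;> exact huv rfl
    rw [mvec_mul y a b _ _ (by rcases ha with rfl | rfl <;> simp)
      (by rcases hb with rfl | rfl <;> simp)]
    -- the four normalised signs of the pair of blocks
    have q1 : sp G (.inl (.inl a)) (.inl (.inl b)) =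
        sg G (.inl (.inl a)) (.inl (.inl b)) := by
      simp [sp, msig]
    have q2 : sp G (.inl (.inl a)) (.inl (.inr b)) =
        sg G (.inl (.inl b)) (.inl (.inr b)) * sg G (.inl (.inl a)) (.inl (.inr b)) := by
      simp [sp, msig]
    have q3 : sp G (.inl (.inr a)) (.inl (.inl b)) =
        sg G (.inl (.inl a)) (.inl (.inr a)) * sg G (.inl (.inr a)) (.inl (.inl b)) := by
      simp [sp, msig]
    have q4 : sp G (.inl (.inr a)) (.inl (.inr b)) =
        sg G (.inl (.inl a)) (.inl (.inr a)) * sg G (.inl (.inl b)) (.inl (.inr b)) *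
          sg G (.inl (.inr a)) (.inl (.inr b)) := by
      simp [sp, msig]
    -- alternating pattern at the representatives
    have alt : sp G (.inl (.inl a)) (.inl (.inr b)) = - sp G (.inl (.inl a)) (.inl (.inl b)) ∧
        sp G (.inl (.inr a)) (.inl (.inl b)) = - sp G (.inl (.inl a)) (.inl (.inl b)) ∧
        sp G (.inl (.inr a)) (.inl (.inr b)) = sp G (.inl (.inl a)) (.inl (.inl b)) ∧
        sp G (.inl u0) (.inl v0) = mtau (.inl u0 : (Q ⊕ Q) ⊕ S) * mtau (.inl v0 : (Q ⊕ Q) ⊕ S) *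
          sp G (.inl (.inl a)) (.inl (.inl b)) := by
      rcases ha with rfl | rfl <;> rcases hb with rfl | rfl <;>
        simp only [par, mtau] at hB hC hD ⊢ <;>
        refine ⟨?_, ?_, ?_, ?_⟩ <;> linarith
    obtain ⟨a1, a2, a3, a4⟩ := alt
    have hbadab : Bad G (.inl (.inl a)) (.inl (.inr a)) (.inl (.inl b)) (.inl (.inr b)) := by
      rw [q1, q2] at a1
      rw [q1, q3] at a2
      rw [q1, q4] at a3
      exact bad_algebra _ _ _ _ _ _ (sg_sq G _ _) (sg_sq G _ _) (sg_sq G _ _) a1 a2 a3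
    have hpos := hy a b ⟨hab, hbadab⟩
    rw [a4, q1]
    have ht2 : (mtau (.inl u0 : (Q ⊕ Q) ⊕ S)) ^ 2 = 1 := by
      rcases ha with rfl | rfl <;> simp [mtau]
    have ht3 : (mtau (.inl v0 : (Q ⊕ Q) ⊕ S)) ^ 2 = 1 := by
      rcases hb with rfl | rfl <;> simp [mtau]
    have : mtau (.inl u0 : (Q ⊕ Q) ⊕ S) * mtau (.inl v0 : (Q ⊕ Q) ⊕ S) *
        sg G (.inl (.inl a)) (.inl (.inl b)) *
        (mtau (.inl u0 : (Q ⊕ Q) ⊕ S) * mtau (.inl v0 : (Q ⊕ Q) ⊕ S) * ∑ t, y a t * y b t) =
        (mtau (.inl u0 : (Q ⊕ Q) ⊕ S)) ^ 2 * (mtau (.inl v0 : (Q ⊕ Q) ⊕ S)) ^ 2 *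
        (sg G (.inl (.inl a)) (.inl (.inl b)) * ∑ t, y a t * y b t) := by ring
    rw [this, ht2, ht3, one_mul, one_mul]
    exact hpos
  have hcard2 : 3 ≤ Fintype.card (Q ⊕ S) + Fintype.card (Fin r) := by
    rw [Fintype.card_fin]
    exact hcard
  have main := InSphereInj_of_limit G k₀ hcard2 mcls (msig G) (msig_cases G) (mvec y)
    (fun u k => if mcls u = k then 0 else mH G L u (mrep k)) (fun v => if_pos rfl) 0 le_rfl
    ?_ ?_ ?_ ?_
  · rw [Fintype.card_fin] at main
    exact main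
  · -- same class
    intro u v huv hc
    rcases u with (a | a) | s <;> rcases v with (b | b) | s' <;>
      simp only [mcls, Sum.inl.injEq, Sum.inr.injEq, reduceCtorEq] at hc <;> subst hc
    · exact absurd rfl huv
    · rw [← sg_eq_one]
      simp only [msig]
      exact eq_comm
    · rw [G.adj_comm, ← sg_eq_one]
      simp only [msig]
    · exact absurd rfl huv
    · exact absurd rfl huv
  · intro u v huv hc _ hne
    rcases u with (a | a) | s <;> rcases v with (b | b) | s' <;>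
      simp only [mcls, Sum.inl.injEq, Sum.inr.injEq, reduceCtorEq] at hc <;> subst hc
    · exact absurd rfl huv
    · apply hy0 a
      funext t
      have := congrFun hne t
      simp only [mvec] at this
      simp only [Pi.zero_apply]
      linarith
    · apply hy0 a
      funext t
      have := congrFun hne t
      simp only [mvec] at this
      simp only [Pi.zero_apply]
      linarith
    · exact absurd rfl huv
    · exact absurd rfl huv
  · intro u v huv hadj
    have h1 := key u v huv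
    rw [if_neg huv, if_neg huv.symm, mH_rep, mH_rep]
    have h2 : sp G u v = msig G u * msig G v := by
      rw [sp, sg_of_adj G hadj, mul_one]
    rw [h2] at h1
    exact h1
  · intro u v huv hadj
    have h1 := key u v huv
    rw [if_neg huv, if_neg huv.symm, mH_rep, mH_rep]
    have h2 : sp G u v = -(msig G u * msig G v) := by
      rw [sp, sg_of_not_adj G hadj]
      ring
    rw [h2] at h1
    linarith

end Model

/-- Transport of sphere representations. -/
theorem InSphereInj_of_equiv {V W : Type} (e : W ≃ V) (G : SimpleGraph V) {d : ℕ}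
    (h : InSphereInj d (G.comap e)) : InSphereInj d G := by
  obtain ⟨c, ρ, h1, h2, h3⟩ := h
  refine ⟨c ∘ e.symm, ρ ∘ e.symm, fun v => h1 _, fun u v huv => ?_, fun u v huv => ?_⟩
  · exact h2 _ _ fun h => huv (e.symm.injective h)
  · have := h3 (e.symm u) (e.symm v) fun h => huv (e.symm.injective h)
    simpa using this

/-- Pairs `(i a, j a)`, `a ∈ Q`, pairwise disjoint; every pair has at most `r` bad partners. -/
theorem InSphereInj_of_pairs {V : Type} [Fintype V] [DecidableEq V] (G : SimpleGraph V)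
    {Q : Type} [Fintype Q] [DecidableEq Q] (i j : Q → V)
    (hinj : Function.Injective (Sum.elim i j)) (r : ℕ) (hr : 1 ≤ r)
    (hbad : ∀ a : Q, Nat.card {b : Q // b ≠ a ∧ Bad G (i a) (j a) (i b) (j b)} ≤ r)
    (hcard : 3 ≤ Fintype.card V - Fintype.card Q + r) :
    InSphereInj (Fintype.card V - Fintype.card Q + r - 1) G := by
  classical
  let e : (Q ⊕ Q) ⊕ ↥((Set.range (Sum.elim i j))ᶜ) ≃ V :=
    (Equiv.sumCongr (Equiv.ofInjective _ hinj) (Equiv.refl _)).trans
      (Equiv.Set.sumCompl (Set.range (Sum.elim i j)))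
  have he1 : ∀ a, e (.inl (.inl a)) = i a := fun a => by simp [e]
  have he2 : ∀ a, e (.inl (.inr a)) = j a := fun a => by simp [e]
  have hcardV : Fintype.card V = Fintype.card Q + Fintype.card (Q ⊕ ↥((Set.range (Sum.elim i j))ᶜ)) := by
    rw [← Fintype.card_congr e, Fintype.card_sum, Fintype.card_sum, Fintype.card_sum]
    ring
  have hsub : Fintype.card V - Fintype.card Q =
      Fintype.card (Q ⊕ ↥((Set.range (Sum.elim i j))ᶜ)) := by omega
  rw [hsub] at hcard ⊢
  apply InSphereInj_of_equiv e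
  refine model_pairs _ r hr ?_ hcard
  intro a
  refine le_trans (le_of_eq ?_) (hbad a)
  refine Nat.card_congr (Equiv.subtypeEquivRight fun b => ?_)
  have hsg : ∀ u v, sg (G.comap e) u v = sg G (e u) (e v) := fun u v => rfl
  simp only [Bad, hsg, he1, he2]

end SphereDim
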