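import Mathlib
import Pool.Agent.Lib.MP_2be980_co.Defs
import Pool.Agent.Lib.MP_2be980_co.PairRep

open MvPolynomial Metric Finset
open scoped BigOperators RealInnerProductSpace

namespace SphereDim

/-- A symmetric irreflexive relation with at least `g` ordered pairs on `Q` has a nonempty
part where all degrees are at least `g / (2 |Q|)`. -/
theorem exists_min_deg {Q : Type} [Fintype Q] [DecidableEq Q] [Nonempty Q] (R : Q → Q → Prop)
    [DecidableRel R] (hs : ∀ a b, R a b → R b a) (hi : ∀ a, ¬ R a a) (g : ℕ)
    (hg : g ≤ Nat.card {p : Q × Q // R p.1 p.2}) :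
    ∃ S : Finset Q, S.Nonempty ∧
      ∀ v ∈ S, g ≤ 2 * Fintype.card Q * (S.filter (R v)).card := by
  classical
  set q := Fintype.card Q with hq
  let E : Finset Q → ℕ := fun S => ∑ v ∈ S, (S.filter (R v)).card
  have hEuniv : Nat.card {p : Q × Q // R p.1 p.2} = E Finset.univ := by
    rw [Nat.card_eq_fintype_card, Fintype.card_subtype]
    simp only [E]
    rw [Finset.card_filter, ← Finset.univ_product_univ, Finset.sum_product]
    simp only [Finset.card_filter]
  have hErase : ∀ (S : Finset Q) (v : Q), v ∈ S →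
      E S = E (S.erase v) + 2 * (S.filter (R v)).card := by
    intro S v hv
    have h1 : ∀ u ∈ S.erase v, (S.filter (R u)).card
        = ((S.erase v).filter (R u)).card + (if R u v then 1 else 0) := by
      intro u hu
      rw [Finset.card_filter, Finset.card_filter, ← Finset.add_sum_erase S _ hv]
      ring
    have h2 : ∑ u ∈ S.erase v, (if R u v then 1 else 0) = (S.filter (R v)).card := by
      rw [Finset.card_filter, ← Finset.add_sum_erase S _ hv, if_neg (hi v), zero_add]
      refine Finset.sum_congr rfl fun u _ => ?_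
      by_cases h : R u v
      · rw [if_pos h, if_pos (hs _ _ h)]
      · rw [if_neg h, if_neg (fun h' => h (hs _ _ h'))]
    simp only [E]
    rw [← Finset.add_sum_erase S _ hv, Finset.sum_congr rfl h1, Finset.sum_add_distrib, h2]
    ring
  have hex : ∃ m : ℕ, ∃ S : Finset Q, S.Nonempty ∧ S.card = m ∧ g * S.card ≤ q * E S := by
    refine ⟨q, Finset.univ, Finset.univ_nonempty, Finset.card_univ, ?_⟩
    rw [Finset.card_univ, ← hEuniv, mul_comm]
    exact Nat.mul_le_mul_left _ hg
  obtain ⟨S, hSne, hSm, hSE⟩ := Nat.find_spec hex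
  have hmin : ∀ T : Finset Q, T.Nonempty → T.card < S.card → q * E T < g * T.card := by
    intro T hT hTS
    by_contra hcon
    push Not at hcon
    exact Nat.find_min hex (hSm ▸ hTS) ⟨T, hT, rfl, hcon⟩
  refine ⟨S, hSne, fun v hv => ?_⟩
  have hE := hErase S v hv
  rcases Finset.eq_empty_or_nonempty (S.erase v) with h0 | h0
  · have hc : S.card = 1 := by
      have := Finset.card_erase_of_mem hv
      rw [h0, Finset.card_empty] at this
      have := Finset.card_pos.mpr hSne
      omega
    have hE0 : E (S.erase v) = 0 := by rw [h0]; simp [E]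
    rw [hc, hE, hE0] at hSE
    calc g = g * 1 := by ring
      _ ≤ _ := hSE
      _ = _ := by ring
  · have h1 := hmin _ h0 (Finset.card_erase_lt_of_mem hv)
    rw [hE] at hSE
    have hc : S.card = (S.erase v).card + 1 := by
      rw [Finset.card_erase_of_mem hv]
      have := Finset.card_pos.mpr hSne
      omega
    rw [hc] at hSE
    nlinarith

theorem Bad.symm' {V : Type} {G : SimpleGraph V} {i j k l : V} (h : Bad G i j k l) :
    Bad G k l i j := by
  obtain ⟨h1, h2, h3, h4⟩ := h
  refine ⟨?_, ?_, ?_, ?_⟩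
  · rw [← h3, sg_comm G l i, sg_comm G k i]; ring
  · rw [← h4, sg_comm G l j, sg_comm G k j]; ring
  · rw [← h1, sg_comm G k i, sg_comm G k j]; ring
  · rw [← h2, sg_comm G l i, sg_comm G l j]; ring

/-- If `Q` pairs have at least `g` good (ordered) pairs of pairs, then
`d ≤ n - 1 - g / (2 |Q|)` suffices. -/
theorem InSphereInj_of_good {V : Type} [Fintype V] [DecidableEq V] (G : SimpleGraph V)
    {Q : Type} [Fintype Q] [DecidableEq Q] (i j : Q → V)
    (hinj : Function.Injective (Sum.elim i j)) (g : ℕ)
    (hg : g ≤ Nat.card {p : Q × Q // p.1 ≠ p.2 ∧ ¬ Bad G (i p.1) (j p.1) (i p.2) (j p.2)})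
    (hV : 8 ≤ Fintype.card V) :
    ∃ d, 2 ≤ d ∧ InSphereInj d G ∧
      2 * Fintype.card Q * d + g ≤ 2 * Fintype.card Q * (Fintype.card V - 1) := by
  classical
  have hQV : 2 * Fintype.card Q ≤ Fintype.card V := by
    have := Fintype.card_le_of_injective _ hinj
    rw [Fintype.card_sum] at this
    omega
  rcases isEmpty_or_nonempty Q with hE | hne
  · have hg0 : g = 0 := by
      have : Nat.card {p : Q × Q // p.1 ≠ p.2 ∧ ¬ Bad G (i p.1) (j p.1) (i p.2) (j p.2)} = 0 := by
        rw [Nat.card_eq_zero]
        left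
        exact ⟨fun p => hE.elim p.1.1⟩
      omega
    have hQ0 : Fintype.card Q = 0 := Fintype.card_eq_zero
    have := InSphereInj_of_pairs G i j hinj 1 le_rfl (fun a => (hE.elim a)) (by omega)
    refine ⟨_, ?_, this, ?_⟩
    · omega
    · rw [hQ0, hg0]; simp
  · obtain ⟨S, hSne, hS⟩ := exists_min_deg
      (fun a b : Q => a ≠ b ∧ ¬ Bad G (i a) (j a) (i b) (j b))
      (fun a b h => ⟨h.1.symm, fun h' => h.2 h'.symm'⟩) (fun a h => h.1 rfl) g hg
    obtain ⟨w, hwS, hw⟩ := Finset.exists_min_image S
      (fun v => (S.filter (fun b => v ≠ b ∧ ¬ Bad G (i v) (j v) (i b) (j b))).card) hSne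
    set δ := (S.filter (fun b => w ≠ b ∧ ¬ Bad G (i w) (j w) (i b) (j b))).card with hδ
    have hgδ := hS w hwS
    have hdeg : ∀ a : {x // x ∈ S}, Nat.card {b : {x // x ∈ S} // b ≠ a ∧
        Bad G (i a.1) (j a.1) (i b.1) (j b.1)} + δ + 1 ≤ S.card := by
      intro a
      have h1 : Nat.card {b : {x // x ∈ S} // b ≠ a ∧ Bad G (i a.1) (j a.1) (i b.1) (j b.1)}
          = (S.filter (fun b => b ≠ a.1 ∧ Bad G (i a.1) (j a.1) (i b) (j b))).card := by
        rw [Nat.card_eq_fintype_card, Fintype.card_subtype]
        refine Finset.card_bij (fun b _ => b.1) ?_ ?_ ?_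
        · intro b hb
          simp only [Finset.mem_filter, Finset.mem_univ, true_and] at hb ⊢
          exact ⟨b.2, fun h => hb.1 (Subtype.ext h), hb.2⟩
        · intro b _ c _ h
          exact Subtype.ext h
        · intro b hb
          simp only [Finset.mem_filter] at hb
          refine ⟨⟨b, hb.1⟩, ?_, rfl⟩
          simp only [Finset.mem_filter, Finset.mem_univ, true_and]
          exact ⟨fun h => hb.2.1 (congrArg Subtype.val h), hb.2.2⟩
      have h2 := hw a.1 a.2
      have hdisj : Disjoint (S.filter (fun b => b ≠ a.1 ∧ Bad G (i a.1) (j a.1) (i b) (j b)))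
          (S.filter (fun b => a.1 ≠ b ∧ ¬ Bad G (i a.1) (j a.1) (i b) (j b))) := by
        rw [Finset.disjoint_left]
        intro b hb hb'
        exact (Finset.mem_filter.mp hb').2.2 (Finset.mem_filter.mp hb).2.2
      have h3 : ((S.filter (fun b => b ≠ a.1 ∧ Bad G (i a.1) (j a.1) (i b) (j b)))
          ∪ (S.filter (fun b => a.1 ≠ b ∧ ¬ Bad G (i a.1) (j a.1) (i b) (j b)))) ⊆ S.erase a.1 := by
        intro b hb
        rcases Finset.mem_union.mp hb with hb | hb
        · exact Finset.mem_erase.mpr ⟨(Finset.mem_filter.mp hb).2.1, (Finset.mem_filter.mp hb).1⟩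
        · exact Finset.mem_erase.mpr ⟨(Finset.mem_filter.mp hb).2.1.symm,
            (Finset.mem_filter.mp hb).1⟩
      have h4 := Finset.card_le_card h3
      rw [Finset.card_union_of_disjoint hdisj, Finset.card_erase_of_mem a.2] at h4
      have h5 := Finset.card_pos.mpr hSne
      rw [h1]
      have h2' : δ ≤ (S.filter (fun b => a.1 ≠ b ∧ ¬ Bad G (i a.1) (j a.1) (i b) (j b))).card := h2
      omega
    have hcS : Fintype.card {x // x ∈ S} = S.card := Fintype.card_coe S
    have hSQ : S.card ≤ Fintype.card Q := Finset.card_le_univ S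
    have hinj' : Function.Injective (Sum.elim (fun a : {x // x ∈ S} => i a.1)
        (fun a : {x // x ∈ S} => j a.1)) := by
      have : Sum.elim (fun a : {x // x ∈ S} => i a.1) (fun a : {x // x ∈ S} => j a.1)
          = Sum.elim i j ∘ Sum.map Subtype.val Subtype.val := by
        ext x; rcases x with x | x <;> rfl
      rw [this]
      exact hinj.comp (Function.Injective.sumMap Subtype.val_injective Subtype.val_injective)
    have hwS' := hdeg ⟨w, hwS⟩
    have hmain := InSphereInj_of_pairs G (fun a : {x // x ∈ S} => i a.1)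
      (fun a : {x // x ∈ S} => j a.1) hinj' (max 1 (S.card - 1 - δ)) (le_max_left _ _)
      (fun a => by
        have := hdeg a
        exact le_trans (by omega) (le_max_right _ _))
      (by rw [hcS]; omega)
    rw [hcS] at hmain
    refine ⟨_, ?_, hmain, ?_⟩
    · omega
    · have hd : Fintype.card V - S.card + max 1 (S.card - 1 - δ) - 1 + δ
          ≤ Fintype.card V - 1 := by omega
      have hgδ' : g ≤ 2 * Fintype.card Q * δ := hgδ
      calc 2 * Fintype.card Q * (Fintype.card V - S.card + max 1 (S.card - 1 - δ) - 1) + g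
          ≤ 2 * Fintype.card Q * (Fintype.card V - S.card + max 1 (S.card - 1 - δ) - 1)
            + 2 * Fintype.card Q * δ := by omega
        _ = 2 * Fintype.card Q * (Fintype.card V - S.card + max 1 (S.card - 1 - δ) - 1 + δ) := by
            ring
        _ ≤ _ := Nat.mul_le_mul_left _ hd

end SphereDim
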