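import Mathlib
import Pool.Agent.Lib.MP_2be980_co.Defs
import Pool.Agent.Lib.MP_2be980_co.Limit

/-!
# MP_2be980_co, module U5: an independent set saves half of its size
-/

open MvPolynomial Metric Finset
open scoped BigOperators RealInnerProductSpace

namespace SphereDim

/-- An independent set saves half of its size. -/
theorem InSphereInj_of_indep {V : Type} [Fintype V] [DecidableEq V] (G : SimpleGraph V)
    {Q : Type} [Fintype Q] [DecidableEq Q] (i j : Q → V)
    (hinj : Function.Injective (Sum.elim i j))
    (hind : ∀ x y : Q ⊕ Q, ¬ G.Adj (Sum.elim i j x) (Sum.elim i j y))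
    (hcard : 3 ≤ Fintype.card V - Fintype.card Q) :
    InSphereInj (Fintype.card V - Fintype.card Q - 1) G := by
  classical
  set e : Q ⊕ Q → V := Sum.elim i j with he
  let S : Type := {v : V // ¬ ∃ x, e x = v}
  let cl0 : Q ⊕ Q → Q := Sum.elim id id
  let s0 : Q ⊕ Q → ℝ := Sum.elim (fun _ => 1) (fun _ => -1)
  let cls : V → Q ⊕ S := fun v =>
    if h : ∃ x, e x = v then Sum.inl (cl0 h.choose) else Sum.inr ⟨v, h⟩
  let σ : V → ℝ := fun v => if h : ∃ x, e x = v then s0 h.choose else 1
  let hh : V → Q ⊕ S → ℝ := fun v k => match k with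
    | Sum.inl _ => 0
    | Sum.inr w => if G.Adj v w.1 then (if ∃ x, e x = v then 2 * σ v else 1) else 0
  have hch : ∀ x, ∀ h : (∃ y, e y = e x), h.choose = x := fun x h => hinj h.choose_spec
  have hcls1 : ∀ x, cls (e x) = Sum.inl (cl0 x) := by
    intro x
    have h : ∃ y, e y = e x := ⟨x, rfl⟩
    simp only [cls]
    rw [dif_pos h, hch x h]
  have hσ1 : ∀ x, σ (e x) = s0 x := by
    intro x
    have h : ∃ y, e y = e x := ⟨x, rfl⟩
    simp only [σ]
    rw [dif_pos h, hch x h]
  have hcls2 : ∀ v, ∀ h : ¬ ∃ x, e x = v, cls v = Sum.inr ⟨v, h⟩ := by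
    intro v h
    simp only [cls]
    rw [dif_neg h]
  have hσ2 : ∀ v, (¬ ∃ x, e x = v) → σ v = 1 := by
    intro v h
    simp only [σ]
    rw [dif_neg h]
  have hs0 : ∀ x, s0 x = 1 ∨ s0 x = -1 := by
    rintro (x | x)
    · exact Or.inl rfl
    · exact Or.inr rfl
  have hσpm : ∀ v, σ v = 1 ∨ σ v = -1 := by
    intro v
    by_cases h : ∃ x, e x = v
    · obtain ⟨x, rfl⟩ := h
      rw [hσ1]; exact hs0 x
    · exact Or.inl (hσ2 v h)
  have hcardκ : Fintype.card (Q ⊕ S) = Fintype.card V - Fintype.card Q := by
    have h1 : Fintype.card V = Fintype.card {v : V // ∃ x, e x = v} + Fintype.card S := by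
      have := Fintype.card_subtype_compl (fun v : V => ∃ x, e x = v)
      have h2 := Fintype.card_subtype_le (fun v : V => ∃ x, e x = v)
      have h3 : Fintype.card S = Fintype.card V - Fintype.card {v : V // ∃ x, e x = v} := this
      omega
    have h2 : Fintype.card {v : V // ∃ x, e x = v} = Fintype.card (Q ⊕ Q) := by
      have h3 : Fintype.card (Q ⊕ Q) = Fintype.card (Set.range e) :=
        (Set.card_range_of_injective hinj).symm
      rw [h3]
      apply Fintype.card_congr
      exact Equiv.refl _
    rw [Fintype.card_sum] at h2 ⊢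
    omega
  have hnonempty : 0 < Fintype.card (Q ⊕ S) := by omega
  obtain ⟨k₀⟩ : Nonempty (Q ⊕ S) := Fintype.card_pos_iff.1 hnonempty
  have hmain := InSphereInj_of_limit (τ := Fin 0) G k₀
    (by rw [hcardκ, Fintype.card_fin]; omega) cls σ hσpm (fun _ _ => 0) hh ?_ 1 zero_le_one
    ?_ ?_ ?_ ?_
  · rw [hcardκ, Fintype.card_fin] at hmain
    exact hmain
  · -- h0
    intro v
    by_cases h : ∃ x, e x = v
    · obtain ⟨x, rfl⟩ := h
      rw [hcls1]
    · rw [hcls2 v h]
      simp [hh]
  · -- hsame
    intro u v huv hc
    by_cases h : ∃ x, e x = u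
    · obtain ⟨x, rfl⟩ := h
      by_cases h' : ∃ x, e x = v
      · obtain ⟨y, rfl⟩ := h'
        rw [hcls1, hcls1] at hc
        have hc' : cl0 x = cl0 y := Sum.inl_injective hc
        have hxy : x ≠ y := fun h => huv (by rw [h])
        constructor
        · intro h; exact absurd h (hind x y)
        · intro h
          exfalso
          rw [hσ1, hσ1] at h
          rcases x with x | x <;> rcases y with y | y
          · exact hxy (congrArg Sum.inl hc')
          · norm_num [s0] at h
          · norm_num [s0] at h
          · exact hxy (congrArg Sum.inr hc')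
      · rw [hcls1, hcls2 v h'] at hc
        exact absurd hc (by simp)
    · by_cases h' : ∃ x, e x = v
      · obtain ⟨y, rfl⟩ := h'
        rw [hcls1, hcls2 u h] at hc
        exact absurd hc (by simp)
      · rw [hcls2 u h, hcls2 v h'] at hc
        have := congrArg Subtype.val (Sum.inr_injective hc)
        exact absurd this huv
  · -- hdist
    intro u v huv hc hs
    exfalso
    by_cases h : ∃ x, e x = u
    · obtain ⟨x, rfl⟩ := h
      by_cases h' : ∃ x, e x = v
      · obtain ⟨y, rfl⟩ := h'
        rw [hcls1, hcls1] at hc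
        have hc' : cl0 x = cl0 y := Sum.inl_injective hc
        have hxy : x ≠ y := fun h => huv (by rw [h])
        rw [hσ1, hσ1] at hs
        rcases x with x | x <;> rcases y with y | y
        · exact hxy (congrArg Sum.inl hc')
        · norm_num [s0] at hs
        · norm_num [s0] at hs
        · exact hxy (congrArg Sum.inr hc')
      · rw [hcls1, hcls2 v h'] at hc
        exact absurd hc (by simp)
    · by_cases h' : ∃ x, e x = v
      · obtain ⟨y, rfl⟩ := h'
        rw [hcls1, hcls2 u h] at hc
        exact absurd hc (by simp)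
      · rw [hcls2 u h, hcls2 v h'] at hc
        have := congrArg Subtype.val (Sum.inr_injective hc)
        exact absurd this huv
  · -- adjacent
    intro u v hc ha
    simp only [mul_zero, Finset.sum_const_zero, add_zero]
    by_cases h : ∃ x, e x = u
    · obtain ⟨x, rfl⟩ := h
      by_cases h' : ∃ x, e x = v
      · obtain ⟨y, rfl⟩ := h'
        exact absurd ha (hind x y)
      · rw [hcls1, hcls2 v h', hσ2 v h']
        have hex : ∃ y, e y = e x := ⟨x, rfl⟩
        simp only [hh, if_pos ha, if_pos hex, add_zero]
        rcases hσpm (e x) with h | h <;> rw [h] <;> norm_num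
    · by_cases h' : ∃ x, e x = v
      · obtain ⟨y, rfl⟩ := h'
        rw [hcls1, hcls2 u h, hσ2 u h]
        have hex : ∃ x, e x = e y := ⟨y, rfl⟩
        simp only [hh, if_pos ha.symm, if_pos hex, zero_add]
        rcases hσpm (e y) with h | h <;> rw [h] <;> norm_num
      · rw [hcls2 u h, hcls2 v h', hσ2 u h, hσ2 v h']
        simp only [hh, if_pos ha, if_pos ha.symm, if_neg h, if_neg h']
        norm_num
  · -- not adjacent
    intro u v hc ha
    have ha' : ¬ G.Adj v u := fun h => ha h.symm
    simp only [mul_zero, Finset.sum_const_zero, add_zero]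
    have h1 : hh u (cls v) = 0 := by
      by_cases h' : ∃ x, e x = v
      · obtain ⟨y, rfl⟩ := h'
        rw [hcls1]
      · rw [hcls2 v h']
        simp only [hh, if_neg ha]
    have h2 : hh v (cls u) = 0 := by
      by_cases h' : ∃ x, e x = u
      · obtain ⟨y, rfl⟩ := h'
        rw [hcls1]
      · rw [hcls2 u h']
        simp only [hh, if_neg ha']
    rw [h1, h2]
    norm_num

end SphereDim
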