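import Mathlib
import Pool.Agent.Lib.MP_2be980_co.Indep
import Pool.Agent.Lib.MP_2be980_co.Good

/-!
# The linear upper bound for the sphere dimension (module U7)
-/

open Finset

namespace SphereDim

/-! ## the linear upper bound -/

namespace Up

variable {V : Type}

theorem sg_comm (G : SimpleGraph V) (u v : V) : sg G u v = sg G v u := by
  unfold sg
  by_cases h : G.Adj u v
  · rw [if_pos h, if_pos h.symm]
  · rw [if_neg h, if_neg (fun h' => h h'.symm)]

theorem sg_adj {G : SimpleGraph V} {u v : V} (h : G.Adj u v) : sg G u v = 1 := if_pos h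

theorem sg_not {G : SimpleGraph V} {u v : V} (h : ¬ G.Adj u v) : sg G u v = -1 := if_neg h

theorem bad_left {G : SimpleGraph V} {i j k l : V} (h : Bad G i j k l) : Bad G j i k l := by
  obtain ⟨h1, h2, h3, h4⟩ := h
  refine ⟨?_, ?_, h4, h3⟩
  · rw [sg_comm G j i]; linarith [mul_right_comm (sg G i j) (sg G j k) (sg G i k)]
  · rw [sg_comm G j i]; linarith [mul_right_comm (sg G i j) (sg G j l) (sg G i l)]

theorem bad_right {G : SimpleGraph V} {i j k l : V} (h : Bad G i j k l) : Bad G i j l k := by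
  obtain ⟨h1, h2, h3, h4⟩ := h
  refine ⟨h2, h1, ?_, ?_⟩
  · rw [sg_comm G l k, mul_right_comm] at *; linarith [mul_comm (sg G i l) (sg G i k)]
  · rw [sg_comm G l k, mul_right_comm] at *; linarith [mul_comm (sg G j l) (sg G j k)]

/-- positive triples -/
def Pos (G : SimpleGraph V) (a b c : V) : Prop :=
  a ≠ b ∧ b ≠ c ∧ a ≠ c ∧ sg G a b * sg G b c * sg G a c = 1

open Classical in
/-- the pairs `{i, t - i}` -/
theorem good_of_shift {n : ℕ} [NeZero n] (hn : 8 ≤ n) (G : SimpleGraph (Fin n))
    (hG : ∀ d, 2 ≤ d → 50 * d ≤ 49 * n → ¬ InSphereInj d G) (t : Fin n) :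
    50 * (univ.filter fun p : Fin n × Fin n => Pos G p.1 (t - p.1) p.2 ∧ p.2 + p.2 ≠ t).card
      ≤ 4 * n ^ 2 := by
  set S := univ.filter fun p : Fin n × Fin n => Pos G p.1 (t - p.1) p.2 ∧ p.2 + p.2 ≠ t with hS
  set Gd := univ.filter fun p : Fin n × Fin n => p.1 < t - p.1 ∧ p.2 < t - p.2 ∧ p.1 ≠ p.2 ∧
    ¬ Bad G p.1 (t - p.1) p.2 (t - p.2) with hGd
  have hlt : ∀ i : Fin n, i ≠ t - i → ¬ i < t - i → t - i < t - (t - i) := by
    intro i h1 h2
    rw [sub_sub_cancel]
    exact lt_of_le_of_ne (not_lt.1 h2) (fun h => h1 h.symm)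
  have h1 : S.card ≤ (Gd ×ˢ (univ : Finset (Bool × Bool))).card := by
    refine Finset.card_le_card_of_injOn
      (fun p => ((if p.1 < t - p.1 then p.1 else t - p.1, if p.2 < t - p.2 then p.2 else t - p.2),
        (decide (p.1 < t - p.1), decide (p.2 < t - p.2)))) ?_ ?_
    · rintro ⟨i, k⟩ hp
      rw [hS, Finset.mem_coe, Finset.mem_filter] at hp
      obtain ⟨-, ⟨hij, hjk, hik, hpos⟩, hk⟩ := hp
      dsimp only at hij hjk hik hpos hk
      have hkk : k ≠ t - k := by
        intro h
        exact hk (by rw [eq_sub_iff_add_eq] at h; exact h)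
      have hb : ¬ Bad G i (t - i) k (t - k) := by
        intro h
        have := h.1
        rw [hpos] at this
        norm_num at this
      rw [Finset.mem_coe, Finset.mem_product]
      refine ⟨?_, Finset.mem_univ _⟩
      rw [hGd, Finset.mem_filter]
      refine ⟨Finset.mem_univ _, ?_⟩
      dsimp only
      by_cases c1 : i < t - i <;> by_cases c2 : k < t - k
      · rw [if_pos c1, if_pos c2]
        exact ⟨c1, c2, hik, hb⟩
      · rw [if_pos c1, if_neg c2]
        refine ⟨c1, hlt k hkk c2, ?_, ?_⟩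
        · intro h
          apply hjk
          rw [h, sub_sub_cancel]
        · rw [sub_sub_cancel]
          exact fun h => hb (bad_right h)
      · rw [if_neg c1, if_pos c2]
        refine ⟨hlt i hij c1, c2, hjk, ?_⟩
        rw [sub_sub_cancel]
        exact fun h => hb (bad_left h)
      · rw [if_neg c1, if_neg c2]
        refine ⟨hlt i hij c1, hlt k hkk c2, ?_, ?_⟩
        · intro h
          exact hik (sub_right_injective h)
        · rw [sub_sub_cancel, sub_sub_cancel]
          exact fun h => hb (bad_left (bad_right h))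
    · have key : ∀ i i' : Fin n, (if i < t - i then i else t - i) =
          (if i' < t - i' then i' else t - i') → decide (i < t - i) = decide (i' < t - i') →
          i = i' := by
        intro i i' h1 h2
        have h3 : i < t - i ↔ i' < t - i' := by simpa using h2
        by_cases c : i < t - i
        · rw [if_pos c, if_pos (h3.1 c)] at h1
          exact h1
        · rw [if_neg c, if_neg (fun h => c (h3.2 h))] at h1
          exact sub_right_injective h1
      rintro ⟨i, k⟩ - ⟨i', k'⟩ - h
      rw [Prod.mk.injEq, Prod.mk.injEq, Prod.mk.injEq] at h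
      obtain ⟨⟨h1, h2⟩, h3, h4⟩ := h
      rw [key i i' h1 h3, key k k' h2 h4]
  rw [Finset.card_product] at h1
  have h4 : (univ : Finset (Bool × Bool)).card = 4 := rfl
  rw [h4] at h1
  -- the pairs
  let Q := {i : Fin n // i < t - i}
  let i : Q → Fin n := fun a => a.1
  let j : Q → Fin n := fun a => t - a.1
  have hinj : Function.Injective (Sum.elim i j) := by
    have cross : ∀ a b : Q, a.1 ≠ t - b.1 := by
      intro a b h
      have h1 := a.2
      have h2 := b.2
      rw [h, sub_sub_cancel] at h1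
      exact lt_asymm h1 h2
    rintro (a | a) (b | b) h
    · exact congrArg Sum.inl (Subtype.ext h)
    · exact absurd h (cross a b)
    · exact absurd h.symm (cross b a)
    · exact congrArg Sum.inr (Subtype.ext (sub_right_injective h))
  have hQ : 2 * Fintype.card Q ≤ n := by
    have := Fintype.card_le_of_injective _ hinj
    rw [Fintype.card_sum, Fintype.card_fin] at this
    omega
  have hg : Gd.card ≤
      Nat.card {p : Q × Q // p.1 ≠ p.2 ∧ ¬ Bad G (i p.1) (j p.1) (i p.2) (j p.2)} := by
    have h5 : Gd.card = Nat.card {x // x ∈ Gd} := by simp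
    rw [h5]
    have hm' : ∀ x ∈ Gd, x.1 < t - x.1 ∧ x.2 < t - x.2 ∧ x.1 ≠ x.2 ∧
        ¬ Bad G x.1 (t - x.1) x.2 (t - x.2) := by
      intro x hx
      rw [hGd, Finset.mem_filter] at hx
      exact hx.2
    have hm : ∀ x : {x // x ∈ Gd}, x.1.1 < t - x.1.1 ∧ x.1.2 < t - x.1.2 ∧ x.1.1 ≠ x.1.2 ∧
        ¬ Bad G x.1.1 (t - x.1.1) x.1.2 (t - x.1.2) := fun x => hm' x.1 x.2
    refine Nat.card_le_card_of_injective
      (fun x => ⟨(⟨x.1.1, (hm x).1⟩, ⟨x.1.2, (hm x).2.1⟩), ?_, ?_⟩) ?_
    · intro h
      exact (hm x).2.2.1 (congrArg Subtype.val h)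
    · exact (hm x).2.2.2
    · intro x y h
      have h1 := congrArg (fun z => z.1.1.1) h
      have h2 := congrArg (fun z => z.1.2.1) h
      exact Subtype.ext (Prod.ext h1 h2)
  obtain ⟨d, hd2, hd, hle⟩ := InSphereInj_of_good G i j hinj Gd.card hg
    (by rw [Fintype.card_fin]; exact hn)
  have hd3 : 49 * n < 50 * d := by
    by_contra h
    exact hG d hd2 (not_lt.1 h) hd
  rw [Fintype.card_fin] at hle
  obtain ⟨m, rfl⟩ : ∃ m, n = m + 1 := ⟨n - 1, by omega⟩
  rw [Nat.add_sub_cancel] at hle
  have h6 : 50 * Gd.card ≤ (m + 1) ^ 2 := by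
    generalize Fintype.card Q = q at *
    generalize Gd.card = g at *
    nlinarith [Nat.mul_le_mul_left (2 * q) hd3.le, Nat.mul_le_mul_right (m + 1) hQ]
  calc 50 * S.card ≤ 50 * (Gd.card * 4) := Nat.mul_le_mul_left _ h1
    _ ≤ 4 * (m + 1) ^ 2 := by linarith

open Classical in
theorem caseX {n : ℕ} [NeZero n] (hn : 8 ≤ n) (G : SimpleGraph (Fin n))
    (hG : ∀ d, 2 ≤ d → 50 * d ≤ 49 * n → ¬ InSphereInj d G) :
    50 * (univ.filter fun p : Fin n × Fin n × Fin n => Pos G p.1 p.2.1 p.2.2).card
      ≤ 4 * n ^ 3 + 50 * n ^ 2 := by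
  set T := univ.filter fun p : Fin n × Fin n × Fin n => Pos G p.1 p.2.1 p.2.2 with hT
  have h0 := Finset.card_filter_add_card_filter_not (s := T) (fun p => p.2.2 + p.2.2 = p.1 + p.2.1)
  have h1 : (T.filter fun p => p.2.2 + p.2.2 = p.1 + p.2.1).card ≤ n ^ 2 := by
    have : (univ : Finset (Fin n × Fin n)).card = n ^ 2 := by
      rw [Finset.card_univ, Fintype.card_prod, Fintype.card_fin, sq]
    rw [← this]
    refine Finset.card_le_card_of_injOn (fun p => p.2) (fun _ _ => Finset.mem_coe.2 (Finset.mem_univ _)) ?_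
    rintro ⟨a, b, c⟩ h ⟨a', b', c'⟩ h' heq
    rw [Finset.mem_coe, Finset.mem_filter] at h h'
    obtain ⟨-, h⟩ := h
    obtain ⟨-, h'⟩ := h'
    dsimp only at h h' heq
    rw [Prod.mk.injEq] at heq
    obtain ⟨rfl, rfl⟩ := heq
    rw [h, add_left_inj] at h'
    rw [h']
  have h2 : 50 * (T.filter fun p => ¬ p.2.2 + p.2.2 = p.1 + p.2.1).card ≤ 4 * n ^ 3 := by
    rw [Finset.card_eq_sum_card_fiberwise (f := fun p => p.1 + p.2.1) (t := univ)
      (fun _ _ => Finset.mem_coe.2 (Finset.mem_univ _)), Finset.mul_sum]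
    calc _ ≤ ∑ t : Fin n, 4 * n ^ 2 := by
          refine Finset.sum_le_sum fun t _ => ?_
          refine le_trans (Nat.mul_le_mul_left _ ?_) (good_of_shift hn G hG t)
          refine Finset.card_le_card_of_injOn (fun p => (p.1, p.2.2)) ?_ ?_
          · rintro ⟨a, b, c⟩ h
            rw [Finset.mem_coe, Finset.mem_filter, Finset.mem_filter, hT, Finset.mem_filter] at h
            obtain ⟨⟨⟨-, h1⟩, h2⟩, h3⟩ := h
            dsimp only at h1 h2 h3
            subst h3
            rw [Finset.mem_coe, Finset.mem_filter]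
            refine ⟨Finset.mem_univ _, ?_, h2⟩
            dsimp only
            rw [add_sub_cancel_left]
            exact h1
          · rintro ⟨a, b, c⟩ h ⟨a', b', c'⟩ h' heq
            rw [Finset.mem_coe, Finset.mem_filter] at h h'
            obtain ⟨-, h⟩ := h
            obtain ⟨-, h'⟩ := h'
            dsimp only at h h' heq
            rw [Prod.mk.injEq] at heq
            obtain ⟨rfl, rfl⟩ := heq
            rw [← h, add_right_inj] at h'
            rw [h']
      _ = 4 * n ^ 3 := by
          rw [Finset.sum_const, Finset.card_univ, Fintype.card_fin, smul_eq_mul]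
          ring
  linarith

theorem exists_matching [DecidableEq V] (G : SimpleGraph V) (A : Finset V) :
    ∃ (M : Finset (V × V)) (R : Finset V), (∀ p ∈ M, p.1 ∈ A ∧ p.2 ∈ A ∧ G.Adj p.1 p.2) ∧
      (∀ p ∈ M, ∀ q ∈ M, p ≠ q → p.1 ≠ q.1 ∧ p.1 ≠ q.2 ∧ p.2 ≠ q.1 ∧ p.2 ≠ q.2) ∧ R ⊆ A ∧
      (∀ x ∈ R, ∀ y ∈ R, ¬ G.Adj x y) ∧ R.card + 2 * M.card = A.card := by
  induction A using Finset.strongInduction with
  | H A ih =>
    by_cases h : ∀ x ∈ A, ∀ y ∈ A, ¬ G.Adj x y
    · exact ⟨∅, A, by simp, by simp, subset_rfl, h, by simp⟩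
    · push Not at h
      obtain ⟨x, hx, y, hy, hxy⟩ := h
      have hne : y ≠ x := hxy.ne'
      have hy' : y ∈ A.erase x := Finset.mem_erase.2 ⟨hne, hy⟩
      have hss : (A.erase x).erase y ⊂ A :=
        lt_of_le_of_lt (Finset.erase_subset _ _) (Finset.erase_ssubset hx)
      obtain ⟨M, R, h1, h2, h3, h4, h5⟩ := ih _ hss
      have hM : ∀ p ∈ M, p.1 ≠ x ∧ p.1 ≠ y ∧ p.2 ≠ x ∧ p.2 ≠ y := by
        intro p hp
        obtain ⟨a, b, -⟩ := h1 p hp
        rw [Finset.mem_erase, Finset.mem_erase] at a b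
        exact ⟨a.2.1, a.1, b.2.1, b.1⟩
      have hnot : (x, y) ∉ M := fun h => (hM _ h).1 rfl
      refine ⟨insert (x, y) M, R, ?_, ?_, fun z hz => hss.1 (h3 hz), h4, ?_⟩
      · intro p hp
        rcases Finset.mem_insert.1 hp with rfl | hp
        · exact ⟨hx, hy, hxy⟩
        · obtain ⟨a, b, c⟩ := h1 p hp
          exact ⟨hss.1 a, hss.1 b, c⟩
      · intro p hp q hq hpq
        rcases Finset.mem_insert.1 hp with rfl | hp <;> rcases Finset.mem_insert.1 hq with rfl | hq
        · exact absurd rfl hpq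
        · obtain ⟨a, b, c, d⟩ := hM q hq
          exact ⟨a.symm, c.symm, b.symm, d.symm⟩
        · obtain ⟨a, b, c, d⟩ := hM p hp
          exact ⟨a, b, c, d⟩
        · exact h2 p hp q hq hpq
      · rw [Finset.card_insert_of_notMem hnot]
        have e1 := Finset.card_erase_add_one hx
        have e2 := Finset.card_erase_add_one hy'
        omega

open Classical in
theorem caseZ {n : ℕ} (hn : 1000 ≤ n) (G : SimpleGraph (Fin n))
    (hG : ∀ d, 2 ≤ d → 50 * d ≤ 49 * n → ¬ InSphereInj d G)
    (hT : 50 * (univ.filter fun p : Fin n × Fin n × Fin n => Pos G p.1 p.2.1 p.2.2).card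
      ≤ 4 * n ^ 3 + 50 * n ^ 2) : False := by
  set T := univ.filter fun p : Fin n × Fin n × Fin n => Pos G p.1 p.2.1 p.2.2 with hTdef
  -- a vertex in few positive triples
  obtain ⟨v, hv⟩ : ∃ v : Fin n, n * (univ.filter fun p : Fin n × Fin n => Pos G v p.1 p.2).card
      ≤ T.card := by
    by_contra hcon
    push Not at hcon
    have h1 : ∑ v : Fin n, (univ.filter fun p : Fin n × Fin n => Pos G v p.1 p.2).card ≤ T.card := by
      rw [Finset.card_eq_sum_card_fiberwise (s := T) (f := fun p => p.1) (t := univ)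
        (fun _ _ => Finset.mem_coe.2 (Finset.mem_univ _))]
      refine Finset.sum_le_sum fun v _ => ?_
      refine Finset.card_le_card_of_injOn (fun p => (v, p)) ?_ ?_
      · rintro p h
        rw [Finset.mem_coe, Finset.mem_filter] at h
        rw [Finset.mem_coe, Finset.mem_filter, hTdef, Finset.mem_filter]
        exact ⟨⟨Finset.mem_univ _, h.2⟩, rfl⟩
      · intro p _ q _ h
        exact (Prod.mk.inj h).2
    have h2 : ∑ _v : Fin n, T.card <
        ∑ v : Fin n, n * (univ.filter fun p : Fin n × Fin n => Pos G v p.1 p.2).card :=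
      Finset.sum_lt_sum_of_nonempty ⟨⟨0, by omega⟩, Finset.mem_univ _⟩ fun v _ => hcon v
    rw [Finset.sum_const, Finset.card_univ, Fintype.card_fin, smul_eq_mul, ← Finset.mul_sum] at h2
    exact absurd h1 (not_le.2 (Nat.lt_of_mul_lt_mul_left h2))
  set P := univ.filter fun p : Fin n × Fin n => Pos G v p.1 p.2 with hP
  have hP1 : 25 * P.card ≤ 2 * n ^ 2 + 25 * n := by
    have h1 : n * (50 * P.card) ≤ n * (4 * n ^ 2 + 50 * n) := by
      calc n * (50 * P.card) = 50 * (n * P.card) := by ring
        _ ≤ 50 * T.card := Nat.mul_le_mul_left _ hv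
        _ ≤ 4 * n ^ 3 + 50 * n ^ 2 := hT
        _ = n * (4 * n ^ 2 + 50 * n) := by ring
    have h2 := Nat.le_of_mul_le_mul_left h1 (by omega)
    omega
  -- the larger half
  obtain ⟨A, hA1, hA2⟩ : ∃ A : Finset (Fin n), n ≤ 2 * A.card + 1 ∧
      ∀ x ∈ A, ∀ y ∈ A, G.Adj x y → Pos G v x y := by
    set B := univ.filter fun x => G.Adj v x with hB
    set C := univ.filter fun x => x ≠ v ∧ ¬ G.Adj v x with hC
    have h1 : n ≤ B.card + C.card + 1 := by
      have h2 : (univ : Finset (Fin n)) ⊆ (B ∪ C) ∪ {v} := by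
        intro x _
        rw [Finset.mem_union, Finset.mem_union, Finset.mem_singleton, hB, hC, Finset.mem_filter,
          Finset.mem_filter]
        by_cases h1 : x = v
        · exact Or.inr h1
        · by_cases h2 : G.Adj v x
          · exact Or.inl (Or.inl ⟨Finset.mem_univ _, h2⟩)
          · exact Or.inl (Or.inr ⟨Finset.mem_univ _, h1, h2⟩)
      have h3 := Finset.card_le_card h2
      have h4 := Finset.card_union_le (B ∪ C) {v}
      have h5 := Finset.card_union_le B C
      rw [Finset.card_univ, Fintype.card_fin] at h3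
      rw [Finset.card_singleton] at h4
      omega
    rcases le_total B.card C.card with h | h
    · refine ⟨C, by omega, fun x hx y hy hxy => ?_⟩
      rw [hC, Finset.mem_filter] at hx hy
      refine ⟨fun h => hx.2.1 h.symm, hxy.ne, fun h => hy.2.1 h.symm, ?_⟩
      rw [sg_not hx.2.2, sg_not hy.2.2, sg_adj hxy]
      norm_num
    · refine ⟨B, by omega, fun x hx y hy hxy => ?_⟩
      rw [hB, Finset.mem_filter] at hx hy
      refine ⟨hx.2.ne, hxy.ne, hy.2.ne, ?_⟩
      rw [sg_adj hx.2, sg_adj hy.2, sg_adj hxy]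
      norm_num
  obtain ⟨M, R, hM1, hM2, hR1, hR2, hMR⟩ := exists_matching G A
  have hRn : R.card ≤ n := by
    have := Finset.card_le_univ R
    rwa [Fintype.card_fin] at this
  -- the independent part is small
  have hR3 : 50 * (R.card / 2) + 50 < n := by
    by_contra hcon
    push Not at hcon
    obtain ⟨e⟩ : Nonempty ((Fin (R.card / 2) ⊕ Fin (R.card / 2)) ↪ R) := by
      rw [Function.Embedding.nonempty_iff_card_le, Fintype.card_sum, Fintype.card_fin,
        Fintype.card_coe]
      omega
    have hel : Sum.elim (fun a => ((e (Sum.inl a)).1 : Fin n)) (fun a => ((e (Sum.inr a)).1 : Fin n))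
        = fun x => (e x).1 := by
      funext x
      rcases x with a | a <;> rfl
    have h1 := InSphereInj_of_indep G (fun a => ((e (Sum.inl a)).1 : Fin n))
      (fun a => ((e (Sum.inr a)).1 : Fin n))
      (by
        rw [hel]
        intro x y hxy
        exact e.injective (Subtype.ext hxy))
      (by
        intro x y
        rw [hel]
        exact hR2 _ (e x).2 _ (e y).2)
      (by
        rw [Fintype.card_fin, Fintype.card_fin]
        omega)
    rw [Fintype.card_fin, Fintype.card_fin] at h1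
    exact hG _ (by omega) (by omega) h1
  -- the matching
  let Q := {p // p ∈ M}
  let i : Q → Fin n := fun a => a.1.1
  let j : Q → Fin n := fun a => a.1.2
  have hinj : Function.Injective (Sum.elim i j) := by
    rintro (a | a) (b | b) h
    · by_contra hne
      have hab : a.1 ≠ b.1 := fun h' => hne (congrArg Sum.inl (Subtype.ext h'))
      exact (hM2 _ a.2 _ b.2 hab).1 h
    · exfalso
      by_cases hab : a.1 = b.1
      · have h1 : a.1.1 = b.1.2 := h
        rw [hab] at h1
        exact (hM1 _ b.2).2.2.ne h1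
      · exact (hM2 _ a.2 _ b.2 hab).2.1 h
    · exfalso
      by_cases hab : a.1 = b.1
      · have h1 : a.1.2 = b.1.1 := h
        rw [hab] at h1
        exact (hM1 _ b.2).2.2.ne h1.symm
      · exact (hM2 _ a.2 _ b.2 hab).2.2.1 h
    · by_contra hne
      have hab : a.1 ≠ b.1 := fun h' => hne (congrArg Sum.inr (Subtype.ext h'))
      exact (hM2 _ a.2 _ b.2 hab).2.2.2 h
  have hQ : Fintype.card Q = M.card := Fintype.card_coe M
  -- bad pairs of pairs
  set BD := univ.filter fun p : Q × Q => p.1 ≠ p.2 ∧ Bad G (i p.1) (j p.1) (i p.2) (j p.2) with hBD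
  have hB1 : (BD ×ˢ (univ : Finset Bool)).card ≤ P.card := by
    refine Finset.card_le_card_of_injOn
      (fun p => (if G.Adj (i p.1.1) (if p.2 then j p.1.2 else i p.1.2) then i p.1.1 else j p.1.1,
        if p.2 then j p.1.2 else i p.1.2)) ?_ ?_
    · rintro ⟨⟨a, b⟩, c⟩ h
      rw [Finset.mem_coe, Finset.mem_product, hBD, Finset.mem_filter] at h
      obtain ⟨⟨-, hab, hbad⟩, -⟩ := h
      dsimp only at hab hbad
      rw [Finset.mem_coe, hP, Finset.mem_filter]
      refine ⟨Finset.mem_univ _, ?_⟩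
      dsimp only
      have hai := (hM1 _ a.2).1
      have haj := (hM1 _ a.2).2.1
      have haa : sg G (i a) (j a) = 1 := sg_adj (hM1 _ a.2).2.2
      have hbi := (hM1 _ b.2).1
      have hbj := (hM1 _ b.2).2.1
      have hbi' := hbad.1
      have hbj' := hbad.2.1
      rw [haa, one_mul] at hbi' hbj'
      have gen : ∀ y ∈ A, sg G (j a) y * sg G (i a) y = -1 →
          Pos G v (if G.Adj (i a) y then i a else j a) y := by
        intro y hy h
        by_cases c1 : G.Adj (i a) y
        · rw [if_pos c1]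
          exact hA2 _ hai _ hy c1
        · rw [if_neg c1]
          refine hA2 _ haj _ hy ?_
          by_contra c2
          rw [sg_not c1, sg_not c2] at h
          norm_num at h
      cases c
      · exact gen _ hbi hbi'
      · exact gen _ hbj hbj'
    · rintro ⟨⟨a, b⟩, c⟩ - ⟨⟨a', b'⟩, c'⟩ - h
      rw [Prod.mk.injEq] at h
      obtain ⟨h1, h2⟩ := h
      dsimp only at h1 h2
      rw [h2] at h1
      have hy : (if c = true then Sum.inr b else Sum.inl b : Q ⊕ Q) =
          if c' = true then Sum.inr b' else Sum.inl b' := by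
        apply hinj
        rw [apply_ite (Sum.elim i j), apply_ite (Sum.elim i j)]
        exact h2
      have hx : ∃ s s' : Bool, (if s = true then Sum.inl a else Sum.inr a : Q ⊕ Q) =
          if s' = true then Sum.inl a' else Sum.inr a' := by
        refine ⟨decide (G.Adj (i a) (if c' = true then j b' else i b')),
          decide (G.Adj (i a') (if c' = true then j b' else i b')), ?_⟩
        apply hinj
        rw [apply_ite (Sum.elim i j), apply_ite (Sum.elim i j)]
        simp only [decide_eq_true_eq]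
        exact h1
      obtain ⟨s, s', hx⟩ := hx
      have ha : a = a' := by
        cases s <;> cases s' <;> simp at hx <;> exact hx
      have hb : b = b' ∧ c = c' := by
        cases c <;> cases c' <;> simp at hy <;> exact ⟨hy, rfl⟩
      rw [ha, hb.1, hb.2]
  rw [Finset.card_product] at hB1
  have hb2 : (univ : Finset Bool).card = 2 := rfl
  rw [hb2] at hB1
  have hgood : M.card * (M.card - 1) - BD.card ≤
      Nat.card {p : Q × Q // p.1 ≠ p.2 ∧ ¬ Bad G (i p.1) (j p.1) (i p.2) (j p.2)} := by
    rw [Nat.card_eq_fintype_card, Fintype.card_subtype]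
    have h1 : M.card * (M.card - 1) = (univ.filter fun p : Q × Q => p.1 ≠ p.2).card := by
      have h2 : (univ.filter fun p : Q × Q => p.1 ≠ p.2) = (univ : Finset Q).offDiag := by
        ext p
        simp
      rw [h2, Finset.offDiag_card, Finset.card_univ, hQ, Nat.mul_sub_one]
    have h3 : (univ.filter fun p : Q × Q => p.1 ≠ p.2) ⊆ BD ∪ univ.filter fun p : Q × Q =>
        p.1 ≠ p.2 ∧ ¬ Bad G (i p.1) (j p.1) (i p.2) (j p.2) := by
      intro p hp
      rw [Finset.mem_filter] at hp
      rw [Finset.mem_union, hBD, Finset.mem_filter, Finset.mem_filter]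
      by_cases h : Bad G (i p.1) (j p.1) (i p.2) (j p.2)
      · exact Or.inl ⟨Finset.mem_univ _, hp.2, h⟩
      · exact Or.inr ⟨Finset.mem_univ _, hp.2, h⟩
    have h4 := (Finset.card_le_card h3).trans (Finset.card_union_le _ _)
    rw [h1]
    omega
  obtain ⟨d, hd2, hd, hle⟩ := InSphereInj_of_good G i j hinj _ hgood
    (by rw [Fintype.card_fin]; omega)
  have hd3 : 49 * n < 50 * d := by
    by_contra h
    exact hG d hd2 (not_lt.1 h) hd
  rw [Fintype.card_fin, hQ] at hle
  -- arithmetic
  have hnu : 23 * n ≤ 100 * M.card := by omega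
  have hle2 : 2 * M.card * d + M.card * (M.card - 1) ≤ 2 * M.card * (n - 1) + BD.card := by omega
  generalize M.card = m at *
  generalize BD.card = b at *
  generalize P.card = p at *
  obtain ⟨k, rfl⟩ : ∃ k, m = k + 1 := ⟨m - 1, by omega⟩
  obtain ⟨l, rfl⟩ : ∃ l, n = l + 1 := ⟨n - 1, by omega⟩
  simp only [Nat.add_sub_cancel] at hle2
  zify at *
  nlinarith
  

end Up

/-- The linear upper bound. -/
theorem upper_bound : ∃ N : ℕ, ∀ n ≥ N, ∀ G : SimpleGraph (Fin n),
    ∃ d, 2 ≤ d ∧ 50 * d ≤ 49 * n ∧ InSphereInj d G := by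
  refine ⟨1000, fun n hn G => ?_⟩
  by_contra hcon
  push Not at hcon
  have : NeZero n := ⟨by omega⟩
  exact Up.caseZ hn G hcon (Up.caseX (by omega) G hcon)

end SphereDim
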