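import Mathlib
import Pool.Agent.Lib.MP_2be980_co.Defs
import Pool.Agent.Lib.MP_2be980_co.Lower
import Pool.Agent.Lib.MP_2be980_co.Upper

open MvPolynomial Metric Finset
open scoped BigOperators RealInnerProductSpace

namespace SphereDim

theorem InSphereInj.inS {V : Type} {d : ℕ} {G : SimpleGraph V} (hd : 2 ≤ d)
    (h : InSphereInj d G) : InS d G := by
  obtain ⟨c, ρ, h1, _, h3⟩ := h
  unfold InS
  rw [if_neg (by omega)]
  exact ⟨c, ρ, h1, h3⟩

/-- The final theorem: linear lower and upper bounds for the maximum sphere dimension. -/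
theorem final : ∃ N : ℕ, ∀ n ≥ N, (n < 20 * f n ∧ 50 * f n ≤ 49 * n) ∧
    (∀ G : SimpleGraph (Fin n), ∃ d, 2 ≤ d ∧ 50 * d ≤ 49 * n ∧ InSphereInj d G) := by
  obtain ⟨N, hN⟩ := upper_bound
  refine ⟨max N 180, fun n hn => ⟨?_, hN n (le_trans (le_max_left _ _) hn)⟩⟩
  have hub := hN n (le_trans (le_max_left _ _) hn)
  have h180 : 180 ≤ n := le_trans (le_max_right _ _) hn
  have hsd : ∀ G : SimpleGraph (Fin n), 50 * sd G ≤ 49 * n := by
    intro G
    obtain ⟨d, hd2, hd, hG⟩ := hub G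
    have h1 : sd G ≤ d := Nat.sInf_le ⟨by omega, hG.inS hd2⟩
    omega
  have hmem : ∀ G : SimpleGraph (Fin n), 1 ≤ sd G ∧ InS (sd G) G := by
    intro G
    obtain ⟨d, hd2, hd, hG⟩ := hub G
    have hne : {d | 1 ≤ d ∧ InS d G}.Nonempty := ⟨d, by omega, hG.inS hd2⟩
    exact Nat.sInf_mem hne
  have hfin : (Set.range fun G : SimpleGraph (Fin n) => sd G).Finite := Set.finite_range _
  have hne : (Set.range fun G : SimpleGraph (Fin n) => sd G).Nonempty := Set.range_nonempty _
  constructor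
  · obtain ⟨G, hG⟩ := exists_not_InS n h180
    have h1 : sd G ≤ f n := le_csSup hfin.bddAbove ⟨G, rfl⟩
    obtain ⟨h2, h3⟩ := hmem G
    by_contra hcon
    exact hG (sd G) h2 (by omega) h3
  · obtain ⟨G, hG⟩ := Nat.sSup_mem hne hfin.bddAbove
    have h2 : f n = sd G := hG.symm
    rw [h2]
    exact hsd G

end SphereDim
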